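import Pool.Agent.Work.MP_727c87_cx.CovTheory2
import Pool.Agent.Work.MP_727c87_cx.Statement
import Pool.Agent.Work.MP_727c87_cx.E1.Met

set_option autoImplicit false

/-! # Part (E2): universal coverings.  Objects and borders

`FlagCover Mo M`: an open cover of a space `M` by sets `U f`, `f` a flag (neighbourhoods of the kites of the tiling,
times the fibre), with the intersection pattern of the flags.  `MetricFlagCover Mo M c`: such a cover of a closed
Riemannian manifold with the length estimates (all lengths in units of the constant `c`).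

Main theorem of the part (`Stmt_E2`): if every universal `Cov` of `Mo` has the bottleneck property with constant `b`,
then `UW_1(X) ≤ 1000 (b + 20) (c + 1)` for every universal Riemannian covering `X` of `M`. -/

namespace Pool.CX

open Set Topology Manifold Bundle
open scoped Manifold ContDiff ENNReal NNReal unitInterval
open Pool.Agent.Work.MP_bc4532_gt (ClosedRiemannianManifold)
open UW727 (RiemannianUniversalCover)

/-- the inclusion of `U` in `M` is null-homotopic -/
def NullIncl {M : Type} [TopologicalSpace M] (U : Set M) : Prop :=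
  ∃ (ms : M) (H : C(I × U, M)), (∀ m : U, H (0, m) = m) ∧ ∀ m : U, H (1, m) = ms

/-- the possible sets of flags near a point of `M`: one kite, two neighbouring kites, the four kites at the midpoint of
a side, the four kites at a corner, the twelve kites of a non-defect chamber -/
def NearShape (Mo : Model) (N : Set Mo.F) : Prop :=
  ∃ f : Mo.F, N = {f} ∨ N = {f, Mo.fr f} ∨ N = {f, Mo.fa f} ∨ N = {f, Mo.base.b f} ∨
    N = {f, Mo.fr f, Mo.base.b f, Mo.fa (Mo.fr f)} ∨ N = {f, Mo.fa f, Mo.base.b f, Mo.fa (Mo.base.b f)} ∨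
    (f.1 ∉ Mo.D ∧ N = {g | g.1 = f.1})

/-- a cover of `M` by neighbourhoods of the kites (times the fibre) -/
structure FlagCover (Mo : Model) (M : Type) [TopologicalSpace M] where
  U : Mo.F → Set M
  isOpen_U : ∀ f, IsOpen (U f)
  cover : ∀ m, ∃ f, m ∈ U f
  pc : ∀ f, IsPathConnected (U f)
  null : ∀ f, NullIncl (U f)
  pc_a : ∀ f, IsPathConnected (U f ∩ U (Mo.fa f))
  pc_b : ∀ f, IsPathConnected (U f ∩ U (Mo.base.b f))
  pc_r : ∀ f, IsPathConnected (U f ∩ U (Mo.fr f))
  corner : ∀ f, ∃ m, m ∈ U f ∧ m ∈ U (Mo.fa f) ∧ m ∈ U (Mo.base.b f) ∧ m ∈ U (Mo.fa (Mo.base.b f))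
  mid : ∀ f, ∃ m, m ∈ U f ∧ m ∈ U (Mo.fr f) ∧ m ∈ U (Mo.base.b f) ∧ m ∈ U (Mo.fa (Mo.fr f))
  centre : ∀ q : Mo.Q, q ∉ Mo.D → ∃ m, ∀ k, m ∈ U (q, k)
  near : ∀ m, NearShape Mo {f | m ∈ U f}

/-- the metric properties of the cover used for the upper bound of the width of `X`; `SPath A ℓ x y` (E1/Met.lean):
`x` and `y` are joined by an `ℓ`-Lipschitz path `[0, 1] → A` -/
structure MetricFlagCover (Mo : Model) (M : ClosedRiemannianManifold) (c : ℝ≥0) extends FlagCover Mo M.Pt where
  /-- the closed kites -/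
  K : Mo.F → Set M.Pt
  K_sub : ∀ f, K f ⊆ U f
  coverK : ∀ m, ∃ f, m ∈ K f
  /-- the closed kites have bounded inner diameter -/
  len : ∀ f, ∀ m ∈ K f, ∀ m' ∈ K f, SPath (U f) c m m'
  /-- neighbourhoods of the non-defect chambers -/
  V : Mo.Q → Set M.Pt
  sub : ∀ f : Mo.F, f.1 ∉ Mo.D → U f ⊆ V f.1
  nullV : ∀ q, q ∉ Mo.D → NullIncl (V q)
  /-- the point of the section over the midpoint of the side of `f` -/
  anchor : Mo.F → M.Pt
  anchor_mem : ∀ f, anchor f ∈ K f
  anchor_r : ∀ f, anchor (Mo.fr f) ∈ K f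
  anchor_a : ∀ f, anchor (Mo.fa f) = anchor f
  /-- the chords are short -/
  chord : ∀ f : Mo.F, f.1 ∉ Mo.D →
    SPath (V f.1) (c / Fintype.card Mo.F) (anchor f) (anchor (f.1, Mo.mu f.1 f.2))

/-- main theorem of part (E2) -/
def Stmt_E2 : Prop :=
  ∀ (Mo : Model) (M : ClosedRiemannianManifold) (c : ℝ≥0) (_ : MetricFlagCover Mo M c) (b : ℕ),
    (∀ C : Cov Mo, C.Univ → C.Bottleneck b) → ∀ X : RiemannianUniversalCover M,
      UW727.urysohnWidthW 1 X.Pt ≤ ENNReal.ofReal (1000 * (b + 20) * (c + 1))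

end Pool.CX
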