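import Pool.Agent.Work.MP_727c87_cx.E2.Interface

set_option autoImplicit false

/-! # Part (E2), block Arc (helper76) -/

namespace Pool.CX

namespace ArcB

variable {Mo : Model}

/-- follow the line by one chamber -/
def TF (Mo : Model) (f : Mo.F) : Mo.F := (Mo.L.τ (Mo.mu f.1 f.2) f.1, Mo.mu f.1 f.2)

theorem TF_inj (Mo : Model) : Function.Injective (TF Mo) := by
  rintro ⟨q, i⟩ ⟨q', i'⟩ h
  have h2 : Mo.mu q i = Mo.mu q' i' := congrArg Prod.snd h
  have h1 : Mo.L.τ (Mo.mu q i) q = Mo.L.τ (Mo.mu q' i') q' := congrArg Prod.fst h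
  rw [← h2] at h1
  have h3 : q = q' := by
    have := congrArg (Mo.L.τ (Mo.mu q i)) h1
    rwa [Mo.L.inv, Mo.L.inv] at this
  subst h3
  have h4 : i = i' := by
    have := congrArg (Mo.mu q) h2
    rwa [(Mo.good q).inv, (Mo.good q).inv] at this
  rw [h4]

theorem TF_cut (Mo : Model) (f : Mo.F) : ∃ n, ((TF Mo)^[n] f).1 ∈ Mo.D := by
  obtain ⟨n, v, h0, hn, h⟩ := Mo.cut f.1 f.2
  refine ⟨n, ?_⟩
  have : ∀ k ≤ n, v k = (TF Mo)^[k] f := by
    intro k
    induction k with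
    | zero => intro _; exact h0
    | succ k ih =>
      intro hk
      have h1 := h k (by omega)
      rw [Function.iterate_succ_apply', ← ih (by omega)]
      refine Prod.ext ?_ ?_
      · rw [h1.1, h1.2]; rfl
      · exact h1.2
  rw [← this n le_rfl]
  exact hn

theorem bound (Mo : Model) (f : Mo.F) (k : ℕ) (h : ∀ j < k, ((TF Mo)^[j] f).1 ∉ Mo.D) :
    k ≤ Fintype.card Mo.F := by
  have key : ∀ i j, i < j → j < k → (TF Mo)^[i] f ≠ (TF Mo)^[j] f := by
    intro i j hij hj he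
    obtain ⟨d, rfl⟩ := Nat.exists_eq_add_of_lt hij
    have h1 : (TF Mo)^[i + d + 1] f = (TF Mo)^[i] ((TF Mo)^[d + 1] f) := by
      rw [← Function.iterate_add_apply, add_assoc]
    rw [h1] at he
    have h2 : f = (TF Mo)^[d + 1] f := (TF_inj Mo).iterate i he
    have h3 : Function.IsPeriodicPt (TF Mo) (d + 1) f := h2.symm
    obtain ⟨n, hn⟩ := TF_cut Mo f
    rw [← h3.iterate_mod_apply] at hn
    exact h (n % (d + 1)) (lt_of_lt_of_le (Nat.mod_lt _ (by omega)) (by omega)) hn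
  have hinj : Function.Injective (fun j : Fin k => (TF Mo)^[j.1] f) := by
    intro i j e
    by_contra hne
    rcases Nat.lt_or_gt_of_ne (fun hh => hne (Fin.ext hh)) with hlt | hlt
    · exact key i.1 j.1 hlt j.2 e
    · exact key j.1 i.1 hlt i.2 e.symm
  have := Fintype.card_le_of_injective _ hinj
  rwa [Fintype.card_fin] at this

/-- walks along an arc -/
inductive FwdN (C : Cov Mo) : ℕ → C.Y → C.Y → Prop
  | refl (y : C.Y) : FwdN C 0 y y
  | step {k : ℕ} {y y' : C.Y} : FwdN C k y y' → (C.p y').1 ∉ Mo.D → FwdN C (k + 1) y (C.a (C.m y'))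

theorem p_fwd {C : Cov Mo} {k : ℕ} {y y' : C.Y} (h : FwdN C k y y') :
    C.p y' = (TF Mo)^[k] (C.p y) ∧ ∀ j < k, ((TF Mo)^[j] (C.p y)).1 ∉ Mo.D := by
  induction h with
  | refl y => exact ⟨rfl, fun j hj => absurd hj (Nat.not_lt_zero j)⟩
  | @step k y y' _ hd ih =>
    obtain ⟨ih1, ih2⟩ := ih
    constructor
    · rw [Function.iterate_succ_apply', ← ih1, C.p_a, C.p_m]
      rfl
    · intro j hj
      rcases Nat.lt_succ_iff_lt_or_eq.1 hj with h | h
      · exact ih2 j h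
      · rw [h, ← ih1]; exact hd

theorem le_fwd {C : Cov Mo} {k : ℕ} {y y' : C.Y} (h : FwdN C k y y') : k ≤ Fintype.card Mo.F :=
  bound Mo (C.p y) k (p_fwd h).2

theorem arcLe_fwd {C : Cov Mo} {k : ℕ} {y y' : C.Y} (h : FwdN C k y y') : ArcLe C k y y' := by
  induction h with
  | refl y => exact ArcLe.refl y
  | step _ hd ih => exact ArcLe.a (ArcLe.m ih hd)

theorem arcLe_trans {C : Cov Mo} {k l : ℕ} {x y z : C.Y} (h : ArcLe C k x y) (h' : ArcLe C l y z) :
    ArcLe C (k + l) x z := by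
  induction h' with
  | refl y => exact h
  | a _ ih => exact ArcLe.a (ih h)
  | m _ hd ih => exact ArcLe.m (ih h) hd

theorem nd_m {C : Cov Mo} {y : C.Y} (h : (C.p y).1 ∉ Mo.D) : (C.p (C.m y)).1 ∉ Mo.D := by
  rw [C.p_m]; exact h

theorem fwd_head {C : Cov Mo} {k : ℕ} {y z : C.Y} (hd : (C.p y).1 ∉ Mo.D)
    (h : FwdN C k (C.a (C.m y)) z) : FwdN C (k + 1) y z := by
  generalize hw : C.a (C.m y) = w at h
  induction h with
  | refl w =>
    subst hw
    exact FwdN.step (FwdN.refl y) hd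
  | step _ hd' ih => exact FwdN.step (ih hw) hd'

theorem cases (C : Cov Mo) {z w : C.Y} (h : C.SameArc z w) :
    ∃ k z' w', (z' = z ∨ z' = C.a z) ∧ (w' = w ∨ w' = C.a w) ∧ FwdN C k z' w' := by
  have key : ∀ w v, (v = C.a w ∨ ((C.p w).1 ∉ Mo.D ∧ v = C.m w)) →
      (∃ k z' w', (z' = z ∨ z' = C.a z) ∧ (w' = w ∨ w' = C.a w) ∧ FwdN C k z' w') →
      (∃ k z' w', (z' = z ∨ z' = C.a z) ∧ (w' = v ∨ w' = C.a v) ∧ FwdN C k z' w') := by
    rintro w v (rfl | ⟨hnd, rfl⟩) ⟨k, z', w', hz, hw, hr⟩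
    · exact ⟨k, z', w', hz, by rw [C.a_a]; exact hw.symm, hr⟩
    · rcases hw with rfl | rfl
      · exact ⟨k + 1, z', C.a (C.m w'), hz, Or.inr rfl, FwdN.step hr hnd⟩
      · generalize hx : C.a w = x at hr
        cases hr with
        | refl =>
          -- `z' = a w`
          refine ⟨1, C.a z', C.a (C.m w), ?_, Or.inr rfl, ?_⟩
          · rcases hz with rfl | rfl
            · exact Or.inr rfl
            · exact Or.inl (C.a_a z)
          · have : C.a z' = w := by rw [← hx, C.a_a]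
            rw [this]
            exact FwdN.step (FwdN.refl w) hnd
        | @step k _ v hv hd =>
          have h1 : w = C.m v := C.a_inj hx
          refine ⟨k, z', v, hz, Or.inl ?_, hv⟩
          rw [h1, C.m_m _ hd]
  have hsymm : ∀ w v, (v = C.a w ∨ ((C.p w).1 ∉ Mo.D ∧ v = C.m w)) →
      (w = C.a v ∨ ((C.p v).1 ∉ Mo.D ∧ w = C.m v)) := by
    rintro w v (rfl | ⟨hnd, rfl⟩)
    · exact Or.inl (C.a_a w).symm
    · exact Or.inr ⟨nd_m hnd, (C.m_m _ hnd).symm⟩
  have h2 : Relation.ReflTransGen (fun y y' => y' = C.a y ∨ ((C.p y).1 ∉ Mo.D ∧ y' = C.m y)) z w := by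
    have : Relation.ReflTransGen (fun y y' => y' = C.a y ∨ ((C.p y).1 ∉ Mo.D ∧ y' = C.m y)) z w ∧
        Relation.ReflTransGen (fun y y' => y' = C.a y ∨ ((C.p y).1 ∉ Mo.D ∧ y' = C.m y)) w z := by
      clear key
      induction h with
      | rel x y h => exact ⟨Relation.ReflTransGen.single h, Relation.ReflTransGen.single (hsymm _ _ h)⟩
      | refl x => exact ⟨Relation.ReflTransGen.refl, Relation.ReflTransGen.refl⟩
      | symm x y _ ih => exact ⟨ih.2, ih.1⟩
      | trans x y z _ _ ih1 ih2 => exact ⟨ih1.1.trans ih2.1, ih2.2.trans ih1.2⟩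
    exact this.1
  clear h
  induction h2 with
  | refl => exact ⟨0, z, z, Or.inl rfl, Or.inl rfl, FwdN.refl z⟩
  | tail _ hg ih => exact key _ _ hg ih

end ArcB

open ArcB in
theorem stmt_Arc : Stmt_Arc := by
  intro Mo C y y' h
  obtain ⟨k, z, z', hz, hz', hf⟩ := ArcB.cases C h
  refine ⟨k, le_fwd hf, ?_⟩
  have h1 : ArcLe C 0 y z := by
    rcases hz with rfl | rfl
    · exact ArcLe.refl z
    · exact ArcLe.a (ArcLe.refl y)
  have h3 := arcLe_trans h1 (arcLe_fwd hf)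
  rw [zero_add] at h3
  rcases hz' with rfl | rfl
  · exact h3
  · have := ArcLe.a h3
    rwa [C.a_a] at this

end Pool.CX
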