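import Pool.Agent.Work.MP_727c87_cx.E2.Interface

set_option autoImplicit false

/-! # Block Cech (part E2): locally constant cocycles on simply connected spaces are coboundaries -/

namespace Pool.CX

open Set Topology Filter

theorem stmt_Cech : Stmt_Cech := by
  classical
  intro X _ _ _ ι G _ U c hU hcov hc hloc
  letI : TopologicalSpace G := ⊥
  haveI : DiscreteTopology G := ⟨rfl⟩
  choose idx hidx using hcov
  have hself : ∀ i x, x ∈ U i → c x i i = 1 := by
    intro i x hx
    have h := hc x i i i hx hx hx
    exact mul_eq_left.mp h
  let Z : FiberBundleCore ι X G :=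
    { baseSet := U
      isOpen_baseSet := hU
      indexAt := idx
      mem_baseSet_at := hidx
      coordChange := fun i j x g => c x i j * g
      coordChange_self := by
        intro i x hx v
        show c x i i * v = v
        rw [hself i x hx, one_mul]
      continuousOn_coordChange := by
        rintro i j ⟨x, g⟩ ⟨⟨hi, hj⟩, -⟩
        apply ContinuousAt.continuousWithinAt
        have h1 : ∀ᶠ p : X × G in 𝓝 (x, g), c p.1 i j * p.2 = c x i j * p.2 := by
          have h2 : ∀ᶠ p : X × G in 𝓝 (x, g), ∀ i j, x ∈ U i → x ∈ U j → c p.1 i j = c x i j :=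
            (continuous_fst.tendsto (x, g)).eventually (hloc x)
          filter_upwards [h2] with p hp
          rw [hp i j hi hj]
        refine ContinuousAt.congr ?_ (h1.mono fun p hp => hp.symm)
        have h3 : Continuous (fun g' : G => c x i j * g') := continuous_of_discreteTopology
        exact (h3.comp continuous_snd).continuousAt
      coordChange_comp := by
        rintro i j k x ⟨⟨hi, hj⟩, hk⟩ v
        show c x j k * (c x i j * v) = c x i k * v
        rw [← mul_assoc, hc x i j k hi hj hk] }
  have hZ : IsCoveringMap (Bundle.TotalSpace.proj : Z.TotalSpace → X) :=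
    FiberBundle.isCoveringMap (F := G) (E := Z.Fiber)
  obtain ⟨x0⟩ : Nonempty X := inferInstance
  obtain ⟨F, ⟨-, hF⟩, -⟩ := hZ.existsUnique_continuousMap_lifts (ContinuousMap.id X) x0
    (⟨x0, (1 : G)⟩ : Z.TotalSpace) rfl
  have hFx : ∀ x, (F x).1 = x := fun x => congrFun hF x
  refine ⟨fun i x => (Z.localTriv i (F x)).2, ?_, ?_⟩
  · intro i x hx
    have h1 : ContinuousAt (Z.localTriv i) (F x) := by
      apply (Z.localTriv i).continuousOn.continuousAt
      apply (Z.localTriv i).open_source.mem_nhds
      rw [FiberBundleCore.mem_localTriv_source, hFx]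
      exact hx
    have h2 : ContinuousAt (fun x => (Z.localTriv i (F x)).2) x :=
      continuous_snd.continuousAt.comp (h1.comp F.continuous.continuousAt)
    have h3 := h2.preimage_mem_nhds (show ({(Z.localTriv i (F x)).2} : Set G) ∈ 𝓝 _ from by
      rw [nhds_discrete]; exact mem_pure.mpr rfl)
    exact h3
  · intro x i j hi hj
    have key : ∀ y : Z.TotalSpace, y.1 = x → (Z.localTriv j y).2 = c x i j * (Z.localTriv i y).2 := by
      rintro ⟨y, g⟩ hy
      have hy' : y = x := hy
      subst hy'
      change G at g
      show c y (idx y) j * g = c y i j * (c y (idx y) i * g)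
      rw [← mul_assoc, hc y (idx y) i j (hidx y) hi hj]
    exact key (F x) (hFx x)

end Pool.CX
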