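import Pool.Agent.Work.MP_727c87_cx.E2.Interface

/-!
# Part (E2), block Dist: the coarse distance bounds the distance of `X` from above
-/

set_option autoImplicit false

namespace Pool.CX

namespace DistB

open Set Topology Manifold Bundle Filter
open scoped Manifold ContDiff ENNReal NNReal unitInterval
open Pool.Agent.Work.MP_bc4532_gt (ClosedRiemannianManifold)
open UW727 (RiemannianUniversalCover)

variable {Mo : Model} {M : ClosedRiemannianManifold} {c : ℝ≥0} (FC : MetricFlagCover Mo M c)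
  (X : RiemannianUniversalCover M) (Y : XCov Mo FC.toFlagCover X.p)

/-- two points of one sheet over `K f` are at distance at most `c` -/
theorem same_sheet (hL : Stmt_LiftLen) (f : Mo.F) {z z' : X.Pt} (hz : X.p z ∈ FC.K f)
    (hz' : X.p z' ∈ FC.K f) (h : Y.y f z = Y.y f z') : dist z z' ≤ c := by
  obtain ⟨x', h1, h2, h3⟩ := hL M X (FC.U f) c (X.p z) (X.p z') (FC.len f _ hz _ hz') z rfl
  have h4 : Y.y f z = Y.y f x' :=
    (Y.joined f z x' (FC.K_sub f hz) (by rw [h1]; exact FC.K_sub f hz')).2 h3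
  have h5 : x' = z' := Y.inj f x' z' (by rw [h1]; exact FC.K_sub f hz') h1 (h4.symm.trans h)
  rw [← h5]
  exact h2

/-- the point over the anchor in the sheet `y` -/
theorem exists_anc (y : Y.C.Y) : ∃ z, X.p z = FC.anchor (Y.C.p y) ∧ Y.y (Y.C.p y) z = y :=
  Y.surj y (FC.anchor (Y.C.p y)) (FC.K_sub _ (FC.anchor_mem _))

noncomputable def anc (y : Y.C.Y) : X.Pt := (exists_anc FC X Y y).choose

theorem anc_p (y : Y.C.Y) : X.p (anc FC X Y y) = FC.anchor (Y.C.p y) :=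
  (exists_anc FC X Y y).choose_spec.1

theorem anc_y (y : Y.C.Y) : Y.y (Y.C.p y) (anc FC X Y y) = y :=
  (exists_anc FC X Y y).choose_spec.2

theorem anc_memK (y : Y.C.Y) : X.p (anc FC X Y y) ∈ FC.K (Y.C.p y) := by
  rw [anc_p]
  exact FC.anchor_mem _

theorem anc_mem (y : Y.C.Y) : X.p (anc FC X Y y) ∈ FC.U (Y.C.p y) :=
  FC.K_sub _ (anc_memK FC X Y y)

theorem anc_a (y : Y.C.Y) : anc FC X Y (Y.C.a y) = anc FC X Y y := by
  have h1 : X.p (anc FC X Y y) ∈ FC.U (Mo.fa (Y.C.p y)) := by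
    rw [anc_p, ← FC.anchor_a]
    exact FC.K_sub _ (FC.anchor_mem _)
  have h2 : Y.y (Mo.fa (Y.C.p y)) (anc FC X Y y) = Y.C.a y := by
    rw [Y.y_a _ _ (anc_mem FC X Y y) h1, anc_y]
  have h3 : Y.C.p (Y.C.a y) = Mo.fa (Y.C.p y) := Y.C.p_a y
  have h4 := anc_y FC X Y (Y.C.a y)
  rw [h3] at h4
  have h5 : X.p (anc FC X Y (Y.C.a y)) ∈ FC.U (Mo.fa (Y.C.p y)) := by
    have := anc_mem FC X Y (Y.C.a y)
    rwa [h3] at this
  refine Y.inj (Mo.fa (Y.C.p y)) _ _ h5 ?_ (h4.trans h2.symm)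
  rw [anc_p, anc_p, h3, FC.anchor_a]

/-- over a non-defect chamber all the anchors of the flags of one chamber are joined -/
theorem joined_centre (y : Y.C.Y) (hD : (Y.C.p y).1 ∉ Mo.D) :
    ∃ x : X.Pt, ∀ n : ℕ, JoinedIn (X.p ⁻¹' FC.V (Y.C.p y).1) (anc FC X Y ((Y.C.r ^ n) y)) x := by
  obtain ⟨m, hm⟩ := FC.centre (Y.C.p y).1 hD
  obtain ⟨x, hx1, hx2⟩ := Y.surj y m (hm (Y.C.p y).2)
  have hy : ∀ n : ℕ, Y.y (Y.C.p ((Y.C.r ^ n) y)) x = (Y.C.r ^ n) y := by
    intro n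
    induction n with
    | zero => simpa using hx2
    | succ n ih =>
      have e : (Y.C.r ^ (n + 1)) y = Y.C.r ((Y.C.r ^ n) y) := by
        rw [pow_succ', Equiv.Perm.mul_apply]
      have h1 : ∀ k : ℕ, X.p x ∈ FC.U (Y.C.p ((Y.C.r ^ k) y)) := by
        intro k
        rw [hx1, Cov.p_pow]
        exact hm _
      have h2 := Y.y_r (Y.C.p ((Y.C.r ^ n) y)) x (h1 n) (by
        have := h1 (n + 1)
        rw [e, Y.C.p_r] at this
        exact this)
      rw [e, Y.C.p_r, h2, ih]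
  refine ⟨x, fun n => ?_⟩
  have hf : (Y.C.p ((Y.C.r ^ n) y)).1 = (Y.C.p y).1 := Cov.p_pow_fst Y.C n y
  have h1 : X.p x ∈ FC.U (Y.C.p ((Y.C.r ^ n) y)) := by
    rw [hx1, Cov.p_pow]
    exact hm _
  have h2 := (Y.joined (Y.C.p ((Y.C.r ^ n) y)) (anc FC X Y ((Y.C.r ^ n) y)) x
    (anc_mem FC X Y _) h1).1 (by rw [anc_y, hy])
  refine h2.mono fun w hw => ?_
  have h3 := FC.sub (Y.C.p ((Y.C.r ^ n) y)) (by rw [hf]; exact hD) hw
  rw [hf] at h3
  exact h3

theorem anc_m (hS : Stmt_Sheets) (hL : Stmt_LiftLen) (y : Y.C.Y) (hD : (Y.C.p y).1 ∉ Mo.D) :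
    dist (anc FC X Y y) (anc FC X Y (Y.C.m y)) ≤ (c : ℝ) / Fintype.card Mo.F := by
  obtain ⟨x', h1, h2, h3⟩ := hL M X (FC.V (Y.C.p y).1) (c / Fintype.card Mo.F) _ _
    (FC.chord (Y.C.p y) hD) (anc FC X Y y) (anc_p FC X Y y)
  obtain ⟨e, he⟩ := hS X.Pt M.Pt X.p X.isCoveringMap (FC.V (Y.C.p y).1) (FC.nullV _ hD)
  obtain ⟨x, hx⟩ := joined_centre FC X Y y hD
  have h4 : e (anc FC X Y y) = e x' := he.path _ _ h3
  have h5 : e (anc FC X Y y) = e (anc FC X Y (Y.C.m y)) := by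
    have a1 := he.path _ _ (hx 0)
    have a2 := he.path _ _ (hx (Mo.mu (Y.C.p y).1 (Y.C.p y).2 - (Y.C.p y).2).val)
    rw [pow_zero, Equiv.Perm.one_apply] at a1
    exact a1.trans a2.symm
  have h6 : x' = anc FC X Y (Y.C.m y) := by
    refine he.inj _ _ h3.mem.2 ?_ (h4.symm.trans h5)
    rw [h1, anc_p, Cov.p_m]
  rw [← h6]
  refine h2.trans (le_of_eq ?_)
  push_cast
  rfl

theorem arcLe (hS : Stmt_Sheets) (hL : Stmt_LiftLen) {k : ℕ} {y y' : Y.C.Y}
    (h : ArcLe Y.C k y y') :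
    dist (anc FC X Y y) (anc FC X Y y') ≤ k * ((c : ℝ) / Fintype.card Mo.F) := by
  induction h with
  | refl => simp
  | a _ ih =>
    rw [anc_a]
    exact ih
  | @m k u u' _ hD ih =>
    refine (dist_triangle _ (anc FC X Y u') _).trans ?_
    push_cast
    rw [add_mul, one_mul]
    exact add_le_add (by assumption) (anc_m FC X Y hS hL u' (by assumption))

theorem sameArc (hS : Stmt_Sheets) (hA : Stmt_Arc) (hL : Stmt_LiftLen) {y y' : Y.C.Y}
    (h : Y.C.SameArc y y') : dist (anc FC X Y y) (anc FC X Y y') ≤ c := by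
  obtain ⟨k, hk, hk2⟩ := hA Mo Y.C y y' h
  refine (arcLe FC X Y hS hL hk2).trans ?_
  have hcard : (0 : ℝ) < Fintype.card Mo.F := by
    have : 0 < Fintype.card Mo.F := Fintype.card_pos
    exact_mod_cast this
  have hk' : (k : ℝ) ≤ Fintype.card Mo.F := by exact_mod_cast hk
  calc (k : ℝ) * ((c : ℝ) / Fintype.card Mo.F) ≤ (Fintype.card Mo.F : ℝ) * ((c : ℝ) / Fintype.card Mo.F) :=
        mul_le_mul_of_nonneg_right hk' (by positivity)
    _ = c := by field_simp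

theorem anc_r (hL : Stmt_LiftLen) (y : Y.C.Y) :
    dist (anc FC X Y y) (anc FC X Y (Y.C.r y)) ≤ c := by
  have hp : Y.C.p (Y.C.r y) = Mo.fr (Y.C.p y) := Y.C.p_r y
  have hK : X.p (anc FC X Y (Y.C.r y)) ∈ FC.K (Y.C.p y) := by
    rw [anc_p, hp]
    exact FC.anchor_r _
  refine same_sheet FC X Y hL (Y.C.p y) (anc_memK FC X Y y) hK ?_
  rw [anc_y]
  have h1 := anc_mem FC X Y (Y.C.r y)
  have h2 := anc_y FC X Y (Y.C.r y)
  rw [hp] at h1 h2
  have h3 := Y.y_r (Y.C.p y) (anc FC X Y (Y.C.r y)) (FC.K_sub _ hK) h1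
  rw [h2] at h3
  exact Y.C.r.injective h3

theorem step (hS : Stmt_Sheets) (hA : Stmt_Arc) (hL : Stmt_LiftLen) {y y' : Y.C.Y}
    (h : Y.C.Step y y') : dist (anc FC X Y y) (anc FC X Y y') ≤ c := by
  rcases h with rfl | rfl | rfl | h
  · simp
  · exact anc_r FC X Y hL y
  · rw [dist_comm]
    exact anc_r FC X Y hL y'
  · exact sameArc FC X Y hS hA hL h

theorem dle (hS : Stmt_Sheets) (hA : Stmt_Arc) (hL : Stmt_LiftLen) {k : ℕ} {y y' : Y.C.Y}
    (h : Y.C.Dle k y y') : dist (anc FC X Y y) (anc FC X Y y') ≤ k * c := by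
  induction k generalizing y' with
  | zero =>
    have : y = y' := h
    rw [this]
    simp
  | succ k ih =>
    obtain ⟨w, h1, h2⟩ := h
    refine (dist_triangle _ (anc FC X Y w) _).trans ?_
    push_cast
    rw [add_mul, one_mul]
    exact add_le_add (ih h1) (step FC X Y hS hA hL h2)

theorem near_anc (hL : Stmt_LiftLen) (f : Mo.F) (z : X.Pt) (hz : X.p z ∈ FC.K f) :
    dist z (anc FC X Y (Y.y f z)) ≤ c := by
  have hp := Y.p_y f z (FC.K_sub f hz)
  refine same_sheet FC X Y hL f hz ?_ ?_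
  · have := anc_memK FC X Y (Y.y f z)
    rwa [hp] at this
  · have := anc_y FC X Y (Y.y f z)
    rw [hp] at this
    exact this.symm

end DistB

open DistB in
theorem stmt_Dist (hS : Stmt_Sheets) (hA : Stmt_Arc) (hL : Stmt_LiftLen) : Stmt_Dist := by
  intro Mo M c FC X Y k f f' z z' hz hz' h
  have h1 := near_anc FC X Y hL f z hz
  have h2 := near_anc FC X Y hL f' z' hz'
  have h3 := dle FC X Y hS hA hL h
  have h4 := dist_triangle4 z (anc FC X Y (Y.y f z)) (anc FC X Y (Y.y f' z')) z'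
  rw [dist_comm z' _] at h2
  have h5 : (0 : ℝ) ≤ c := c.2
  have h6 : (0 : ℝ) ≤ k * c := by positivity
  nlinarith

end Pool.CX
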