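import Pool.Agent.Work.MP_727c87_cx.E2.Interface

set_option autoImplicit false

/-! # Part (E2), block Final (helper50) -/

namespace Pool.CX

open Set Topology Manifold Bundle Filter
open scoped Manifold ContDiff ENNReal NNReal unitInterval
open Pool.Agent.Work.MP_bc4532_gt (ClosedRiemannianManifold)
open UW727 (RiemannianUniversalCover)

namespace Fin2

theorem step_of_elem {Mo : Model} {C : Cov Mo} {y y' : C.Y} (h : C.Elem y y') : C.Step y y' := by
  rcases h with rfl | rfl | rfl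
  · exact Or.inr (Or.inr (Or.inr (Relation.EqvGen.rel _ _ (Or.inl rfl))))
  · exact Or.inr (Or.inl rfl)
  · exact Or.inr (Or.inr (Or.inl (by simp)))

theorem dle_trans {Mo : Model} {C : Cov Mo} {k : ℕ} {y z : C.Y} (h : C.Dle k y z) :
    ∀ (l : ℕ) {w : C.Y}, C.Dle l z w → C.Dle (k + l) y w
  | 0, w, hw => by
    change z = w at hw
    rw [← hw]
    exact h
  | l + 1, w, hw => by
    obtain ⟨v, hv, hs⟩ := hw
    exact ⟨v, dle_trans h l hv, hs⟩

theorem dle_succ {Mo : Model} {C : Cov Mo} {k : ℕ} {y z : C.Y} (h : C.Dle k y z) : C.Dle (k + 1) y z :=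
  ⟨z, h, Or.inl rfl⟩

theorem dle_mono {Mo : Model} {C : Cov Mo} {k l : ℕ} {y z : C.Y} (h : C.Dle k y z) (hkl : k ≤ l) : C.Dle l y z := by
  induction hkl with
  | refl => exact h
  | step _ ih => exact dle_succ ih

theorem dle_chain {Mo : Model} {C : Cov Mo} (u : ℕ → C.Y) :
    ∀ n : ℕ, (∀ i < n, C.Elem (u i) (u (i + 1))) → C.Dle n (u 0) (u n)
  | 0, _ => rfl
  | n + 1, h => ⟨u n, dle_chain u n fun i hi => h i (hi.trans (Nat.lt_succ_self n)),
      step_of_elem (h n (Nat.lt_succ_self n))⟩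

end Fin2

theorem stmt_E2 (hX : Stmt_XCov) (hU : Stmt_XUniv) (hG : Stmt_Geod) (hN : Stmt_Near) (hF : Stmt_Follow)
    (hMB : Stmt_MB) (hD : Stmt_Dist) : Stmt_E2 := by
  intro Mo M c FC b hb X
  obtain ⟨Y⟩ := hX Mo M.Pt FC.toFlagCover X.Pt X.p X.isCoveringMap
  have hB := hb Y.C (hU Mo M c FC X Y)
  have hc : (0 : ℝ) ≤ c := c.2
  have hb0 : (0 : ℝ) ≤ (b : ℝ) := Nat.cast_nonneg b
  set A : ℝ := 3 * (b + 25) * c + 1 with hA
  have hA0 : 0 < A := by positivity
  have hAc : ∀ k : ℕ, k ≤ b + 24 → (3 : ℝ) * (k + 1) * c ≤ A := by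
    intro k hk
    have h1 : (k : ℝ) ≤ b + 24 := by exact_mod_cast hk
    have h2 : (3 : ℝ) * (k + 1) * c ≤ 3 * (b + 25) * c :=
      mul_le_mul_of_nonneg_right (by linarith) hc
    rw [hA]; linarith
  have hmain : UW727.urysohnWidthW 1 X.Pt ≤ ENNReal.ofReal (15 * A) := by
    have : Nonempty X.Pt := inferInstance
    refine hMB X.Pt A hA0 (hG M X).2 ?_
    intro x x'
    obtain ⟨f, hf⟩ := FC.coverK (X.p x)
    obtain ⟨f', hf'⟩ := FC.coverK (X.p x')
    obtain ⟨n, v, hv0, hvn, hvs, hvb⟩ := hB (Y.y f x) (Y.y f' x')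
    have hz : ∀ s : Y.C.Y, ∃ z : X.Pt, X.p z = FC.anchor (Y.C.p s) ∧ Y.y (Y.C.p s) z = s :=
      fun s => Y.surj s _ (FC.K_sub _ (FC.anchor_mem _))
    choose z hz1 hz2 using hz
    have hzK : ∀ s : Y.C.Y, X.p (z s) ∈ FC.K (Y.C.p s) := by
      intro s
      rw [hz1]
      exact FC.anchor_mem _
    -- distances
    have hd0 : ∀ (g : Mo.F) (t : X.Pt), X.p t ∈ FC.K g → dist t (z (Y.y g t)) ≤ A := by
      intro g t ht
      have h1 : Y.C.p (Y.y g t) = g := Y.p_y g t (FC.K_sub _ ht)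
      have h2 := hD Mo M c FC X Y 0 g (Y.C.p (Y.y g t)) t (z (Y.y g t)) ht (hzK _) (hz2 _).symm
      exact h2.trans (hAc 0 (Nat.zero_le _))
    have hd1 : ∀ (k : ℕ) (s : Y.C.Y) (g : Mo.F) (t : X.Pt), k ≤ b + 24 → X.p t ∈ FC.K g →
        Y.C.Dle k s (Y.y g t) → dist (z s) t ≤ A := by
      intro k s g t hk ht h
      have h2 := hD Mo M c FC X Y k (Y.C.p s) g (z s) t (hzK _) ht (by rw [hz2]; exact h)
      exact h2.trans (hAc k hk)
    have hd2 : ∀ (s s' : Y.C.Y), Y.C.Step s s' → dist (z s) (z s') ≤ A := by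
      intro s s' h
      refine hd1 1 s (Y.C.p s') (z s') (by omega) (hzK _) ?_
      rw [hz2]
      exact ⟨s, rfl, h⟩
    refine ⟨n + 2, fun i => if i = 0 then x else if i = n + 2 then x' else z (v (i - 1)), ?_, ?_, ?_, ?_⟩
    · simp
    · simp
    · intro i hi
      dsimp only
      rcases Nat.eq_zero_or_pos i with rfl | hi0
      · rw [if_pos rfl, if_neg (by omega), if_neg (by omega)]
        have h1 := hd0 f x hf
        rw [← hv0] at h1
        exact h1
      · rw [if_neg (by omega), if_neg (by omega), if_neg (by omega)]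
        rcases Nat.eq_or_lt_of_le (Nat.le_of_lt_succ hi) with h1 | h1
        · rw [if_pos (by omega)]
          have h2 := hd0 f' x' hf'
          rw [← hvn, dist_comm] at h2
          have h3 : i - 1 = n := by omega
          rw [h3]
          exact h2
        · rw [if_neg (by omega)]
          have h2 := hd2 _ _ (hvs (i - 1) (by omega))
          have h3 : i - 1 + 1 = i + 1 - 1 := by omega
          rw [h3] at h2
          exact h2
    · intro i hi γ
      dsimp only
      rcases Nat.eq_zero_or_pos i with rfl | hi0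
      · refine ⟨0, ?_⟩
        rw [if_pos rfl, γ.source, dist_self]
        exact hA0.le
      rcases Nat.eq_or_lt_of_le hi with h1 | h1
      · refine ⟨1, ?_⟩
        rw [if_neg (by omega), if_pos h1, γ.target, dist_self]
        exact hA0.le
      rw [if_neg (by omega), if_neg (by omega)]
      obtain ⟨n', u, hu0, hun, hus, hub⟩ := hF Mo M.Pt FC.toFlagCover X.Pt X.p X.isCoveringMap.continuous Y x x' γ
        f f' (FC.K_sub _ hf) (FC.K_sub _ hf')
      obtain ⟨j, hj, hvj⟩ := hvb n' u hu0 hun hus (i - 1) (by omega)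
      obtain ⟨t, g, hg, hgd⟩ := hub j hj
      obtain ⟨g', hg'⟩ := FC.coverK (X.p (γ t))
      have hL : LiftOn Y.C {f | X.p (γ t) ∈ FC.U f} (fun f => Y.y f (γ t)) :=
        { p_y := fun f hf => Y.p_y f _ hf
          y_a := fun f hf hf2 => Y.y_a f _ hf hf2
          y_b := fun f hf hf2 => Y.y_b f _ hf hf2
          y_r := fun f hf hf2 => Y.y_r f _ hf hf2 }
      obtain ⟨k, hk, w, hw0, hwk, hws⟩ := hN Mo Y.C _ _ (FC.near (X.p (γ t))) hL g hg g' (FC.K_sub _ hg')
      have h2 : Y.C.Dle k (Y.y g (γ t)) (Y.y g' (γ t)) := by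
        have h3 := Fin2.dle_chain w k hws
        rw [hw0, hwk] at h3
        exact h3
      refine ⟨t, hd1 (b + 12 + k) _ g' (γ t) (by omega) hg' ?_⟩
      exact Fin2.dle_trans (Fin2.dle_trans hvj 12 hgd) k h2
  refine hmain.trans (ENNReal.ofReal_le_ofReal ?_)
  rw [hA]
  nlinarith [mul_nonneg hb0 hc]

end Pool.CX
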