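import Pool.Agent.Work.MP_727c87_cx.E2.Interface

set_option autoImplicit false

/-! # Part (E2), block Follow: chains of flags along a path -/

namespace Pool.CX

open Set Topology Filter
open scoped unitInterval

namespace Follow

variable {Mo : Model}

theorem step_of_elem {C : Cov Mo} {v w : C.Y} (h : C.Elem v w) : C.Step v w := by
  rcases h with h | h | h
  · exact Or.inr (Or.inr (Or.inr (Relation.EqvGen.rel _ _ (Or.inl h))))
  · exact Or.inr (Or.inl h)
  · refine Or.inr (Or.inr (Or.inl ?_))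
    rw [h, Equiv.apply_symm_apply]

theorem dle_of_chain {C : Cov Mo} {u : ℕ → C.Y} {n : ℕ}
    (hu : ∀ i < n, C.Elem (u i) (u (i + 1))) : ∀ k ≤ n, C.Dle k (u 0) (u k) := by
  intro k
  induction k with
  | zero => intro _; rfl
  | succ k ih => intro hk; exact ⟨u k, ih (by omega), step_of_elem (hu k (by omega))⟩

theorem dle_mono {C : Cov Mo} {v w : C.Y} {k l : ℕ} (h : C.Dle k v w) (hkl : k ≤ l) :
    C.Dle l v w := by
  induction hkl with
  | refl => exact h
  | step _ ih => exact ⟨w, ih, Or.inl rfl⟩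

/-- from any member of a chain of at most 12 moves to its end -/
theorem dle_end {C : Cov Mo} {u : ℕ → C.Y} {n : ℕ} (hn : n ≤ 12)
    (hu : ∀ i < n, C.Elem (u i) (u (i + 1))) (j : ℕ) (hj : j ≤ n) : C.Dle 12 (u j) (u n) := by
  have h := dle_of_chain (C := C) (u := fun i => u (j + i)) (n := n - j)
    (fun i hi => hu (j + i) (by omega)) (n - j) le_rfl
  simp only [add_zero, Nat.add_sub_cancel' hj] at h
  exact dle_mono h (by omega)

variable {M : Type} [TopologicalSpace M] {FC : FlagCover Mo M} {X : Type} [TopologicalSpace X]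
  {p : X → M}

/-- the relation along the path -/
def Rel (Y : XCov Mo FC p) {z z' : X} (γ : Path z z') (t t' : I) : Prop :=
  ∀ f f' : Mo.F, p (γ t) ∈ FC.U f → p (γ t') ∈ FC.U f' →
    ∃ (n : ℕ) (u : ℕ → Y.C.Y), u 0 = Y.y f (γ t) ∧ u n = Y.y f' (γ t') ∧
      (∀ i < n, Y.C.Elem (u i) (u (i + 1))) ∧
      ∀ j ≤ n, ∃ (t : I) (g : Mo.F), p (γ t) ∈ FC.U g ∧ Y.C.Dle 12 (u j) (Y.y g (γ t))

/-- the lifts over one point -/
theorem liftOn (Y : XCov Mo FC p) (x : X) : LiftOn Y.C {f | p x ∈ FC.U f} (fun f => Y.y f x) where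
  p_y f hf := Y.p_y f x hf
  y_a f hf hf' := Y.y_a f x hf hf'
  y_b f hf hf' := Y.y_b f x hf hf'
  y_r f hf hf' := Y.y_r f x hf hf'

theorem concat {Y : XCov Mo FC p} {P : Y.C.Y → Prop} {v w x : Y.C.Y}
    (h1 : ∃ (n : ℕ) (u : ℕ → Y.C.Y), u 0 = v ∧ u n = w ∧
      (∀ i < n, Y.C.Elem (u i) (u (i + 1))) ∧ ∀ j ≤ n, P (u j))
    (h2 : ∃ (n : ℕ) (u : ℕ → Y.C.Y), u 0 = w ∧ u n = x ∧
      (∀ i < n, Y.C.Elem (u i) (u (i + 1))) ∧ ∀ j ≤ n, P (u j)) :
    ∃ (n : ℕ) (u : ℕ → Y.C.Y), u 0 = v ∧ u n = x ∧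
      (∀ i < n, Y.C.Elem (u i) (u (i + 1))) ∧ ∀ j ≤ n, P (u j) := by
  obtain ⟨n, u, hu0, hun, hu, hP⟩ := h1
  obtain ⟨m, u', hu0', hun', hu', hP'⟩ := h2
  refine ⟨n + m, fun i => if i ≤ n then u i else u' (i - n), ?_, ?_, ?_, ?_⟩
  · simp [hu0]
  · by_cases hm : m = 0
    · subst hm
      simp [hun, ← hun', hu0']
    · show (if n + m ≤ n then u (n + m) else u' (n + m - n)) = x
      rw [if_neg (by omega), Nat.add_sub_cancel_left, hun']
  · intro i hi
    by_cases h3 : i + 1 ≤ n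
    · simp only [h3, if_true, if_pos (by omega : i ≤ n)]
      exact hu i (by omega)
    · by_cases h4 : i = n
      · subst h4
        simp only [le_refl, if_true, h3, if_false, hun]
        rw [Nat.add_sub_cancel_left, ← hu0']
        exact hu' 0 (by omega)
      · show Y.C.Elem (if i ≤ n then u i else u' (i - n))
          (if i + 1 ≤ n then u (i + 1) else u' (i + 1 - n))
        rw [if_neg (by omega), if_neg h3]
        have : i + 1 - n = (i - n) + 1 := by omega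
        rw [this]
        exact hu' (i - n) (by omega)
  · intro j hj
    show P (if j ≤ n then u j else u' (j - n))
    split_ifs with h
    · exact hP j h
    · exact hP' (j - n) (by omega)

theorem reverse {Y : XCov Mo FC p} {P : Y.C.Y → Prop} {v w : Y.C.Y}
    (h1 : ∃ (n : ℕ) (u : ℕ → Y.C.Y), u 0 = v ∧ u n = w ∧
      (∀ i < n, Y.C.Elem (u i) (u (i + 1))) ∧ ∀ j ≤ n, P (u j)) :
    ∃ (n : ℕ) (u : ℕ → Y.C.Y), u 0 = w ∧ u n = v ∧
      (∀ i < n, Y.C.Elem (u i) (u (i + 1))) ∧ ∀ j ≤ n, P (u j) := by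
  obtain ⟨n, u, hu0, hun, hu, hP⟩ := h1
  refine ⟨n, fun i => u (n - i), by simp [hun], by simp [hu0], fun i hi => ?_,
    fun j hj => hP _ (by omega)⟩
  have h1 := hu (n - (i + 1)) (by omega)
  rw [show n - (i + 1) + 1 = n - i by omega] at h1
  exact Cov.Elem.symm h1

end Follow

open Follow in
/-- BLOCK Follow -/
theorem stmt_Follow (hN : Stmt_Near) : Stmt_Follow := by
  intro Mo M _ FC X _ p hp Y z z' γ f f' hf hf'
  -- chains at one time
  have hpt : ∀ t : I, ∀ f g : Mo.F, p (γ t) ∈ FC.U f → p (γ t) ∈ FC.U g →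
      ∃ (n : ℕ) (u : ℕ → Y.C.Y), u 0 = Y.y f (γ t) ∧ u n = Y.y g (γ t) ∧
      (∀ i < n, Y.C.Elem (u i) (u (i + 1))) ∧
      ∀ j ≤ n, ∃ (t : I) (g : Mo.F), p (γ t) ∈ FC.U g ∧ Y.C.Dle 12 (u j) (Y.y g (γ t)) := by
    intro t f g hf hg
    obtain ⟨n, hn, u, h0, h1, h2⟩ := hN Mo Y.C {f | p (γ t) ∈ FC.U f} (fun f => Y.y f (γ t))
      (FC.near _) (liftOn Y (γ t)) f hf g hg
    refine ⟨n, u, h0, h1, h2, fun j hj => ⟨t, g, hg, ?_⟩⟩
    rw [← h1]
    exact dle_end hn h2 j hj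
  have hsymm : ∀ t t', Rel Y γ t t' → Rel Y γ t' t := fun t t' h f f' hf hf' =>
    reverse (P := fun v => ∃ (t : I) (g : Mo.F), p (γ t) ∈ FC.U g ∧ Y.C.Dle 12 v (Y.y g (γ t)))
      (h f' f hf' hf)
  have htrans : ∀ t t' t'', Rel Y γ t t' → Rel Y γ t' t'' → Rel Y γ t t'' := by
    intro t t' t'' h1 h2 f f'' hf hf''
    obtain ⟨f', hf'⟩ := FC.cover (p (γ t'))
    exact concat (P := fun v => ∃ (t : I) (g : Mo.F), p (γ t) ∈ FC.U g ∧
      Y.C.Dle 12 v (Y.y g (γ t))) (h1 f f' hf hf') (h2 f' f'' hf' hf'')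
  have hloc : ∀ t : I, ∀ᶠ t' in 𝓝 t, Rel Y γ t t' := by
    intro t
    obtain ⟨g, hg⟩ := FC.cover (p (γ t))
    have hopen : IsOpen ((fun t => p (γ t)) ⁻¹' FC.U g) :=
      (FC.isOpen_U g).preimage (hp.comp γ.continuous)
    obtain ⟨ε, hε, hball⟩ := Metric.isOpen_iff.1 hopen t hg
    filter_upwards [Metric.ball_mem_nhds t hε] with t' ht'
    -- the path between `t` and `t'`
    have hj : JoinedIn (p ⁻¹' FC.U g) (γ t) (γ t') := by
      refine ⟨γ.subpath t t', fun s => ?_⟩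
      have hs : γ.subpath t t' s ∈ Set.range (γ.subpath t t') := ⟨s, rfl⟩
      rw [Path.range_subpath] at hs
      obtain ⟨r, hr, hr'⟩ := hs
      rw [← hr']
      refine hball ?_
      rw [Metric.mem_ball] at ht' ⊢
      refine lt_of_le_of_lt ?_ ht'
      rw [Subtype.dist_eq, Subtype.dist_eq, Real.dist_eq, Real.dist_eq]
      have h1 : (r : ℝ) ∈ Set.uIcc (t : ℝ) (t' : ℝ) := by
        rw [Set.mem_uIcc] at hr ⊢
        exact hr
      rw [Set.mem_uIcc] at h1
      rcases h1 with h1 | h1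
      · rw [abs_of_nonneg (by linarith), abs_of_nonneg (by linarith)]
        linarith
      · rw [abs_of_nonpos (by linarith), abs_of_nonpos (by linarith)]
        linarith
    have hg' : p (γ t') ∈ FC.U g := hj.target_mem
    have heq : Y.y g (γ t) = Y.y g (γ t') := (Y.joined g _ _ hg hg').2 hj
    intro f f' hf hf'
    have h1 := hpt t f g hf hg
    have h2 := hpt t' g f' hg' hf'
    rw [heq] at h1
    exact concat (P := fun v => ∃ (t : I) (g : Mo.F), p (γ t) ∈ FC.U g ∧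
      Y.C.Dle 12 v (Y.y g (γ t))) h1 h2
  have hall : Rel Y γ 0 1 := by
    have : IsPreconnected (Set.univ : Set I) := isPreconnected_univ
    refine this.induction₂ (Rel Y γ) (fun x _ => ?_) (fun x y z _ _ _ => htrans x y z)
      (fun x y _ _ => hsymm x y) (mem_univ 0) (mem_univ 1)
    rw [nhdsWithin_univ]
    exact hloc x
  have h := hall f f' (by rw [γ.source]; exact hf) (by rw [γ.target]; exact hf')
  rw [γ.source, γ.target] at h
  exact h

end Pool.CX
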