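import Pool.Agent.Work.MP_727c87_cx.E2.Geo

set_option autoImplicit false

/-! # Block GE0: `SS` is path connected (helper93) -/

open Set Topology Complex ComplexConjugate
open scoped ContDiff NNReal unitInterval

noncomputable section

namespace Pool.CX

/-- neighbouring charts meet -/
theorem GE0.meet (hG6 : Stmt_G6) (hC1 : Stmt_C1) (hCO : Stmt_CO) (h3 : Stmt_GE3) (Mo : Model)
    (g : Mo.Q) (i : ZMod 12) : ∃ p : Mo.SS, p ∈ Over Mo g univ ∧ p ∈ Over Mo (Mo.L.τ i g) univ := by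
  obtain ⟨hmp, -, hR, hm3⟩ := hCO.1 i
  have hPP : mid i ∈ PPo := hG6.2.2.2.1 hmp
  have hLoc : (mid i, (1 : ℂ)) ∈ Loc (g ∈ Mo.D) := by
    refine ⟨hPP, fun _ => by simp, fun _ => ⟨?_, ?_⟩⟩
    · simp only
      nlinarith [norm_nonneg (mid i)]
    · simp only
      rw [hC1.2.2.2.1 _ (by linarith)]
      simp
  obtain ⟨-, -, hn, -⟩ := h3 Mo
  have hmv : mv (some (i, false)) (mid i) = mid i := hR
  obtain ⟨h4, h5⟩ := hn g (mid i) 1 (some (i, false)) hLoc (by rw [hmv]; exact hPP)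
  rw [hmv] at h4 h5
  refine ⟨⟨Psi Mo.L g (mid i) 1, g, mid i, 1, hLoc, rfl⟩, ⟨mid i, 1, hLoc, mem_univ _, rfl⟩,
    ⟨mid i, 1, h4, mem_univ _, h5.symm⟩⟩

/-- Block GE0 -/
theorem stmt_GE0 (hG6 : Stmt_G6) (hC1 : Stmt_C1) (hCO : Stmt_CO) (h3 : Stmt_GE3) (h6 : Stmt_GE6) :
    Stmt_GE0 := by
  intro Mo
  obtain ⟨-, -, hpc⟩ := h6 Mo
  have key : ∀ (l : List (ZMod 12)) (g g' : Mo.Q), act Mo.L g l = g' → ∀ p p' : Mo.SS,
      p ∈ Over Mo g univ → p' ∈ Over Mo g' univ → Joined p p' := by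
    intro l
    induction l with
    | nil =>
      intro g g' h p p' hp hp'
      have h : g = g' := h
      subst h
      exact ((hpc g).joinedIn p hp p' hp').joined
    | cons i l ih =>
      intro g g' h p p' hp hp'
      obtain ⟨m, hm, hm'⟩ := GE0.meet hG6 hC1 hCO h3 Mo g i
      have h1 : Joined p m := ((hpc g).joinedIn p hp m hm).joined
      exact h1.trans (ih (Mo.L.τ i g) g' h m p' hm' hp')
  refine ⟨?_, ?_⟩
  · obtain ⟨q⟩ := Mo.nonempty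
    obtain ⟨p, -⟩ := (hpc q).nonempty
    exact ⟨p⟩
  · rintro ⟨p, g, u, v, h, hp⟩ ⟨p', g', u', v', h', hp'⟩
    obtain ⟨l, hl⟩ := Mo.conn g g'
    exact key l g g' hl _ _ ⟨u, v, h, mem_univ _, hp⟩ ⟨u', v', h', mem_univ _, hp'⟩

end Pool.CX
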