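import Pool.Agent.Work.MP_727c87_cx.E2.Geo

set_option autoImplicit false

/-! # Block GE1 of part (E2): the sectors -/

open Set Topology Complex ComplexConjugate

noncomputable section

namespace Pool.CX

namespace GE1

theorem ctr_add (i j : ZMod 12) : ctr (i + j) = ctr i * ctr j := by
  unfold ctr
  exact AddChar.map_add_eq_mul _ i j

theorem ctr_zero : ctr 0 = 1 := by
  unfold ctr
  exact AddChar.map_zero_eq_one _

/-- the table of the directions -/
theorem table (hG1 : Stmt_G1) :
    ctr 0 = ⟨1, 0⟩ ∧ ctr 1 = ⟨√3 / 2, 1 / 2⟩ ∧ ctr 2 = ⟨1 / 2, √3 / 2⟩ ∧ ctr 3 = ⟨0, 1⟩ ∧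
    ctr 4 = ⟨-(1 / 2), √3 / 2⟩ ∧ ctr 5 = ⟨-(√3 / 2), 1 / 2⟩ ∧ ctr 6 = ⟨-1, 0⟩ ∧
    ctr 7 = ⟨-(√3 / 2), -(1 / 2)⟩ ∧ ctr 8 = ⟨-(1 / 2), -(√3 / 2)⟩ ∧ ctr 9 = ⟨0, -1⟩ ∧
    ctr 10 = ⟨1 / 2, -(√3 / 2)⟩ ∧ ctr 11 = ⟨√3 / 2, -(1 / 2)⟩ := by
  have h3 : √3 * √3 = 3 := Real.mul_self_sqrt (by norm_num)
  have c0 : ctr 0 = ⟨1, 0⟩ := by rw [ctr_zero]; rfl
  have c1 : ctr 1 = ⟨√3 / 2, 1 / 2⟩ := by
    have h1 := hG1.2.1 0
    have h2 := hG1.2.2.1 0
    rw [zero_add, ctr_zero] at h1 h2
    simp at h1 h2
    apply Complex.ext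
    · simpa using h1
    · simpa using h2
  have step : ∀ (k : ZMod 12) (a b : ℝ), ctr k = ⟨a, b⟩ →
      ctr (k + 1) = ⟨a * (√3 / 2) - b * (1 / 2), a * (1 / 2) + b * (√3 / 2)⟩ := by
    intro k a b h
    rw [ctr_add, h, c1]
    apply Complex.ext <;> simp
  have c2 : ctr 2 = ⟨1 / 2, √3 / 2⟩ := by
    have h := step 1 _ _ c1
    rw [show (1 : ZMod 12) + 1 = 2 from rfl] at h
    rw [h]; apply Complex.ext <;> dsimp only <;> linarith
  have c3 : ctr 3 = ⟨0, 1⟩ := by
    have h := step 2 _ _ c2
    rw [show (2 : ZMod 12) + 1 = 3 from rfl] at h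
    rw [h]; apply Complex.ext <;> dsimp only <;> linarith
  have c4 : ctr 4 = ⟨-(1 / 2), √3 / 2⟩ := by
    have h := step 3 _ _ c3
    rw [show (3 : ZMod 12) + 1 = 4 from rfl] at h
    rw [h]; apply Complex.ext <;> dsimp only <;> linarith
  have c5 : ctr 5 = ⟨-(√3 / 2), 1 / 2⟩ := by
    have h := step 4 _ _ c4
    rw [show (4 : ZMod 12) + 1 = 5 from rfl] at h
    rw [h]; apply Complex.ext <;> dsimp only <;> linarith
  have c6 : ctr 6 = ⟨-1, 0⟩ := by
    have h := step 5 _ _ c5
    rw [show (5 : ZMod 12) + 1 = 6 from rfl] at h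
    rw [h]; apply Complex.ext <;> dsimp only <;> linarith
  have c7 : ctr 7 = ⟨-(√3 / 2), -(1 / 2)⟩ := by
    have h := step 6 _ _ c6
    rw [show (6 : ZMod 12) + 1 = 7 from rfl] at h
    rw [h]; apply Complex.ext <;> dsimp only <;> linarith
  have c8 : ctr 8 = ⟨-(1 / 2), -(√3 / 2)⟩ := by
    have h := step 7 _ _ c7
    rw [show (7 : ZMod 12) + 1 = 8 from rfl] at h
    rw [h]; apply Complex.ext <;> dsimp only <;> linarith
  have c9 : ctr 9 = ⟨0, -1⟩ := by
    have h := step 8 _ _ c8
    rw [show (8 : ZMod 12) + 1 = 9 from rfl] at h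
    rw [h]; apply Complex.ext <;> dsimp only <;> linarith
  have c10 : ctr 10 = ⟨1 / 2, -(√3 / 2)⟩ := by
    have h := step 9 _ _ c9
    rw [show (9 : ZMod 12) + 1 = 10 from rfl] at h
    rw [h]; apply Complex.ext <;> dsimp only <;> linarith
  have c11 : ctr 11 = ⟨√3 / 2, -(1 / 2)⟩ := by
    have h := step 10 _ _ c10
    rw [show (10 : ZMod 12) + 1 = 11 from rfl] at h
    rw [h]; apply Complex.ext <;> dsimp only <;> linarith
  exact ⟨c0, c1, c2, c3, c4, c5, c6, c7, c8, c9, c10, c11⟩

theorem s_bounds : 0.866 < √3 / 2 ∧ √3 / 2 < 0.8661 := by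
  have h1 : (1.732 : ℝ) < √3 := by
    rw [Real.lt_sqrt (by norm_num)]; norm_num
  have h2 : √3 < (1.7322 : ℝ) := by
    rw [Real.sqrt_lt' (by norm_num)]; norm_num
  constructor <;> linarith

theorem mem_sect {w : ℂ} (hw : 1 ≤ ‖w‖) (k : ZMod 12) : w ∈ sect k ↔
    (-(1 / 10) < w.im * (ctr k).re - w.re * (ctr k).im ∧
      -(1 / 10) < w.re * (ctr (k + 1)).im - w.im * (ctr (k + 1)).re ∧
      0 < w.re * ((ctr k).re + (ctr (k + 1)).re) + w.im * ((ctr k).im + (ctr (k + 1)).im)) := by
  have e1 : (w * conj (ctr k)).im = w.im * (ctr k).re - w.re * (ctr k).im := by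
    simp [Complex.mul_im]; ring
  have e2 : (ctr (k + 1) * conj w).im = w.re * (ctr (k + 1)).im - w.im * (ctr (k + 1)).re := by
    simp [Complex.mul_im]; ring
  have e3 : (w * conj (mdir k)).re =
      w.re * ((ctr k).re + (ctr (k + 1)).re) + w.im * ((ctr k).im + (ctr (k + 1)).im) := by
    simp [mdir, Complex.mul_re]; ring
  rw [sect, mem_ofPred_eq, e1, e2, e3]
  constructor
  · rintro (h | h)
    · exact absurd h (not_lt.mpr hw)
    · exact h
  · exact Or.inr

/-- rotation -/
theorem norm_rot (hG1 : Stmt_G1) (i : ZMod 12) (u : ℂ) : ‖u * conj (ctr i)‖ = ‖u‖ := by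
  rw [norm_mul, Complex.norm_conj, hG1.1 i, mul_one]

theorem rot_sect (hG1 : Stmt_G1) (i k : ZMod 12) (u : ℂ) :
    u ∈ sect (i + k) ↔ u * conj (ctr i) ∈ sect k := by
  have e1 : u * conj (ctr (i + k)) = u * conj (ctr i) * conj (ctr k) := by
    rw [ctr_add, map_mul]; ring
  have e2 : ctr (i + k + 1) * conj u = ctr (k + 1) * conj (u * conj (ctr i)) := by
    rw [add_assoc, ctr_add, map_mul, Complex.conj_conj]; ring
  have e3 : u * conj (mdir (i + k)) = u * conj (ctr i) * conj (mdir k) := by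
    unfold mdir
    rw [add_assoc, ctr_add, ctr_add i (k + 1), map_add, map_add, map_mul, map_mul]; ring
  rw [sect, sect, mem_ofPred_eq, mem_ofPred_eq, norm_rot hG1, e1, e2, e3]

theorem rot_lv (hG1 : Stmt_G1) (i k : ZMod 12) (u : ℂ) :
    lv (i + k) u = lv k (u * conj (ctr i)) := by
  have e1 : u * conj (ctr (i + k)) = u * conj (ctr i) * conj (ctr k) := by
    rw [ctr_add, map_mul]; ring
  unfold lv
  rw [norm_rot hG1, e1]

theorem lv_eq (k : ZMod 12) (w : ℂ) :
    lv k w = √(1 + ‖w‖ ^ 2) - (w.re * (ctr k).re + w.im * (ctr k).im) / rho := by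
  unfold lv
  simp [Complex.mul_re]

theorem all12 (k : ZMod 12) : k = 0 ∨ k = 1 ∨ k = 2 ∨ k = 3 ∨ k = 4 ∨ k = 5 ∨ k = 6 ∨ k = 7 ∨
    k = 8 ∨ k = 9 ∨ k = 10 ∨ k = 11 := by
  revert k
  decide

/-- the sectors in a cone around the direction `0` -/
theorem far (hG1 : Stmt_G1) {w : ℂ} (hw : 1 ≤ ‖w‖) (hX : 8 / 10 ≤ w.re) (h1 : -(3 / 10) * w.re ≤ w.im)
    (h2 : w.im ≤ 6 / 10 * w.re) (k : ZMod 12) (hk : w ∈ sect k) : k = 11 ∨ k = 0 ∨ k = 1 := by
  obtain ⟨c0, c1, c2, c3, c4, c5, c6, c7, c8, c9, c10, c11⟩ := table hG1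
  obtain ⟨s1, s2⟩ := s_bounds
  rw [mem_sect hw] at hk
  obtain ⟨hA, hB, hC⟩ := hk
  set X := w.re with hXdef
  set Y := w.im with hYdef
  set s := √3 / 2 with hs
  rcases all12 k with rfl | rfl | rfl | rfl | rfl | rfl | rfl | rfl | rfl | rfl | rfl | rfl
  · exact Or.inr (Or.inl rfl)
  · exact Or.inr (Or.inr rfl)
  · exfalso
    rw [c2] at hA
    dsimp only at hA
    nlinarith
  · exfalso
    rw [c3] at hA
    dsimp only at hA
    nlinarith
  · exfalso
    rw [c4] at hA
    dsimp only at hA
    nlinarith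
  · exfalso
    rw [show (5 : ZMod 12) + 1 = 6 from rfl, c5, c6] at hC
    dsimp only at hC
    nlinarith
  · exfalso
    rw [show (6 : ZMod 12) + 1 = 7 from rfl, c6, c7] at hC
    dsimp only at hC
    nlinarith
  · exfalso
    rw [show (7 : ZMod 12) + 1 = 8 from rfl, c7, c8] at hC
    dsimp only at hC
    nlinarith
  · exfalso
    rw [show (8 : ZMod 12) + 1 = 9 from rfl, c9] at hB
    dsimp only at hB
    nlinarith
  · exfalso
    rw [show (9 : ZMod 12) + 1 = 10 from rfl, c10] at hB
    dsimp only at hB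
    nlinarith
  · exfalso
    rw [show (10 : ZMod 12) + 1 = 11 from rfl, c11] at hB
    dsimp only at hB
    nlinarith
  · exact Or.inl rfl

theorem sect0 (hG1 : Stmt_G1) {w : ℂ} (hw : 1 ≤ ‖w‖) (hX : 8 / 10 ≤ w.re) (h1 : -(3 / 10) * w.re ≤ w.im)
    (h2 : w.im ≤ 6 / 10 * w.re) :
    (w ∈ sect 0 ↔ -(1 / 10) < w.im ∧ -(1 / 10) < w.re / 2 - √3 / 2 * w.im) ∧
    (w ∈ sect 1 ↔ w.re / 2 - √3 / 2 * w.im < 1 / 10) ∧ (w ∈ sect 11 ↔ w.im < 1 / 10) := by
  obtain ⟨c0, c1, c2, c3, c4, c5, c6, c7, c8, c9, c10, c11⟩ := table hG1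
  obtain ⟨s1, s2⟩ := s_bounds
  rw [mem_sect hw, mem_sect hw, mem_sect hw, show (0 : ZMod 12) + 1 = 1 from rfl,
    show (1 : ZMod 12) + 1 = 2 from rfl, show (11 : ZMod 12) + 1 = 0 from rfl, c0, c1, c2, c11]
  dsimp only
  set X := w.re with hXdef
  set Y := w.im with hYdef
  set s := √3 / 2 with hs
  refine ⟨⟨?_, ?_⟩, ⟨?_, ?_⟩, ⟨?_, ?_⟩⟩
  · rintro ⟨hA, hB, hC⟩
    constructor <;> linarith
  · rintro ⟨hA, hB⟩
    refine ⟨by linarith, by linarith, by nlinarith⟩
  · rintro ⟨hA, hB, hC⟩
    linarith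
  · intro hA
    refine ⟨by linarith, by nlinarith, by nlinarith⟩
  · rintro ⟨hA, hB, hC⟩
    linarith
  · intro hA
    refine ⟨by nlinarith, by linarith, by nlinarith⟩

/-- near the side `0`: the position of the point -/
theorem near0 (hG1 : Stmt_G1) {w : ℂ} (h : ∀ k, -(1 / 100) < lv k w) (h0 : lv 0 w < 1 / 100) :
    1 ≤ ‖w‖ ∧ 24 / 10 < w.re ∧ -(3 / 10) * w.re ≤ w.im ∧ w.im ≤ 3 / 10 * w.re := by
  obtain ⟨c0, c1, c2, c3, c4, c5, c6, c7, c8, c9, c10, c11⟩ := table hG1
  obtain ⟨s1, s2⟩ := s_bounds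
  have hr2 : rho * rho = √3 / 2 := Real.mul_self_sqrt (by positivity)
  have hr0 : 0 < rho := Real.sqrt_pos.mpr (by positivity)
  have hr1 : rho < 0.94 := by nlinarith
  have hsq : ‖w‖ ^ 2 = w.re * w.re + w.im * w.im := by
    rw [← Complex.normSq_eq_norm_sq, Complex.normSq_apply]
  have hh : √(1 + ‖w‖ ^ 2) * √(1 + ‖w‖ ^ 2) = 1 + (w.re * w.re + w.im * w.im) := by
    rw [Real.mul_self_sqrt (by positivity), hsq]
  have hp : 0 < √(1 + ‖w‖ ^ 2) := Real.sqrt_pos.mpr (by positivity)
  have k1 := h 1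
  have k11 := h 11
  rw [lv_eq, c1] at k1
  rw [lv_eq, c11] at k11
  rw [lv_eq, c0] at h0
  dsimp only at k1 k11 h0
  have a0 : √(1 + ‖w‖ ^ 2) * rho < w.re + rho / 100 := by
    have : √(1 + ‖w‖ ^ 2) < 1 / 100 + (w.re * 1 + w.im * 0) / rho := by linarith
    have h2 := mul_lt_mul_of_pos_right this hr0
    rw [add_mul, div_mul_cancel₀ _ hr0.ne'] at h2
    linarith
  have a1 : w.re * (√3 / 2) + w.im * (1 / 2) < √(1 + ‖w‖ ^ 2) * rho + rho / 100 := by
    have : (w.re * (√3 / 2) + w.im * (1 / 2)) / rho < √(1 + ‖w‖ ^ 2) + 1 / 100 := by linarith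
    rw [div_lt_iff₀ hr0] at this
    linarith
  have a11 : w.re * (√3 / 2) - w.im * (1 / 2) < √(1 + ‖w‖ ^ 2) * rho + rho / 100 := by
    have : (w.re * (√3 / 2) + w.im * (-(1 / 2))) / rho < √(1 + ‖w‖ ^ 2) + 1 / 100 := by linarith
    rw [div_lt_iff₀ hr0] at this
    linarith
  set X := w.re with hXdef
  set Y := w.im with hYdef
  set s := √3 / 2 with hs
  set H := √(1 + ‖w‖ ^ 2) with hH
  have hpos : 0 < H * rho := mul_pos hp hr0
  have hX1 : -0.0094 < X := by linarith
  have sq1 : (H * rho) * (H * rho) < (X + rho / 100) * (X + rho / 100) := by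
    apply mul_self_lt_mul_self hpos.le a0
  have sq2 : (H * rho) * (H * rho) = s * (1 + (X * X + Y * Y)) := by
    rw [← hr2, ← hh]; ring
  have hX : 24 / 10 < X := by
    by_contra hcon
    push Not at hcon
    have e1 : (X + rho / 100) * (X + rho / 100) = X * X + X * rho / 50 + s / 10000 := by
      rw [← hr2]; ring
    have e2 : X * rho ≤ 2.4 * 0.94 := by
      rcases le_total 0 X with hx | hx
      · nlinarith
      · nlinarith
    have e3 : X * X ≤ 5.76 := by nlinarith
    nlinarith [mul_self_nonneg Y]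
  refine ⟨?_, hX, ?_, ?_⟩
  · have := Complex.re_le_norm w
    linarith
  · nlinarith
  · nlinarith

end GE1

open GE1 in
/-- **Block GE1** -/
theorem stmt_GE1 (hG1 : Stmt_G1) (hG2 : Stmt_G2) (hG3 : Stmt_G3) (hG5 : Stmt_G5) (hG6 : Stmt_G6) :
    Stmt_GE1 := by
  obtain ⟨s1, s2⟩ := s_bounds
  -- near a side
  have hside : ∀ u ∈ PPo, ∀ i, lv i u < 1 / 100 → {j | u ∈ sect j} ⊆ {i - 1, i} ∧
      (u ∈ sect i ↔ -(1 / 10) < (u * conj (ctr i)).im) ∧
      (u ∈ sect (i - 1) ↔ (u * conj (ctr i)).im < 1 / 10) := by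
    intro u hu i hi
    have hk : ∀ k, -(1 / 100) < lv k (u * conj (ctr i)) := by
      intro k
      rw [← rot_lv hG1]
      exact hu _
    have h0 : lv 0 (u * conj (ctr i)) < 1 / 100 := by
      rw [← rot_lv hG1, add_zero]
      exact hi
    obtain ⟨n1, n2, n3, n4⟩ := near0 hG1 hk h0
    have n5 : 8 / 10 ≤ (u * conj (ctr i)).re := by linarith
    have n6 : (u * conj (ctr i)).im ≤ 6 / 10 * (u * conj (ctr i)).re := by linarith
    obtain ⟨t0, t1, t11⟩ := sect0 hG1 n1 n5 n3 n6
    have m1 : i + 11 = i - 1 := by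
      rw [sub_eq_add_neg]; rfl
    refine ⟨?_, ?_, ?_⟩
    · intro j hj
      have hj' : u ∈ sect (i + (j - i)) := by
        rw [add_sub_cancel]; exact hj
      rw [rot_sect hG1] at hj'
      rcases far hG1 n1 n5 n3 n6 _ hj' with h | h | h
      · left
        rw [← m1, ← h]; ring
      · right
        have : j = i := by rw [← sub_eq_zero]; exact h
        exact this
      · exfalso
        rw [h, t1] at hj'
        nlinarith
    · have := rot_sect hG1 i 0 u
      rw [add_zero] at this
      rw [this, t0]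
      constructor
      · exact fun h => h.1
      · exact fun h => ⟨h, by nlinarith⟩
    · have := rot_sect hG1 i 11 u
      rw [m1] at this
      rw [this, t11]
  -- all sectors
  have hall : ∀ u : ℂ, 1 ≤ ‖u‖ → ∃ i, {j | u ∈ sect j} = {i} ∨ {j | u ∈ sect j} = {i, i + 1} := by
    intro u hu
    obtain ⟨i, hi1, hi2⟩ := hG2.2 u
    have m1 : i + 11 = i - 1 := by
      rw [sub_eq_add_neg]; rfl
    have hw : 1 ≤ ‖u * conj (ctr i)‖ := by rw [norm_rot hG1]; exact hu
    have hi2' : 0 ≤ (u * conj (ctr i)).re / 2 - √3 / 2 * (u * conj (ctr i)).im := by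
      have e : ctr (i + 1) * conj u = ctr 1 * conj (u * conj (ctr i)) := by
        rw [ctr_add, map_mul, Complex.conj_conj]; ring
      rw [e, (table hG1).2.1] at hi2
      simp [Complex.mul_im] at hi2
      simp [Complex.mul_im, Complex.mul_re] at *
      linarith
    set w := u * conj (ctr i) with hwdef
    have hsq : ‖w‖ ^ 2 = w.re * w.re + w.im * w.im := by
      rw [← Complex.normSq_eq_norm_sq, Complex.normSq_apply]
    have hX0 : 0 ≤ w.re := by nlinarith
    have hY : w.im ≤ 6 / 10 * w.re := by nlinarith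
    have hX : 8 / 10 ≤ w.re := by
      by_contra hcon
      push Not at hcon
      have h1 : 1 ≤ ‖w‖ ^ 2 := by nlinarith
      nlinarith
    have hY0 : -(3 / 10) * w.re ≤ w.im := by nlinarith
    obtain ⟨t0, t1, t11⟩ := sect0 hG1 hw hX hY0 hY
    have r0 : u ∈ sect i := by
      have := rot_sect hG1 i 0 u
      rw [add_zero] at this
      rw [this, t0]
      constructor <;> linarith
    have r1 : u ∈ sect (i + 1) ↔ w.re / 2 - √3 / 2 * w.im < 1 / 10 := by
      rw [rot_sect hG1]; exact t1
    have r11 : u ∈ sect (i - 1) ↔ w.im < 1 / 10 := by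
      rw [← m1, rot_sect hG1]; exact t11
    have rf : ∀ j, u ∈ sect j → j = i - 1 ∨ j = i ∨ j = i + 1 := by
      intro j hj
      have hj' : u ∈ sect (i + (j - i)) := by
        rw [add_sub_cancel]; exact hj
      rw [rot_sect hG1] at hj'
      rcases far hG1 hw hX hY0 hY _ hj' with h | h | h
      · left
        rw [← m1, ← h]; ring
      · right; left
        rw [← sub_eq_zero]; exact h
      · right; right
        rw [← h]; ring
    by_cases hA : w.re / 2 - √3 / 2 * w.im < 1 / 10
    · refine ⟨i, Or.inr ?_⟩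
      ext j
      simp only [mem_ofPred_eq, mem_insert_iff, mem_singleton_iff]
      constructor
      · intro hj
        rcases rf j hj with rfl | h | h
        · exfalso
          rw [r11] at hj
          nlinarith
        · exact Or.inl h
        · exact Or.inr h
      · rintro (rfl | rfl)
        · exact r0
        · exact r1.mpr hA
    · by_cases hB : w.im < 1 / 10
      · refine ⟨i - 1, Or.inr ?_⟩
        ext j
        simp only [mem_ofPred_eq, mem_insert_iff, mem_singleton_iff, sub_add_cancel]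
        constructor
        · intro hj
          rcases rf j hj with h | h | rfl
          · exact Or.inl h
          · exact Or.inr h
          · exact absurd (r1.mp hj) hA
        · rintro (rfl | rfl)
          · exact r11.mpr hB
          · exact r0
      · refine ⟨i, Or.inl ?_⟩
        ext j
        simp only [mem_ofPred_eq, mem_singleton_iff]
        constructor
        · intro hj
          rcases rf j hj with rfl | h | rfl
          · exact absurd (r11.mp hj) hB
          · exact h
          · exact absurd (r1.mp hj) hA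
        · rintro rfl
          exact r0
  refine ⟨?_, ?_, ?_, hall, hside, ?_, ?_, ?_⟩
  · intro i
    unfold sect
    refine IsOpen.union ?_ ?_
    · exact isOpen_lt continuous_norm continuous_const
    · refine IsOpen.inter ?_ (IsOpen.inter ?_ ?_)
      · exact isOpen_lt continuous_const (Complex.continuous_im.comp (continuous_id.mul continuous_const))
      · exact isOpen_lt continuous_const
          (Complex.continuous_im.comp (continuous_const.mul Complex.continuous_conj))
      · exact isOpen_lt continuous_const (Complex.continuous_re.comp (continuous_id.mul continuous_const))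
  · rintro i u ⟨-, h1, h2⟩
    rcases lt_or_ge ‖u‖ 1 with hu | hu
    · exact Or.inl hu
    · have e : ctr (i + 1) * conj u = ctr 1 * conj (u * conj (ctr i)) := by
        rw [ctr_add, map_mul, Complex.conj_conj]; ring
      have e' := rot_sect hG1 i 0 u
      rw [add_zero] at e'
      have hw : 1 ≤ ‖u * conj (ctr i)‖ := by rw [norm_rot hG1]; exact hu
      rw [e, (table hG1).2.1] at h2
      rw [e', mem_sect hw, show (0 : ZMod 12) + 1 = 1 from rfl, (table hG1).1, (table hG1).2.1]
      set w := u * conj (ctr i) with hwdef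
      have hsq : ‖w‖ ^ 2 = w.re * w.re + w.im * w.im := by
        rw [← Complex.normSq_eq_norm_sq, Complex.normSq_apply]
      simp [Complex.mul_im] at h2
      have hX0 : 0 ≤ w.re := by nlinarith
      have hX : 8 / 10 ≤ w.re := by
        by_contra hcon
        push Not at hcon
        have h1 : 1 ≤ ‖w‖ ^ 2 := by nlinarith
        have hY : w.im ≤ 6 / 10 * w.re := by nlinarith
        nlinarith
      dsimp only
      refine ⟨by linarith, by linarith, by nlinarith⟩
  · intro i u hu t ht0 ht1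
    rcases lt_or_ge ‖(t : ℂ) * u‖ 1 with h | h
    · exact Or.inl h
    · have hn : ‖(t : ℂ) * u‖ = t * ‖u‖ := by
        rw [norm_mul, Complex.norm_real, Real.norm_of_nonneg ht0]
      rw [hn] at h
      have htp : 0 < t := by
        rcases ht0.eq_or_lt with h' | h'
        · rw [← h', zero_mul] at h; linarith
        · exact h'
      right
      rcases hu with hu | ⟨hA, hB, hC⟩
      · exfalso
        nlinarith [norm_nonneg u]
      · refine ⟨?_, ?_, ?_⟩
        · rw [mul_assoc, Complex.im_ofReal_mul]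
          nlinarith
        · rw [map_mul, Complex.conj_ofReal, mul_left_comm, Complex.im_ofReal_mul]
          nlinarith
        · rw [mul_assoc, Complex.re_ofReal_mul]
          positivity
  · intro u hu i h0 h1
    obtain ⟨a1, a2, a3⟩ := hside u hu i h0
    obtain ⟨b1, b2, b3⟩ := hside u hu (i + 1) h1
    have hn : 1 ≤ ‖u‖ := by
      by_contra hcon
      push Not at hcon
      have := hG6.2.2.2.2.2.2.2 u (by nlinarith [norm_nonneg u]) i
      linarith
    have key : {j | u ∈ sect j} ⊆ {i} := by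
      intro j hj
      have h1 := a1 hj
      have h2 := b1 hj
      rw [add_sub_cancel_right] at h2
      simp only [mem_insert_iff, mem_singleton_iff] at h1 h2
      rcases h2 with h2 | h2
      · exact h2
      · exfalso
        rcases h1 with h1 | h1
        · have : i + 1 = i - 1 := h2.symm.trans h1
          have : (2 : ZMod 12) = 0 := by linear_combination this
          revert this; decide
        · have : i + 1 = i := h2.symm.trans h1
          have : (1 : ZMod 12) = 0 := by linear_combination this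
          revert this; decide
    obtain ⟨j, hj⟩ := hall u hn
    have hjm : u ∈ sect j := by
      have : j ∈ {j | u ∈ sect j} := by
        rcases hj with hj | hj <;> rw [hj] <;> simp
      exact this
    have hji : j = i := key hjm
    rw [hji] at hjm
    exact Subset.antisymm key (singleton_subset_iff.mpr hjm)
  · intro u hu j
    constructor
    · intro h
      have h1 := h j
      rw [hG3.2.1] at h1
      linarith
    · intro h k
      have hr2 : rho ^ 2 = √3 / 2 := by
        unfold rho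
        rw [Real.sq_sqrt (by positivity)]
      have ht : tau2 = 1 - √3 / 2 := rfl
      have htp : 0 < tau2 := by rw [ht]; linarith
      rcases eq_or_ne k j with rfl | hkj
      · rw [hG3.2.1]
        linarith
      · by_cases e1 : k = j + 1
        · subst e1
          rw [hG3.2.2.1]
          exact hu _
        · by_cases e2 : j = k + 1
          · subst e2
            rw [hG3.2.2.2.1]
            exact hu _
          · rw [hG3.1]
            have g1 := hG5.1 j k u hkj.symm e1 e2
            have g2 := hG1.2.2.2.1 k j hkj e2 e1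
            have g3 : -1 ≤ (ctr k * conj (ctr j)).re := by
              have := Complex.abs_re_le_norm (ctr k * conj (ctr j))
              rw [norm_mul, Complex.norm_conj, hG1.1, hG1.1] at this
              have := abs_le.mp this
              linarith [this.1]
            have g4 : 0 ≤ (rho ^ 2 - (ctr k * conj (ctr j)).re) / tau2 := by
              apply div_nonneg _ htp.le
              linarith
            have g5 : (rho ^ 2 - (ctr k * conj (ctr j)).re) / tau2 ≤ 14 := by
              rw [div_le_iff₀ htp, ht]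
              linarith
            have g6 := hu j
            nlinarith
  · intro i u
    have : R i u * conj (ctr i) = u * conj (ctr i) +
        ((2 * rho / tau2 * lv i u : ℝ) : ℂ) * (ctr i * conj (ctr i)) := by
      unfold R; ring
    rw [this, Complex.mul_conj, Complex.normSq_eq_norm_sq, hG1.1, ← Complex.ofReal_mul]
    simp

end Pool.CX
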