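import Pool.Agent.Work.MP_727c87_cx.E2.Geo

set_option autoImplicit false

/-! # Block GE2: the flags near a point -/

open Set Topology Complex ComplexConjugate
open scoped ContDiff NNReal unitInterval

noncomputable section

namespace Pool.CX

theorem ge2_b (Mo : Model) (g : Mo.Q) (i : ZMod 12) :
    Mo.base.b (g, i) = (Mo.L.τ (i + 1) g, i) := by
  show (Mo.L.τ (i + 1) g, i + 1 - 1) = _
  rw [add_sub_cancel_right]

theorem ge2_fa (Mo : Model) (g : Mo.Q) (i : ZMod 12) : Mo.fa (g, i) = (Mo.L.τ i g, i) := rfl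

theorem ge2_fr (Mo : Model) (g : Mo.Q) (i : ZMod 12) : Mo.fr (g, i) = (g, i + 1) := rfl

theorem ge2_m2 (Mo : Model) (f a b : Mo.F) : f ∈ ({a, b} : Set Mo.F) ↔ f = a ∨ f = b := Iff.rfl

theorem ge2_m4 (Mo : Model) (f a b c d : Mo.F) :
    f ∈ ({a, b, c, d} : Set Mo.F) ↔ f = a ∨ f = b ∨ f = c ∨ f = d := Iff.rfl

/-- near a side -/
theorem ge2_one (Mo : Model) (N : Set Mo.F) (g : Mo.Q) (k : ZMod 12) (A B : Prop) (hAB : A ∨ B)
    (hN : ∀ h i, (h, i) ∈ N ↔ (h = g ∨ h = Mo.L.τ k g) ∧ ((i = k ∧ A) ∨ (i = k - 1 ∧ B))) :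
    NearShape Mo N := by
  by_cases hA : A
  · by_cases hB : B
    · refine ⟨(g, k - 1), ?_⟩
      right; right; right; right; left
      rw [ge2_fr, ge2_b, ge2_fa, sub_add_cancel]
      ext ⟨h, i⟩
      rw [hN]
      refine Iff.trans ?_ (ge2_m4 Mo _ _ _ _ _).symm
      simp only [Prod.mk.injEq]
      constructor
      · rintro ⟨rfl | rfl, ⟨rfl, _⟩ | ⟨rfl, _⟩⟩ <;> simp
      · rintro (⟨rfl, rfl⟩ | ⟨rfl, rfl⟩ | ⟨rfl, rfl⟩ | ⟨rfl, rfl⟩) <;> simp [hA, hB]
    · refine ⟨(g, k), ?_⟩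
      right; right; left
      rw [ge2_fa]
      ext ⟨h, i⟩
      rw [hN]
      refine Iff.trans ?_ (ge2_m2 Mo _ _ _).symm
      simp only [Prod.mk.injEq]
      constructor
      · rintro ⟨rfl | rfl, ⟨rfl, _⟩ | ⟨rfl, hb⟩⟩
        · simp
        · exact absurd hb hB
        · simp
        · exact absurd hb hB
      · rintro (⟨rfl, rfl⟩ | ⟨rfl, rfl⟩) <;> simp [hA]
  · have hB : B := hAB.resolve_left hA
    refine ⟨(g, k - 1), ?_⟩
    right; right; right; left
    rw [ge2_b, sub_add_cancel]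
    ext ⟨h, i⟩
    rw [hN]
    refine Iff.trans ?_ (ge2_m2 Mo _ _ _).symm
    simp only [Prod.mk.injEq]
    constructor
    · rintro ⟨rfl | rfl, ⟨rfl, ha⟩ | ⟨rfl, _⟩⟩
      · exact absurd ha hA
      · simp
      · exact absurd ha hA
      · simp
    · rintro (⟨rfl, rfl⟩ | ⟨rfl, rfl⟩) <;> simp [hB]

/-- the sectors near a side -/
theorem ge2_sect (h1 : Stmt_GE1) (w : ℂ) (hw : w ∈ PPo) (k : ZMod 12) (hk : lv k w < 1 / 100)
    (i : ZMod 12) : w ∈ sect i ↔ ((i = k ∧ -(1 / 10) < (w * conj (ctr k)).im) ∨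
      (i = k - 1 ∧ (w * conj (ctr k)).im < 1 / 10)) := by
  obtain ⟨hs, ha, hb⟩ := h1.2.2.2.2.1 w hw k hk
  constructor
  · intro hi
    have h2 := hs (show i ∈ {j | w ∈ sect j} from hi)
    rcases h2 with rfl | h2
    · exact Or.inr ⟨rfl, hb.1 hi⟩
    · have h3 : i = k := h2
      subst h3
      exact Or.inl ⟨rfl, ha.1 hi⟩
  · rintro (⟨rfl, h⟩ | ⟨rfl, h⟩)
    · exact ha.2 h
    · exact hb.2 h

theorem stmt_GE2 (hG3 : Stmt_G3) (hG5 : Stmt_G5) (hG6 : Stmt_G6) (_hS1 : Stmt_S1) (h1 : Stmt_GE1)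
    (h3 : Stmt_GE3) : Stmt_GE2 := by
  intro Mo p
  obtain ⟨hΨ, hcoord, hnbr, hnb2, hkite, hover, _⟩ := h3 Mo
  obtain ⟨g, i0, hg0, hk⟩ := hkite p
  obtain ⟨hloc, hp⟩ := hcoord p g hg0
  set u := cu g (p : Amb Mo.Q) with hudef
  set v := cv g (p : Amb Mo.Q) with hvdef
  have hu : u ∈ PPo := hG6.2.2.2.1 hk.1
  have hC : ∀ h i, p ∈ US Mo (h, i) ↔
      ∃ n, nbr Mo.L g n = h ∧ mv n u ∈ PPo ∧ mv n u ∈ sect i := by
    intro h i
    constructor
    · intro hpm
      have hpm' : p ∈ Over Mo h (sect i) := hpm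
      rw [hover] at hpm'
      obtain ⟨h0, hT⟩ := hpm'
      rw [hp] at h0
      obtain ⟨n, hn, hmv⟩ := hnb2 g h u v hloc h0
      obtain ⟨hl, he⟩ := hnbr g u v n hloc hmv
      refine ⟨n, hn, hmv, ?_⟩
      have h5 := (hΨ (nbr Mo.L g n) (mv n u) v hl).2.2.1
      rw [he, ← hp, hn] at h5
      rw [← h5]
      exact hT
    · rintro ⟨n, rfl, hmv, hs⟩
      obtain ⟨hl, he⟩ := hnbr g u v n hloc hmv
      exact ⟨mv n u, v, hl, hs, by rw [he, ← hp]⟩
  obtain ⟨j, hj, hw⟩ := hG5.2 u hu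
  obtain ⟨_, g2, g3, g4, _, g6⟩ := hG3
  have e1 := h1.2.2.2.2.2.2.1 u hu j
  have e2 := h1.2.2.2.2.2.2.1 u hu (j + 1)
  have e3 : R j (R (j + 1) u) ∈ PPo → lv j u < 1 / 100 ∧ lv (j + 1) u < 1 / 100 := by
    intro h
    constructor
    · have h5 := h j
      rw [g2, g4] at h5
      linarith
    · have h5 := h (j + 1)
      rw [g6, g2, g3] at h5
      linarith
  have hN : ∀ h i, (h, i) ∈ {f | p ∈ US Mo f} ↔
      ∃ n, nbr Mo.L g n = h ∧ mv n u ∈ PPo ∧ mv n u ∈ sect i := hC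
  -- one side
  have honeside : ∀ k, lv k u < 1 / 100 →
      (∀ n : Nbr, mv n u ∈ PPo → n = none ∨ n = some (k, false)) →
      NearShape Mo {f | p ∈ US Mo f} := by
    intro k hk1 hwk
    have hRk : R k u ∈ PPo := (h1.2.2.2.2.2.2.1 u hu k).2 hk1
    have hlk : lv k (R k u) < 1 / 100 := by
      rw [g2]
      have := hu k
      linarith
    refine ge2_one Mo _ g k (-(1 / 10) < (u * conj (ctr k)).im) ((u * conj (ctr k)).im < 1 / 10)
      ?_ ?_
    · by_contra hcon
      push Not at hcon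
      linarith [hcon.1, hcon.2]
    · intro h i
      rw [hN]
      have s1 := ge2_sect h1 u hu k hk1 i
      have s2 := ge2_sect h1 (R k u) hRk k hlk i
      rw [h1.2.2.2.2.2.2.2 k u] at s2
      constructor
      · rintro ⟨n, hn, hm, hs⟩
        rcases hwk n hm with rfl | rfl
        · exact ⟨Or.inl hn.symm, s1.1 hs⟩
        · exact ⟨Or.inr hn.symm, s2.1 hs⟩
      · rintro ⟨rfl | rfl, hs⟩
        · exact ⟨none, rfl, hu, s1.2 hs⟩
        · exact ⟨some (k, false), rfl, hRk, s2.2 hs⟩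
  by_cases a1 : lv j u < 1 / 100
  · by_cases a2 : lv (j + 1) u < 1 / 100
    · -- corner
      have c1 : R j u ∈ PPo := e1.2 a1
      have c2 : R (j + 1) u ∈ PPo := e2.2 a2
      have c3 : R j (R (j + 1) u) ∈ PPo := by
        refine (h1.2.2.2.2.2.2.1 (R (j + 1) u) c2 j).2 ?_
        rw [g4]
        exact a1
      have bj := hu j
      have bj1 := hu (j + 1)
      have d0 := h1.2.2.2.2.2.1 u hu j a1 a2
      have d1 := h1.2.2.2.2.2.1 (R j u) c1 j (by rw [g2]; linarith) (by rw [g3]; exact a2)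
      have d2 := h1.2.2.2.2.2.1 (R (j + 1) u) c2 j (by rw [g4]; exact a1)
        (by rw [g2]; linarith)
      have d3 := h1.2.2.2.2.2.1 (R j (R (j + 1) u)) c3 j (by rw [g2, g4]; linarith)
        (by rw [g3, g2]; linarith)
      have q0 : ∀ i, u ∈ sect i ↔ i = j := fun i => by
        have : i ∈ {j | u ∈ sect j} ↔ i ∈ ({j} : Set (ZMod 12)) := by rw [d0]
        simpa using this
      have q1 : ∀ i, R j u ∈ sect i ↔ i = j := fun i => by
        have : i ∈ {k | R j u ∈ sect k} ↔ i ∈ ({j} : Set (ZMod 12)) := by rw [d1]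
        simpa using this
      have q2 : ∀ i, R (j + 1) u ∈ sect i ↔ i = j := fun i => by
        have : i ∈ {k | R (j + 1) u ∈ sect k} ↔ i ∈ ({j} : Set (ZMod 12)) := by rw [d2]
        simpa using this
      have q3 : ∀ i, R j (R (j + 1) u) ∈ sect i ↔ i = j := fun i => by
        have : i ∈ {k | R j (R (j + 1) u) ∈ sect k} ↔ i ∈ ({j} : Set (ZMod 12)) := by rw [d3]
        simpa using this
      refine ⟨(g, j), ?_⟩
      right; right; right; right; right; left
      rw [ge2_fa, ge2_b, ge2_fa]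
      ext ⟨h, i⟩
      rw [hN]
      refine Iff.trans ?_ (ge2_m4 Mo _ _ _ _ _).symm
      simp only [Prod.mk.injEq]
      constructor
      · rintro ⟨n, hn, hm, hs⟩
        rcases hw n hm with rfl | rfl | rfl | rfl
        · exact Or.inl ⟨hn.symm, (q0 i).1 hs⟩
        · exact Or.inr (Or.inl ⟨hn.symm, (q1 i).1 hs⟩)
        · exact Or.inr (Or.inr (Or.inl ⟨hn.symm, (q2 i).1 hs⟩))
        · exact Or.inr (Or.inr (Or.inr ⟨hn.symm, (q3 i).1 hs⟩))
      · rintro (⟨rfl, rfl⟩ | ⟨rfl, rfl⟩ | ⟨rfl, rfl⟩ | ⟨rfl, rfl⟩)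
        · exact ⟨none, rfl, hu, (q0 _).2 rfl⟩
        · exact ⟨some (_, false), rfl, c1, (q1 _).2 rfl⟩
        · exact ⟨some (_, false), rfl, c2, (q2 _).2 rfl⟩
        · exact ⟨some (_, true), rfl, c3, (q3 _).2 rfl⟩
    · refine honeside j a1 fun n hn => ?_
      rcases hw n hn with rfl | rfl | rfl | rfl
      · exact Or.inl rfl
      · exact Or.inr rfl
      · exact absurd (e2.1 hn) a2
      · exact absurd (e3 hn).2 a2
  · by_cases a2 : lv (j + 1) u < 1 / 100
    · refine honeside (j + 1) a2 fun n hn => ?_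
      rcases hw n hn with rfl | rfl | rfl | rfl
      · exact Or.inl rfl
      · exact absurd (e1.1 hn) a1
      · exact Or.inr rfl
      · exact absurd (e3 hn).1 a1
    · have hnone : ∀ h i, (h, i) ∈ {f | p ∈ US Mo f} ↔ h = g ∧ u ∈ sect i := by
        intro h i
        rw [hN]
        constructor
        · rintro ⟨n, hn, hm, hs⟩
          rcases hw n hm with rfl | rfl | rfl | rfl
          · exact ⟨hn.symm, hs⟩
          · exact absurd (e1.1 hm) a1
          · exact absurd (e2.1 hm) a2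
          · exact absurd (e3 hm).1 a1
        · rintro ⟨rfl, hs⟩
          exact ⟨none, rfl, hu, hs⟩
      by_cases hn1 : 1 ≤ ‖u‖
      · obtain ⟨i, hi | hi⟩ := h1.2.2.2.1 u hn1
        · refine ⟨(g, i), Or.inl ?_⟩
          ext ⟨h, k⟩
          rw [hnone]
          have : u ∈ sect k ↔ k = i := by
            have : k ∈ {j | u ∈ sect j} ↔ k ∈ ({i} : Set (ZMod 12)) := by rw [hi]
            simpa using this
          rw [this]
          simp
        · refine ⟨(g, i), Or.inr (Or.inl ?_)⟩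
          rw [ge2_fr]
          ext ⟨h, k⟩
          rw [hnone]
          have : u ∈ sect k ↔ k = i ∨ k = i + 1 := by
            have : k ∈ {j | u ∈ sect j} ↔ k ∈ ({i, i + 1} : Set (ZMod 12)) := by rw [hi]
            simpa using this
          rw [this]
          refine Iff.trans ?_ (ge2_m2 Mo _ _ _).symm
          simp only [Prod.mk.injEq]
          tauto
      · have hgD : g ∉ Mo.D := fun hd => hn1 (hloc.2.2 hd).1
        refine ⟨(g, 0), ?_⟩
        right; right; right; right; right; right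
        refine ⟨hgD, ?_⟩
        ext ⟨h, k⟩
        rw [hnone]
        simp only [Set.mem_ofPred_eq]
        constructor
        · exact fun h => h.1
        · exact fun h => ⟨h, Or.inl (not_le.1 hn1)⟩

end Pool.CX
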