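import Pool.Agent.Work.MP_727c87_cx.E2.Geo

/-!
# Block GE3: coordinates
-/

set_option autoImplicit false

open Set Topology Complex ComplexConjugate
open scoped ContDiff NNReal unitInterval

noncomputable section

namespace Pool.CX

namespace GE3

variable (Mo : Model)

theorem beta_pos (hG4 : Stmt_G4) {u : ℂ} (hu : u ∈ PPo) : 0 < beta u :=
  (hG4.2.2.2.2.2.2.2 u).mpr hu

theorem coords (hG4 : Stmt_G4) (hS2 : Stmt_S2) (g : Mo.Q) {u v : ℂ} (hu : u ∈ PPo) :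
    0 < (Psi Mo.L g u v g).1 ∧ cu g (Psi Mo.L g u v) = u ∧ cv g (Psi Mo.L g u v) = v := by
  have h1 := (hS2 Mo g u v hu).1
  have hp := beta_pos hG4 hu
  have hb : ((beta u : ℝ) : ℂ) ≠ 0 := by exact_mod_cast hp.ne'
  unfold cu cv
  rw [h1]
  refine ⟨hp, ?_, ?_⟩
  · change ((beta u : ℝ) : ℂ)⁻¹ * ((beta u : ℂ) * u) = u
    rw [inv_mul_cancel_left₀ hb]
  · change ((beta u : ℝ) : ℂ)⁻¹ * ((beta u : ℂ) * v) = v
    rw [inv_mul_cancel_left₀ hb]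

theorem change (hS2 : Stmt_S2) (hS3 : Stmt_S3) (g : Mo.Q) {u v : ℂ} (n : Nbr)
    (hloc : (u, v) ∈ Loc (g ∈ Mo.D)) (hm : mv n u ∈ PPo) :
    (mv n u, v) ∈ Loc (nbr Mo.L g n ∈ Mo.D) ∧ Psi Mo.L (nbr Mo.L g n) (mv n u) v = Psi Mo.L g u v := by
  refine ⟨?_, (hS2 Mo g u v hloc.1).2.2.2.1 n hm⟩
  by_cases h0 : n = none
  · subst h0
    exact hloc
  · exact hS3 _ _ n u v hloc h0 hm

theorem change_chamber (hS2 : Stmt_S2) (hS3 : Stmt_S3) {p : Amb Mo.Q} (hp : p ∈ Mo.SS) {g : Mo.Q}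
    (hg : 0 < (p g).1) : ∃ u v : ℂ, (u, v) ∈ Loc (g ∈ Mo.D) ∧ p = Psi Mo.L g u v := by
  obtain ⟨g', u, v, hloc, rfl⟩ := hp
  obtain ⟨n, hn, hm⟩ := (hS2 Mo g' u v hloc.1).2.2.2.2 g hg
  obtain ⟨h1, h2⟩ := change Mo hS2 hS3 g' n hloc hm
  subst hn
  exact ⟨mv n u, v, h1, h2.symm⟩

theorem coords' (hG4 : Stmt_G4) (hS2 : Stmt_S2) (hS3 : Stmt_S3) (p : Mo.SS) (g : Mo.Q)
    (hg : 0 < ((p : Amb Mo.Q) g).1) :
    (cu g (p : Amb Mo.Q), cv g (p : Amb Mo.Q)) ∈ Loc (g ∈ Mo.D) ∧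
      (p : Amb Mo.Q) = Psi Mo.L g (cu g (p : Amb Mo.Q)) (cv g (p : Amb Mo.Q)) := by
  obtain ⟨u, v, hloc, h⟩ := change_chamber Mo hS2 hS3 p.2 hg
  obtain ⟨_, hu, hv⟩ := coords Mo hG4 hS2 g (u := u) (v := v) hloc.1
  rw [h, hu, hv]
  exact ⟨hloc, rfl⟩

theorem mem_Over (hG4 : Stmt_G4) (hS2 : Stmt_S2) (hS3 : Stmt_S3) (g : Mo.Q) (T : Set ℂ)
    (p : Mo.SS) :
    p ∈ Over Mo g T ↔ 0 < ((p : Amb Mo.Q) g).1 ∧ cu g (p : Amb Mo.Q) ∈ T := by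
  constructor
  · rintro ⟨u, v, hloc, hT, h⟩
    obtain ⟨h1, hu, hv⟩ := coords Mo hG4 hS2 g (u := u) (v := v) hloc.1
    rw [h, hu]
    exact ⟨h1, hT⟩
  · rintro ⟨h1, hT⟩
    obtain ⟨h2, h3⟩ := coords' Mo hG4 hS2 hS3 p g h1
    exact ⟨_, _, h2, hT, h3⟩

theorem continuousOn_cu (g : Mo.Q) :
    ContinuousOn (fun p : Mo.SS => cu g (p : Amb Mo.Q)) {p : Mo.SS | 0 < ((p : Amb Mo.Q) g).1} := by
  have h0 : Continuous (fun p : Mo.SS => (p : Amb Mo.Q) g) :=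
    (continuous_apply g).comp continuous_subtype_val
  have h1 : Continuous (fun p : Mo.SS => (((p : Amb Mo.Q) g).1 : ℂ)) :=
    Complex.continuous_ofReal.comp h0.fst
  have h2 : ContinuousOn (fun p : Mo.SS => (((p : Amb Mo.Q) g).1 : ℂ)⁻¹)
      {p : Mo.SS | 0 < ((p : Amb Mo.Q) g).1} := by
    refine h1.continuousOn.inv₀ ?_
    intro p hp
    have hp' : 0 < ((p : Amb Mo.Q) g).1 := hp
    exact_mod_cast hp'.ne'
  exact h2.mul h0.snd.fst.continuousOn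

theorem isOpen_Over (hG4 : Stmt_G4) (hS2 : Stmt_S2) (hS3 : Stmt_S3) (g : Mo.Q) {T : Set ℂ}
    (hT : IsOpen T) : IsOpen (Over Mo g T) := by
  have h0 : Continuous (fun p : Mo.SS => (p : Amb Mo.Q) g) :=
    (continuous_apply g).comp continuous_subtype_val
  have h1 : IsOpen {p : Mo.SS | 0 < ((p : Amb Mo.Q) g).1} :=
    isOpen_lt continuous_const h0.fst
  have h2 : Over Mo g T = {p : Mo.SS | 0 < ((p : Amb Mo.Q) g).1} ∩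
      (fun p : Mo.SS => cu g (p : Amb Mo.Q)) ⁻¹' T := by
    ext p
    exact mem_Over Mo hG4 hS2 hS3 g T p
  rw [h2]
  exact (continuousOn_cu Mo g).isOpen_inter_preimage h1 hT

theorem exists_kite (hG2 : Stmt_G2) (hG4 : Stmt_G4) (hG6 : Stmt_G6) (hS2 : Stmt_S2)
    (hS3 : Stmt_S3) (p : Mo.SS) :
    ∃ (g : Mo.Q) (i : ZMod 12), 0 < ((p : Amb Mo.Q) g).1 ∧ cu g (p : Amb Mo.Q) ∈ kite i := by
  obtain ⟨p, hp⟩ := p
  obtain ⟨g', u, v, hloc, rfl⟩ := hp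
  obtain ⟨n, hn⟩ := hG6.2.2.2.2.1 u hloc.1
  have hno : mv n u ∈ PPo := hG6.2.2.2.1 hn
  obtain ⟨h1, h2⟩ := change Mo hS2 hS3 g' n hloc hno
  obtain ⟨i, hi1, hi2⟩ := hG2.2 (mv n u)
  obtain ⟨h3, hu, _⟩ := coords Mo hG4 hS2 (nbr Mo.L g' n) (u := mv n u) (v := v) hno
  refine ⟨nbr Mo.L g' n, i, ?_, ?_⟩
  · change 0 < (Psi Mo.L g' u v (nbr Mo.L g' n)).1
    rw [← h2]
    exact h3
  · change cu (nbr Mo.L g' n) (Psi Mo.L g' u v) ∈ kite i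
    rw [← h2, hu]
    exact ⟨hn, hi1, hi2⟩

end GE3

theorem stmt_GE3 (hG2 : Stmt_G2) (_hG3 : Stmt_G3) (hG4 : Stmt_G4) (hG6 : Stmt_G6)
    (_hS1 : Stmt_S1) (hS2 : Stmt_S2) (hS3 : Stmt_S3) : Stmt_GE3 := by
  intro Mo
  refine ⟨?_, GE3.coords' Mo hG4 hS2 hS3, ?_, ?_, GE3.exists_kite Mo hG2 hG4 hG6 hS2 hS3,
    GE3.mem_Over Mo hG4 hS2 hS3, fun g T hT => GE3.isOpen_Over Mo hG4 hS2 hS3 g hT⟩
  · intro g u v hloc
    exact ⟨⟨g, u, v, hloc, rfl⟩, GE3.coords Mo hG4 hS2 g hloc.1⟩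
  · intro g u v n hloc hm
    exact GE3.change Mo hS2 hS3 g n hloc hm
  · intro g h u v hloc hp
    exact (hS2 Mo g u v hloc.1).2.2.2.2 h hp

end Pool.CX
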