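import Pool.Agent.Work.MP_727c87_cx.E2.GE1

set_option autoImplicit false

/-! # Block GE4 of part (E2): the strips are path connected -/

open Set Topology Complex ComplexConjugate

noncomputable section

namespace Pool.CX

namespace GE4

/-- A set of the plane given by conditions `-c < α √(1+|u|²) + Re (u conj γ)` with `c ≥ 0` is path connected (a convex
set in the projective model). -/
theorem pc_of_conds {ι : Type} (c α : ι → ℝ) (γ : ι → ℂ) (hc : ∀ i, 0 ≤ c i) {S : Set ℂ}
    (hS : S = {u | ∀ i, -c i < α i * √(1 + ‖u‖ ^ 2) + (u * conj (γ i)).re}) (hne : S.Nonempty) :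
    IsPathConnected S := by
  subst hS
  obtain ⟨u, hu⟩ := hne
  refine ⟨u, hu, fun {v} hv => ?_⟩
  set a := √(1 + ‖u‖ ^ 2) with ha
  set b := √(1 + ‖v‖ ^ 2) with hb
  have ha2 : a * a = 1 + ‖u‖ ^ 2 := Real.mul_self_sqrt (by positivity)
  have hb2 : b * b = 1 + ‖v‖ ^ 2 := Real.mul_self_sqrt (by positivity)
  have ha0 : 0 < a := Real.sqrt_pos.mpr (by positivity)
  have hb0 : 0 < b := Real.sqrt_pos.mpr (by positivity)
  let A : ℝ → ℝ := fun t => (1 - t) * a + t * b
  let B : ℝ → ℂ := fun t => (1 - t : ℝ) * u + (t : ℝ) * v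
  have hnB : ∀ t, ‖B t‖ ^ 2 = (1 - t) ^ 2 * ‖u‖ ^ 2 + t ^ 2 * ‖v‖ ^ 2 + 2 * (t * (1 - t)) * (u * conj v).re := by
    intro t
    rw [← Complex.normSq_eq_norm_sq, ← Complex.normSq_eq_norm_sq, ← Complex.normSq_eq_norm_sq]
    simp only [B, Complex.normSq_apply, Complex.add_re, Complex.add_im, Complex.ofReal_re,
      Complex.ofReal_im, Complex.mul_re, Complex.mul_im, Complex.conj_re, Complex.conj_im]
    ring
  have hab : 1 + (u * conj v).re ≤ a * b := by
    have h1 : (u * conj v).re ≤ ‖u‖ * ‖v‖ := by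
      have := Complex.re_le_norm (u * conj v)
      rwa [norm_mul, Complex.norm_conj] at this
    have h2 : (1 + ‖u‖ * ‖v‖) ^ 2 ≤ (a * b) ^ 2 := by
      have : (a * b) ^ 2 = (1 + ‖u‖ ^ 2) * (1 + ‖v‖ ^ 2) := by
        rw [← ha2, ← hb2]; ring
      rw [this]
      nlinarith [sq_nonneg (‖u‖ - ‖v‖)]
    have h3 := abs_le_of_sq_le_sq' h2 (by positivity)
    linarith [h3.2]
  have hN : ∀ t ∈ Icc (0 : ℝ) 1, 1 ≤ A t ^ 2 - ‖B t‖ ^ 2 := by
    intro t ht
    have e : A t ^ 2 - ‖B t‖ ^ 2 =
        (1 - t) ^ 2 + t ^ 2 + 2 * (t * (1 - t)) * (a * b - (u * conj v).re) := by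
      rw [hnB]
      simp only [A]
      linear_combination (1 - t) ^ 2 * ha2 + t ^ 2 * hb2
    rw [e]
    have : 0 ≤ t * (1 - t) := mul_nonneg ht.1 (by linarith [ht.2])
    nlinarith
  let N : ℝ → ℝ := fun t => √(A t ^ 2 - ‖B t‖ ^ 2)
  have hN1 : ∀ t ∈ Icc (0 : ℝ) 1, 1 ≤ N t := fun t ht => Real.one_le_sqrt.mpr (hN t ht)
  have hN2 : ∀ t ∈ Icc (0 : ℝ) 1, N t ^ 2 = A t ^ 2 - ‖B t‖ ^ 2 := fun t ht =>
    Real.sq_sqrt (by linarith [hN t ht])
  have hcA : Continuous A := by fun_prop
  have hcB : Continuous B := by fun_prop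
  have hcN : Continuous N := (((hcA.pow 2).sub (hcB.norm.pow 2))).sqrt
  refine JoinedIn.ofLine (f := fun t => B t / (N t : ℂ)) ?_ ?_ ?_ ?_
  · refine hcB.continuousOn.div (Complex.continuous_ofReal.comp hcN).continuousOn ?_
    intro t ht h
    have h1 := hN1 t ht
    have h2 : N t = 0 := Complex.ofReal_eq_zero.mp h
    linarith
  · have h0 : N 0 = 1 := by
      simp only [N, A, B]
      simp
      linarith
    simp only [h0]
    simp [B]
  · have h0 : N 1 = 1 := by
      simp only [N, A, B]
      simp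
      linarith
    simp only [h0]
    simp [B]
  · rintro _ ⟨t, ht, rfl⟩ i
    dsimp only
    have h1 := hN1 t ht
    have h1' : 0 < N t := by linarith
    have hA0 : 0 < A t := by
      simp only [A]
      rcases ht.1.eq_or_lt with h | h
      · rw [← h]; simpa using ha0
      · have : 0 ≤ (1 - t) * a := mul_nonneg (by linarith [ht.2]) ha0.le
        have : 0 < t * b := mul_pos h hb0
        linarith
    have e1 : √(1 + ‖B t / (N t : ℂ)‖ ^ 2) = A t / N t := by
      rw [norm_div, Complex.norm_real, Real.norm_of_nonneg h1'.le]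
      rw [Real.sqrt_eq_iff_mul_self_eq_of_pos (by positivity)]
      field_simp
      linarith [hN2 t ht]
    have e2 : (B t / (N t : ℂ) * conj (γ i)).re = (B t * conj (γ i)).re / N t := by
      rw [div_mul_eq_mul_div, Complex.div_ofReal_re]
    rw [e1, e2, ← mul_div_assoc, ← add_div, lt_div_iff₀ h1']
    have hui := hu i
    have hvi := hv i
    have e3 : α i * A t + (B t * conj (γ i)).re =
        (1 - t) * (α i * a + (u * conj (γ i)).re) + t * (α i * b + (v * conj (γ i)).re) := by
      simp only [A, B, add_mul, Complex.add_re, mul_assoc, Complex.re_ofReal_mul]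
      ring
    rw [e3]
    have hci := hc i
    have l1 : -c i * N t ≤ -c i := by nlinarith
    have l2 : -c i < (1 - t) * (α i * a + (u * conj (γ i)).re) + t * (α i * b + (v * conj (γ i)).re) := by
      rcases ht.1.eq_or_lt with h | h
      · rw [← h]; simpa using hui
      · nlinarith [ht.2]
    linarith

end GE4

open GE4 in
/-- **Block GE4** -/
theorem stmt_GE4 (hG1 : Stmt_G1) (hG2 : Stmt_G2) (hG3 : Stmt_G3) (hG5 : Stmt_G5) (hG6 : Stmt_G6)
    (hCO : Stmt_CO) : Stmt_GE4 := by
  obtain ⟨-, -, -, -, hside, -, hR, hRim⟩ := stmt_GE1 hG1 hG2 hG3 hG5 hG6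
  intro i k hik
  have key : ∃ σ : ℝ, ∀ u ∈ PPo, lv k u < 1 / 100 →
      (u ∈ sect i ↔ -(1 / 10) < σ * (u * conj (ctr k)).im) := by
    rcases hik with rfl | rfl
    · exact ⟨1, fun u hu h => by rw [one_mul]; exact (hside u hu k h).2.1⟩
    · refine ⟨-1, fun u hu h => ?_⟩
      have := (hside u hu (i + 1) h).2.2
      rw [add_sub_cancel_right] at this
      rw [this]
      constructor <;> intro h' <;> linarith
  obtain ⟨σ, hσ⟩ := key
  have hS : strip i k = {u | u ∈ PPo ∧ lv k u < 1 / 100 ∧ -(1 / 10) < σ * (u * conj (ctr k)).im} := by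
    ext u
    simp only [strip, mem_ofPred_eq]
    constructor
    · rintro ⟨h1, h2, h3, h4⟩
      have h5 := (hR u h1 k).mp h3
      exact ⟨h1, h5, (hσ u h1 h5).mp h2⟩
    · rintro ⟨h1, h2, h3⟩
      have h4 := (hR u h1 k).mpr h2
      have h5 : lv k (R k u) < 1 / 100 := by
        rw [hG3.2.1]
        linarith [h1 k]
      exact ⟨h1, (hσ u h1 h2).mpr h3, h4, (hσ _ h4 h5).mpr (by rw [hRim]; exact h3)⟩
  have hne : (strip i k).Nonempty := by
    obtain ⟨m1, m2, m3, -⟩ := hCO.1 k
    refine ⟨mid k, ?_⟩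
    rw [hS]
    refine ⟨hG6.2.2.2.1 m1, by rw [m2]; norm_num, ?_⟩
    have : (mid k * conj (ctr k)).im = 0 := by
      unfold mid
      rw [mul_assoc, Complex.mul_conj, ← Complex.ofReal_mul, Complex.ofReal_im]
    rw [this]
    norm_num
  refine pc_of_conds (ι := Option (Option (ZMod 12)))
    (fun o => match o with
      | none => 1 / 10
      | some _ => 1 / 100)
    (fun o => match o with
      | none => 0
      | some none => -1
      | some (some _) => 1)
    (fun o => match o with
      | none => (σ : ℂ) * (ctr k * I)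
      | some none => ((1 / rho : ℝ) : ℂ) * ctr k
      | some (some j) => ((-(1 / rho) : ℝ) : ℂ) * ctr j) ?_ ?_ hne
  · rintro (_ | _) <;> norm_num
  · rw [hS]
    ext u
    simp only [mem_ofPred_eq]
    have e1 : (u * conj ((σ : ℂ) * (ctr k * I))).re = σ * (u * conj (ctr k)).im := by
      simp only [map_mul, Complex.conj_ofReal, Complex.conj_I, Complex.mul_re, Complex.mul_im,
        Complex.ofReal_re, Complex.ofReal_im, Complex.conj_re, Complex.conj_im, Complex.neg_re,
        Complex.neg_im, Complex.I_re, Complex.I_im]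
      ring
    have e2 : ∀ (j : ZMod 12) (r : ℝ), (u * conj ((r : ℂ) * ctr j)).re = r * (u * conj (ctr j)).re := by
      intro j r
      rw [map_mul, Complex.conj_ofReal, mul_left_comm, Complex.re_ofReal_mul]
    constructor
    · rintro ⟨h1, h2, h3⟩ (_ | _ | j)
      · dsimp only
        rw [e1, zero_mul, zero_add]
        exact h3
      · dsimp only
        rw [e2]
        unfold lv at h2
        rw [div_eq_mul_one_div _ rho] at h2
        linarith
      · dsimp only
        rw [e2]
        have := h1 j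
        unfold lv at this
        rw [div_eq_mul_one_div _ rho] at this
        linarith
    · intro h
      refine ⟨?_, ?_, ?_⟩
      · intro j
        have := h (some (some j))
        dsimp only at this
        rw [e2] at this
        unfold lv
        rw [div_eq_mul_one_div _ rho]
        linarith
      · have := h (some none)
        dsimp only at this
        rw [e2] at this
        unfold lv
        rw [div_eq_mul_one_div _ rho]
        linarith
      · have := h none
        dsimp only at this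
        rw [e1, zero_mul, zero_add] at this
        exact this

end Pool.CX
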