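import Pool.Agent.Work.MP_727c87_cx.E2.Geo

set_option autoImplicit false

/-! # Block GE6: path connected charts and sectors (helper93) -/

open Set Topology Complex ComplexConjugate
open scoped ContDiff NNReal unitInterval

noncomputable section

namespace Pool.CX

namespace GE6

/-- a set is path connected if every point is joined to a point of a path connected subset -/
theorem pc_of_retract {X : Type} [TopologicalSpace X] {F K : Set X} (hKF : K ⊆ F)
    (hK : IsPathConnected K) (h : ∀ x ∈ F, ∃ y ∈ K, JoinedIn F x y) : IsPathConnected F := by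
  obtain ⟨k, hk, hk'⟩ := hK
  refine ⟨k, hKF hk, fun {y} hy => ?_⟩
  obtain ⟨z, hz, hz'⟩ := h y hy
  exact ((hk' hz).mono hKF).trans hz'.symm

/-- a path given by a continuous function on `ℝ` -/
theorem joinedIn_of_cont {X : Type} [TopologicalSpace X] {F : Set X} (f : ℝ → X)
    (hf : ContinuousOn f (Icc 0 1)) (hF : ∀ t ∈ Icc (0 : ℝ) 1, f t ∈ F) : JoinedIn F (f 0) (f 1) := by
  refine JoinedIn.ofLine hf rfl rfl ?_
  rintro _ ⟨t, ht, rfl⟩
  exact hF t ht

theorem isPathConnected_circle : IsPathConnected (Metric.sphere (0 : ℂ) 1) := by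
  refine isPathConnected_sphere ?_ 0 zero_le_one
  rw [Complex.rank_real_complex]
  exact Cardinal.one_lt_two

/-- the linear condition along a normalised segment -/
theorem seg_cond {x y t N : ℝ} (hx : -(1 / 10) < x) (hy : 0 ≤ y) (h0 : 0 ≤ t) (h1 : t ≤ 1)
    (hN : 0 < N) (hN' : 1 - t ≤ N) : -(1 / 10) < ((1 - t) * x + t * y) / N := by
  rw [lt_div_iff₀ hN]
  have h2 : 0 ≤ t * y := mul_nonneg h0 hy
  rcases le_total 0 x with h | h
  · have h3 : 0 ≤ (1 - t) * x := mul_nonneg (by linarith) h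
    linarith
  · rcases eq_or_lt_of_le h1 with h4 | h4
    · subst h4
      linarith
    · have h5 : (1 - t) * (-(1 / 10)) < (1 - t) * x := mul_lt_mul_of_pos_left hx (by linarith)
      linarith

theorem seg_pos {x y t N : ℝ} (hx : 0 < x) (hy : 0 < y) (h0 : 0 ≤ t) (h1 : t ≤ 1)
    (hN : 0 < N) : 0 < ((1 - t) * x + t * y) / N := by
  refine div_pos ?_ hN
  rcases eq_or_lt_of_le h1 with h4 | h4
  · subst h4
    linarith
  · have := mul_pos (sub_pos.mpr h4) hx
    have := mul_nonneg h0 hy.le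
    linarith

/-- normalised segment between two unit vectors with positive scalar product -/
def nseg (a b : ℂ) (t : ℝ) : ℂ :=
  (((1 / ‖((1 - t : ℝ) : ℂ) * a + ((t : ℝ) : ℂ) * b‖ : ℝ)) : ℂ) *
    (((1 - t : ℝ) : ℂ) * a + ((t : ℝ) : ℂ) * b)

theorem seg_norm {a b : ℂ} (ha : ‖a‖ = 1) (hb : ‖b‖ = 1) (hab : 0 < (a * conj b).re) {t : ℝ}
    (h0 : 0 ≤ t) (h1 : t ≤ 1) :
    0 < ‖((1 - t : ℝ) : ℂ) * a + ((t : ℝ) : ℂ) * b‖ ∧
      1 - t ≤ ‖((1 - t : ℝ) : ℂ) * a + ((t : ℝ) : ℂ) * b‖ := by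
  have ha2 : a.re ^ 2 + a.im ^ 2 = 1 := by
    have := Complex.sq_norm a
    rw [ha, Complex.normSq_apply] at this
    nlinarith
  have hb2 : b.re ^ 2 + b.im ^ 2 = 1 := by
    have := Complex.sq_norm b
    rw [hb, Complex.normSq_apply] at this
    nlinarith
  have hab2 : 0 < a.re * b.re + a.im * b.im := by
    simp only [Complex.mul_re, Complex.conj_re, Complex.conj_im] at hab
    linarith
  have key : ‖((1 - t : ℝ) : ℂ) * a + ((t : ℝ) : ℂ) * b‖ ^ 2 =
      (1 - t) ^ 2 + t ^ 2 + 2 * t * (1 - t) * (a.re * b.re + a.im * b.im) := by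
    rw [Complex.sq_norm, Complex.normSq_apply]
    simp only [Complex.add_re, Complex.add_im, Complex.re_ofReal_mul, Complex.im_ofReal_mul]
    linear_combination (1 - t) ^ 2 * ha2 + t ^ 2 * hb2
  have h2 : 0 ≤ 2 * t * (1 - t) * (a.re * b.re + a.im * b.im) :=
    mul_nonneg (mul_nonneg (by linarith) (by linarith)) hab2.le
  have h3 : (1 - t) ^ 2 + t ^ 2 ≤ ‖((1 - t : ℝ) : ℂ) * a + ((t : ℝ) : ℂ) * b‖ ^ 2 := by
    rw [key]; linarith
  have h4 := norm_nonneg (((1 - t : ℝ) : ℂ) * a + ((t : ℝ) : ℂ) * b)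
  constructor
  · by_contra hcon
    have h5 : ‖((1 - t : ℝ) : ℂ) * a + ((t : ℝ) : ℂ) * b‖ = 0 := le_antisymm (not_lt.mp hcon) h4
    rw [h5] at h3
    nlinarith
  · exact abs_le_of_sq_le_sq' (by nlinarith [sq_nonneg t]) h4 |>.2

theorem nseg_cont {a b : ℂ} (ha : ‖a‖ = 1) (hb : ‖b‖ = 1) (hab : 0 < (a * conj b).re) :
    ContinuousOn (nseg a b) (Icc 0 1) := by
  have h1 : Continuous fun t : ℝ => ((1 - t : ℝ) : ℂ) * a + ((t : ℝ) : ℂ) * b := by fun_prop
  refine ContinuousOn.mul (Complex.continuous_ofReal.comp_continuousOn ?_) h1.continuousOn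
  refine continuousOn_const.div h1.norm.continuousOn ?_
  intro t ht
  exact (seg_norm ha hb hab ht.1 ht.2).1.ne'

theorem nseg_zero {a b : ℂ} (ha : ‖a‖ = 1) : nseg a b 0 = a := by
  unfold nseg
  simp [ha]

theorem nseg_one {a b : ℂ} (hb : ‖b‖ = 1) : nseg a b 1 = b := by
  unfold nseg
  simp [hb]

theorem nseg_norm {a b : ℂ} (ha : ‖a‖ = 1) (hb : ‖b‖ = 1) (hab : 0 < (a * conj b).re) {t : ℝ}
    (h0 : 0 ≤ t) (h1 : t ≤ 1) : ‖nseg a b t‖ = 1 := by
  unfold nseg
  have h := (seg_norm ha hb hab h0 h1).1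
  rw [norm_mul, Complex.norm_real, Real.norm_eq_abs, abs_of_pos (by positivity)]
  field_simp

/-- the part of the circle in a sector is joined to a point with nonnegative conditions -/
theorem nseg_mem {i : ZMod 12} {a b : ℂ} (ha : ‖a‖ = 1) (hb : ‖b‖ = 1) (hab : 0 < (a * conj b).re)
    (hai : a ∈ sect i) (h1 : 0 ≤ (b * conj (ctr i)).im) (h2 : 0 ≤ (ctr (i + 1) * conj b).im)
    (h3 : 0 < (b * conj (mdir i)).re) {t : ℝ} (ht0 : 0 ≤ t) (ht1 : t ≤ 1) : nseg a b t ∈ sect i := by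
  rcases hai with h | ⟨k1, k2, k3⟩
  · rw [ha] at h
    exact absurd h (lt_irrefl _)
  · obtain ⟨hN, hN'⟩ := seg_norm ha hb hab ht0 ht1
    refine Or.inr ⟨?_, ?_, ?_⟩
    · have := seg_cond k1 h1 ht0 ht1 hN hN'
      have e : (nseg a b t * conj (ctr i)).im = ((1 - t) * (a * conj (ctr i)).im +
          t * (b * conj (ctr i)).im) / ‖((1 - t : ℝ) : ℂ) * a + ((t : ℝ) : ℂ) * b‖ := by
        unfold nseg
        rw [mul_assoc, Complex.im_ofReal_mul, add_mul, Complex.add_im, mul_assoc, mul_assoc,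
          Complex.im_ofReal_mul, Complex.im_ofReal_mul]
        ring
      rw [e]
      exact this
    · have := seg_cond k2 h2 ht0 ht1 hN hN'
      have e : (ctr (i + 1) * conj (nseg a b t)).im = ((1 - t) * (ctr (i + 1) * conj a).im +
          t * (ctr (i + 1) * conj b).im) / ‖((1 - t : ℝ) : ℂ) * a + ((t : ℝ) : ℂ) * b‖ := by
        unfold nseg
        rw [map_mul, map_add, map_mul, map_mul, Complex.conj_ofReal, Complex.conj_ofReal,
          Complex.conj_ofReal, mul_left_comm, Complex.im_ofReal_mul, mul_add, Complex.add_im,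
          mul_left_comm, mul_left_comm (ctr (i + 1)), Complex.im_ofReal_mul, Complex.im_ofReal_mul]
        ring
      rw [e]
      exact this
    · have := seg_pos k3 h3 ht0 ht1 hN
      have e : (nseg a b t * conj (mdir i)).re = ((1 - t) * (a * conj (mdir i)).re +
          t * (b * conj (mdir i)).re) / ‖((1 - t : ℝ) : ℂ) * a + ((t : ℝ) : ℂ) * b‖ := by
        unfold nseg
        rw [mul_assoc, Complex.re_ofReal_mul, add_mul, Complex.add_re, mul_assoc, mul_assoc,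
          Complex.re_ofReal_mul, Complex.re_ofReal_mul]
        ring
      rw [e]
      exact this

/-- connectedness of the circle part of a set `T`, given a centre `b` -/
theorem pc_circle_of_nseg {T : Set ℂ} {b : ℂ} (hb : ‖b‖ = 1) (hbT : b ∈ T)
    (h : ∀ a ∈ T, ‖a‖ = 1 → 0 < (a * conj b).re ∧ ∀ t : ℝ, 0 ≤ t → t ≤ 1 → nseg a b t ∈ T) :
    IsPathConnected (T ∩ Metric.sphere 0 1) := by
  refine ⟨b, ⟨hbT, by simpa using hb⟩, fun {a} ha => ?_⟩
  have ha1 : ‖a‖ = 1 := by simpa using ha.2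
  obtain ⟨h1, h2⟩ := h a ha.1 ha1
  have h3 := joinedIn_of_cont (F := T ∩ Metric.sphere 0 1) (nseg a b) (nseg_cont ha1 hb h1)
    (fun t ht => ⟨h2 t ht.1 ht.2, by simpa using nseg_norm ha1 hb h1 ht.1 ht.2⟩)
  rw [nseg_zero ha1, nseg_one hb] at h3
  exact h3.symm

/-! ## the directions -/

theorem ctr_rel (hG1 : Stmt_G1) (i : ZMod 12) :
    (ctr (i + 1) * conj (ctr i)).re = √3 / 2 ∧ (ctr (i + 1) * conj (ctr i)).im = 1 / 2 ∧
      (ctr i * conj (ctr i)).re = 1 ∧ (ctr i * conj (ctr i)).im = 0 ∧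
      (ctr i * conj (ctr (i + 1))).re = √3 / 2 ∧ (ctr i * conj (ctr (i + 1))).im = -(1 / 2) := by
  obtain ⟨h1, h2, h3, -, -⟩ := hG1
  have e1 : ctr i * conj (ctr i) = 1 := by
    rw [Complex.mul_conj, Complex.normSq_eq_norm_sq, h1 i]
    simp
  have e2 : ctr i * conj (ctr (i + 1)) = conj (ctr (i + 1) * conj (ctr i)) := by
    rw [map_mul, Complex.conj_conj, mul_comm]
  have e3 := h2 i
  rw [e2, Complex.conj_re] at e3
  refine ⟨e3, h3 i, by rw [e1]; rfl, by rw [e1]; rfl, ?_, ?_⟩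
  · rw [e2, Complex.conj_re]; exact e3
  · rw [e2, Complex.conj_im, h3 i]

theorem pc_circle_sect (hG1 : Stmt_G1) (i : ZMod 12) :
    IsPathConnected (sect i ∩ Metric.sphere 0 1) := by
  obtain ⟨r1, r2, r3, r4, r5, r6⟩ := ctr_rel hG1 i
  obtain ⟨-, -, s3, s4, -, -⟩ := ctr_rel hG1 (i + 1)
  have h3p : 0 < √3 := Real.sqrt_pos.mpr (by norm_num)
  have m1 : (mdir i * conj (ctr i)).im = 1 / 2 := by
    unfold mdir
    rw [add_mul, Complex.add_im, r4, r2]; norm_num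
  have m2 : (ctr (i + 1) * conj (mdir i)).im = 1 / 2 := by
    unfold mdir
    rw [map_add, mul_add, Complex.add_im, r2, s4]; norm_num
  have m0 : mdir i ≠ 0 := by
    intro h
    rw [h, zero_mul] at m1
    norm_num at m1
  have mN : 0 < ‖mdir i‖ := norm_pos_iff.mpr m0
  have m3 : (mdir i * conj (mdir i)).re = ‖mdir i‖ ^ 2 := by
    rw [Complex.mul_conj, Complex.normSq_eq_norm_sq, Complex.ofReal_re]
  set b : ℂ := ((1 / ‖mdir i‖ : ℝ) : ℂ) * mdir i with hb
  have hb1 : ‖b‖ = 1 := by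
    rw [hb, norm_mul, Complex.norm_real, Real.norm_eq_abs, abs_of_pos (by positivity)]
    field_simp
  have b1 : 0 ≤ (b * conj (ctr i)).im := by
    rw [hb, mul_assoc, Complex.im_ofReal_mul, m1]; positivity
  have b2 : 0 ≤ (ctr (i + 1) * conj b).im := by
    rw [hb, map_mul, Complex.conj_ofReal, mul_left_comm, Complex.im_ofReal_mul, m2]; positivity
  have b3 : 0 < (b * conj (mdir i)).re := by
    rw [hb, mul_assoc, Complex.re_ofReal_mul, m3]; positivity
  refine pc_circle_of_nseg hb1 (Or.inr ⟨by linarith, by linarith, b3⟩) fun a ha ha1 => ?_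
  have hab : 0 < (a * conj b).re := by
    rcases ha with h | ⟨-, -, k3⟩
    · rw [ha1] at h
      exact absurd h (lt_irrefl _)
    · rw [hb, map_mul, Complex.conj_ofReal, mul_left_comm, Complex.re_ofReal_mul]
      exact mul_pos (by positivity) k3
  exact ⟨hab, fun t h0 h1 => nseg_mem ha1 hb1 hab ha b1 b2 b3 h0 h1⟩

theorem pc_circle_sect2 (hG1 : Stmt_G1) (i : ZMod 12) :
    IsPathConnected ((sect i ∩ sect (i + 1)) ∩ Metric.sphere 0 1) := by
  obtain ⟨r1, r2, r3, r4, r5, r6⟩ := ctr_rel hG1 i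
  obtain ⟨s1, s2, s3, s4, s5, s6⟩ := ctr_rel hG1 (i + 1)
  have h3p : 0 < √3 := Real.sqrt_pos.mpr (by norm_num)
  have h33 : √3 ^ 2 = 3 := Real.sq_sqrt (by norm_num)
  have hb1 : ‖ctr (i + 1)‖ = 1 := hG1.1 (i + 1)
  have b1 : 0 ≤ (ctr (i + 1) * conj (ctr i)).im := by rw [r2]; norm_num
  have b2 : 0 ≤ (ctr (i + 1) * conj (ctr (i + 1))).im := by rw [s4]
  have b3 : 0 < (ctr (i + 1) * conj (mdir i)).re := by
    unfold mdir
    rw [map_add, mul_add, Complex.add_re, r1, s3]; positivity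
  have c2 : 0 ≤ (ctr (i + 1 + 1) * conj (ctr (i + 1))).im := by rw [s2]; norm_num
  have c3 : 0 < (ctr (i + 1) * conj (mdir (i + 1))).re := by
    unfold mdir
    rw [map_add, mul_add, Complex.add_re, s3, s5]; positivity
  refine pc_circle_of_nseg hb1 ⟨Or.inr ⟨by linarith, by linarith, b3⟩,
    Or.inr ⟨by linarith, by linarith, c3⟩⟩ fun a ha ha1 => ?_
  have hab : 0 < (a * conj (ctr (i + 1))).re := by
    obtain ⟨ha, ha'⟩ := ha
    rcases ha with h | ⟨-, -, k3⟩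
    · rw [ha1] at h
      exact absurd h (lt_irrefl _)
    rcases ha' with h | ⟨-, -, k3'⟩
    · rw [ha1] at h
      exact absurd h (lt_irrefl _)
    set c := ctr (i + 1) with hc
    have hcc : conj c * c = 1 := by
      rw [mul_comm, Complex.mul_conj, Complex.normSq_eq_norm_sq, hb1]; simp
    have f1 : conj (ctr i) = (c * conj (ctr i)) * conj c := by
      rw [mul_comm c, mul_assoc, mul_comm c, hcc, mul_one]
    have f2 : conj (ctr (i + 1 + 1)) = conj (ctr (i + 1 + 1) * conj c) * conj c := by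
      rw [map_mul, Complex.conj_conj, mul_assoc, mul_comm c, hcc, mul_one]
    have g1 : c * conj (ctr i) = ⟨√3 / 2, 1 / 2⟩ := Complex.ext r1 r2
    have g2 : conj (ctr (i + 1 + 1) * conj c) = ⟨√3 / 2, -(1 / 2)⟩ := by
      refine Complex.ext ?_ ?_
      · rw [Complex.conj_re]; exact s1
      · rw [Complex.conj_im, s2]
    have q1 : a * conj (mdir i) = (⟨√3 / 2, 1 / 2⟩ + 1) * (a * conj c) := by
      unfold mdir
      rw [map_add, f1, g1, ← hc]; ring
    have q2 : a * conj (mdir (i + 1)) = (⟨√3 / 2, -(1 / 2)⟩ + 1) * (a * conj c) := by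
      unfold mdir
      rw [map_add, f2, g2, ← hc]; ring
    rw [q1] at k3
    rw [q2] at k3'
    simp only [Complex.mul_re, Complex.add_re, Complex.add_im, Complex.one_re, Complex.one_im] at k3 k3' ⊢
    have h5 : 0 < (√3 + 2) * (a.re * (conj c).re - a.im * (conj c).im) := by nlinarith
    exact (pos_iff_pos_of_mul_pos h5).mp (by positivity)
  refine ⟨hab, fun t h0 h1 => ⟨?_, ?_⟩⟩
  · exact nseg_mem ha1 hb1 hab ha.1 b1 b2 b3 h0 h1
  · exact nseg_mem ha1 hb1 hab ha.2 b2 c2 c3 h0 h1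

/-! ## local coordinates -/

/-- the coordinates over a star-shaped set with connected circle part -/
theorem pc_Loc (hG6 : Stmt_G6) (hC1 : Stmt_C1) {T : Set ℂ}
    (hT : ∀ u ∈ T, ∀ t : ℝ, 0 ≤ t → t ≤ 1 → (t : ℂ) * u ∈ T)
    (hc : IsPathConnected (T ∩ Metric.sphere 0 1)) (d : Prop) :
    IsPathConnected (Loc d ∩ {x | x.1 ∈ T}) := by
  obtain ⟨-, -, -, -, -, -, hstar, hsm⟩ := hG6
  by_cases hd : d
  · -- defect
    obtain ⟨hqp, hqc, -, -, -⟩ := hC1
    have hqc : Continuous qq := hqc.continuous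
    -- the parameters
    set S : Set (ℂ × ℂ) := {x | x.1 ∈ T ∩ Metric.sphere 0 1 ∧
      ((√(1 + ‖x.2‖ ^ 2) : ℝ) : ℂ) * x.1 ∈ PPo ∩ T} with hS
    set φ : ℂ × ℂ → ℂ × ℂ := fun x => (((√(1 + ‖x.2‖ ^ 2) : ℝ) : ℂ) * x.1,
      ((1 / √(qq (‖x.2‖ ^ 2)) : ℝ) : ℂ) * x.2) with hφ
    have hφc : Continuous φ := by
      refine Continuous.prodMk ?_ ?_
      · fun_prop
      · refine Continuous.mul (Complex.continuous_ofReal.comp ?_) continuous_snd
        refine continuous_const.div ?_ fun x => (Real.sqrt_pos.mpr (hqp _)).ne'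
        exact (hqc.comp (continuous_snd.norm.pow 2)).sqrt
    have hpcS : IsPathConnected S := by
      refine pc_of_retract (K := (fun a : ℂ => ((a, 0) : ℂ × ℂ)) '' (T ∩ Metric.sphere 0 1)) ?_ ?_ ?_
      · rintro _ ⟨a, ha, rfl⟩
        refine ⟨ha, ?_⟩
        have ha1 : ‖a‖ = 1 := by simpa using ha.2
        simp only [norm_zero, ne_eq, OfNat.ofNat_ne_zero, not_false_eq_true, zero_pow, add_zero,
          Real.sqrt_one, Complex.ofReal_one, one_mul]
        refine ⟨fun j => ?_, ha.1⟩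
        have := hsm a (by rw [ha1]; norm_num) j
        linarith
      · exact hc.image (by fun_prop)
      · rintro ⟨a, z⟩ ⟨ha, hz⟩
        refine ⟨(a, 0), ⟨a, ha, rfl⟩, ?_⟩
        have h3 := joinedIn_of_cont (F := S) (fun t : ℝ => (a, ((1 - t : ℝ) : ℂ) * z))
          (by fun_prop) ?_
        · simpa using h3
        · intro t ht
          refine ⟨ha, ?_⟩
          simp only at hz ⊢
          have hp : 0 < √(1 + ‖z‖ ^ 2) := Real.sqrt_pos.mpr (by positivity)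
          have e1 : ((√(1 + ‖((1 - t : ℝ) : ℂ) * z‖ ^ 2) : ℝ) : ℂ) * a =
              ((√(1 + ‖((1 - t : ℝ) : ℂ) * z‖ ^ 2) / √(1 + ‖z‖ ^ 2) : ℝ) : ℂ) *
                (((√(1 + ‖z‖ ^ 2) : ℝ) : ℂ) * a) := by
            rw [← mul_assoc, ← Complex.ofReal_mul, div_mul_cancel₀ _ hp.ne']
          have e2 : √(1 + ‖((1 - t : ℝ) : ℂ) * z‖ ^ 2) / √(1 + ‖z‖ ^ 2) ≤ 1 := by
            rw [div_le_one hp]
            refine Real.sqrt_le_sqrt ?_
            have e3 : ‖((1 - t : ℝ) : ℂ) * z‖ ≤ ‖z‖ := by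
              rw [norm_mul, Complex.norm_real, Real.norm_eq_abs,
                abs_of_nonneg (by linarith [ht.2])]
              exact mul_le_of_le_one_left (norm_nonneg _) (by linarith [ht.1])
            have := pow_le_pow_left₀ (norm_nonneg _) e3 2
            linarith
          have e0 : 0 ≤ √(1 + ‖((1 - t : ℝ) : ℂ) * z‖ ^ 2) / √(1 + ‖z‖ ^ 2) := by positivity
          rw [e1]
          exact ⟨hstar _ hz.1 _ e0 e2, hT _ hz.2 _ e0 e2⟩
    have himg : Loc d ∩ {x | x.1 ∈ T} = φ '' S := by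
      refine Subset.antisymm ?_ ?_
      · rintro ⟨u, v⟩ ⟨⟨hu, -, huv⟩, huT⟩
        obtain ⟨hu1, huv⟩ := huv hd
        simp only at hu hu1 huv huT
        have hup : 0 < ‖u‖ := by linarith
        have hqv : 0 < qq (‖u‖ ^ 2 - 1) := hqp _
        have hsq : √(qq (‖u‖ ^ 2 - 1)) ^ 2 = qq (‖u‖ ^ 2 - 1) := Real.sq_sqrt hqv.le
        have hsp : 0 < √(qq (‖u‖ ^ 2 - 1)) := Real.sqrt_pos.mpr hqv
        set z : ℂ := ((√(qq (‖u‖ ^ 2 - 1)) : ℝ) : ℂ) * v with hz
        have hz2 : ‖z‖ ^ 2 = ‖u‖ ^ 2 - 1 := by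
          rw [hz, norm_mul, Complex.norm_real, Real.norm_eq_abs, abs_of_pos hsp, mul_pow, hsq]
          linarith
        have hsu : √(1 + ‖z‖ ^ 2) = ‖u‖ := by
          rw [hz2, show 1 + (‖u‖ ^ 2 - 1) = ‖u‖ ^ 2 by ring, Real.sqrt_sq hup.le]
        set a : ℂ := ((1 / ‖u‖ : ℝ) : ℂ) * u with ha
        have hau : ((‖u‖ : ℝ) : ℂ) * a = u := by
          rw [ha, ← mul_assoc, ← Complex.ofReal_mul, mul_one_div_cancel hup.ne', Complex.ofReal_one,
            one_mul]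
        have ha1 : ‖a‖ = 1 := by
          rw [ha, norm_mul, Complex.norm_real, Real.norm_eq_abs, abs_of_pos (by positivity)]
          field_simp
        refine ⟨(a, z), ⟨⟨?_, by simpa using ha1⟩, ?_⟩, ?_⟩
        · refine hT u huT _ (by positivity) ?_
          rw [div_le_one hup]
          exact hu1
        · simp only
          rw [hsu, hau]
          exact ⟨hu, huT⟩
        · simp only [hφ]
          rw [hsu, hau, hz2, hz, ← mul_assoc, ← Complex.ofReal_mul, one_div_mul_cancel hsp.ne',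
            Complex.ofReal_one, one_mul]
      · rintro _ ⟨⟨a, z⟩, ⟨⟨haT, ha1⟩, hz1, hz2⟩, rfl⟩
        simp only at haT ha1 hz1 hz2
        have ha1 : ‖a‖ = 1 := by simpa using ha1
        have hp : 0 < √(1 + ‖z‖ ^ 2) := Real.sqrt_pos.mpr (by positivity)
        have hn : ‖((√(1 + ‖z‖ ^ 2) : ℝ) : ℂ) * a‖ = √(1 + ‖z‖ ^ 2) := by
          rw [norm_mul, Complex.norm_real, Real.norm_eq_abs, abs_of_pos hp, ha1, mul_one]
        have hn2 : ‖((√(1 + ‖z‖ ^ 2) : ℝ) : ℂ) * a‖ ^ 2 = 1 + ‖z‖ ^ 2 := by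
          rw [hn, Real.sq_sqrt (by positivity)]
        have hqv : 0 < qq (‖z‖ ^ 2) := hqp _
        have hsq : √(qq (‖z‖ ^ 2)) ^ 2 = qq (‖z‖ ^ 2) := Real.sq_sqrt hqv.le
        have hsp : 0 < √(qq (‖z‖ ^ 2)) := Real.sqrt_pos.mpr hqv
        refine ⟨⟨hz1, fun h => absurd hd h, fun _ => ⟨?_, ?_⟩⟩, hz2⟩
        · simp only [hφ]
          rw [hn]
          refine Real.one_le_sqrt.mpr ?_
          have := sq_nonneg ‖z‖
          linarith
        · simp only [hφ]
          rw [hn2, norm_mul, Complex.norm_real, Real.norm_eq_abs, abs_of_pos (by positivity),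
            show 1 + ‖z‖ ^ 2 - 1 = ‖z‖ ^ 2 by ring, mul_pow, div_pow, hsq]
          field_simp
    rw [himg]
    exact hpcS.image hφc
  · -- not a defect
    have himg : Loc d ∩ {x | x.1 ∈ T} = (PPo ∩ T) ×ˢ Metric.sphere (0 : ℂ) 1 := by
      ext x
      constructor
      · rintro ⟨⟨h1, h2, -⟩, h3⟩
        exact ⟨⟨h1, h3⟩, by simpa using h2 hd⟩
      · rintro ⟨⟨h1, h3⟩, h2⟩
        exact ⟨⟨h1, fun _ => by simpa using h2, fun h => absurd h hd⟩, h3⟩
    rw [himg]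
    have h0 : (0 : ℂ) ∈ PPo ∩ T := by
      obtain ⟨a, ha, -⟩ := hc
      have h1 := hT a ha.1 0 le_rfl zero_le_one
      rw [Complex.ofReal_zero, zero_mul] at h1
      refine ⟨fun j => ?_, h1⟩
      have := hsm 0 (by norm_num) j
      linarith
    have hpc1 : IsPathConnected (PPo ∩ T) := by
      refine ⟨0, h0, fun {u} hu => ?_⟩
      have h3 := joinedIn_of_cont (F := PPo ∩ T) (fun t : ℝ => (t : ℂ) * u)
        (by fun_prop) (fun t ht => ⟨hstar u hu.1 t ht.1 ht.2, hT u hu.2 t ht.1 ht.2⟩)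
      simpa using h3
    exact hpc1.prod isPathConnected_circle

theorem Psi_cont (hG4 : Stmt_G4) (Mo : Model) (g : Mo.Q) :
    Continuous fun x : ℂ × ℂ => Psi Mo.L g x.1 x.2 := by
  obtain ⟨-, -, hmv, hbeta, -⟩ := hG4
  refine continuous_pi fun h => ?_
  unfold Psi
  refine continuous_finsetSum _ fun n _ => ?_
  by_cases hn : nbr Mo.L g n = h
  · simp only [if_pos hn]
    have dm : Continuous fun x : ℂ × ℂ => mv n x.1 := (hmv n).continuous.comp continuous_fst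
    have db : Continuous fun x : ℂ × ℂ => beta (mv n x.1) := hbeta.continuous.comp dm
    have dc : Continuous fun x : ℂ × ℂ => ((beta (mv n x.1) : ℝ) : ℂ) :=
      Complex.continuous_ofReal.comp db
    exact db.prodMk ((dc.mul dm).prodMk (dc.mul continuous_snd))
  · simp only [if_neg hn]
    exact continuous_const

theorem pc_Over (hG4 : Stmt_G4) (hG6 : Stmt_G6) (hC1 : Stmt_C1) {T : Set ℂ}
    (hT : ∀ u ∈ T, ∀ t : ℝ, 0 ≤ t → t ≤ 1 → (t : ℂ) * u ∈ T)
    (hc : IsPathConnected (T ∩ Metric.sphere 0 1)) (Mo : Model) (g : Mo.Q) :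
    IsPathConnected (Over Mo g T) := by
  have h1 := (pc_Loc hG6 hC1 hT hc (g ∈ Mo.D)).image (Psi_cont hG4 Mo g)
  have h2 : (Subtype.val '' Over Mo g T : Set (Amb Mo.Q)) =
      (fun x : ℂ × ℂ => Psi Mo.L g x.1 x.2) '' (Loc (g ∈ Mo.D) ∩ {x | x.1 ∈ T}) := by
    refine Subset.antisymm ?_ ?_
    · rintro _ ⟨p, ⟨u, v, h3, h4, h5⟩, rfl⟩
      exact ⟨(u, v), ⟨h3, h4⟩, h5.symm⟩
    · rintro _ ⟨⟨u, v⟩, ⟨h3, h4⟩, rfl⟩
      exact ⟨⟨Psi Mo.L g u v, g, u, v, h3, rfl⟩, ⟨u, v, h3, h4, rfl⟩, rfl⟩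
  rw [← h2] at h1
  exact (Topology.IsInducing.subtypeVal.isPathConnected_iff).mpr h1

end GE6

/-- Block GE6 -/
theorem stmt_GE6 (hG1 : Stmt_G1) (hG4 : Stmt_G4) (hG6 : Stmt_G6) (hC1 : Stmt_C1) (h1 : Stmt_GE1)
    (h3 : Stmt_GE3) : Stmt_GE6 := by
  obtain ⟨-, -, hst, -⟩ := h1
  intro Mo
  refine ⟨fun f => ?_, fun f => ?_, fun g => ?_⟩
  · exact GE6.pc_Over hG4 hG6 hC1 (hst f.2) (GE6.pc_circle_sect hG1 f.2) Mo f.1
  · have e : US Mo f ∩ US Mo (Mo.fr f) = Over Mo f.1 (sect f.2 ∩ sect (f.2 + 1)) := by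
      obtain ⟨-, -, -, -, -, h6, -⟩ := h3 Mo
      ext p
      change p ∈ Over Mo f.1 (sect f.2) ∧ p ∈ Over Mo f.1 (sect (f.2 + 1)) ↔ _
      rw [h6, h6, h6]
      exact ⟨fun h => ⟨h.1.1, h.1.2, h.2.2⟩, fun h => ⟨⟨h.1, h.2.1⟩, h.1, h.2.2⟩⟩
    rw [e]
    exact GE6.pc_Over hG4 hG6 hC1
      (T := sect f.2 ∩ sect (f.2 + 1))
      (fun u hu t h0 h1 => ⟨hst f.2 u hu.1 t h0 h1, hst (f.2 + 1) u hu.2 t h0 h1⟩)
      (GE6.pc_circle_sect2 hG1 f.2) Mo f.1
  · refine GE6.pc_Over hG4 hG6 hC1 (fun _ _ _ _ _ => mem_univ _) ?_ Mo g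
    rw [univ_inter]
    exact GE6.isPathConnected_circle

end Pool.CX
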