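import Pool.Agent.Work.MP_727c87_cx.E2.Geo

/-!
# Part (E2), block GE7 (helper53): null-homotopies
-/

set_option autoImplicit false

open Set Topology Complex ComplexConjugate
open scoped ContDiff NNReal unitInterval

noncomputable section

namespace Pool.CX

namespace GE7

variable {Mo : Model}

lemma blk_cont (hG4 : Stmt_G4) {X : Type} [TopologicalSpace X] {a b : X → ℂ} (ha : Continuous a)
    (hb : Continuous b) : Continuous (fun x => blk (a x) (b x)) := by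
  have hbeta : Continuous beta := hG4.2.2.2.1.continuous
  have h1 : Continuous (fun x => beta (a x)) := hbeta.comp ha
  unfold blk
  exact h1.prodMk (((continuous_ofReal.comp h1).mul ha).prodMk ((continuous_ofReal.comp h1).mul hb))

lemma Psi_cont (hG4 : Stmt_G4) (g : Mo.Q) {X : Type} [TopologicalSpace X] {a b : X → ℂ}
    (ha : Continuous a) (hb : Continuous b) : Continuous (fun x => Psi Mo.L g (a x) (b x)) := by
  refine continuous_pi (fun h => ?_)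
  unfold Psi
  refine continuous_finsetSum _ (fun n _ => ?_)
  by_cases hn : nbr Mo.L g n = h
  · simp only [if_pos hn]
    exact blk_cont hG4 ((hG4.2.2.1 n).continuous.comp ha) hb
  · simp only [if_neg hn]
    exact continuous_const

/-- homotopies given by coordinates in one chart -/
lemma mkH (hG4 : Stmt_G4) (g : Mo.Q) {X : Type} [TopologicalSpace X] (f0 f1 : C(X, Mo.SS))
    (a b : I × X → ℂ) (ha : Continuous a) (hb : Continuous b)
    (hL : ∀ x, (a x, b x) ∈ Loc (g ∈ Mo.D))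
    (h0 : ∀ x, (f0 x : Amb Mo.Q) = Psi Mo.L g (a (0, x)) (b (0, x)))
    (h1 : ∀ x, (f1 x : Amb Mo.Q) = Psi Mo.L g (a (1, x)) (b (1, x))) : f0.Homotopic f1 :=
  ⟨{ toFun := fun x => ⟨Psi Mo.L g (a x) (b x), ⟨g, _, _, hL x, rfl⟩⟩
     continuous_toFun := (Psi_cont hG4 g ha hb).subtype_mk _
     map_zero_left := fun x => Subtype.ext (h0 x).symm
     map_one_left := fun x => Subtype.ext (h1 x).symm }⟩

/-- the inclusion -/
def inc {M : Type} [TopologicalSpace M] (U : Set M) : C(U, M) := ⟨Subtype.val, continuous_subtype_val⟩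

lemma null_of_hom {M : Type} [TopologicalSpace M] {U : Set M} (ms : M)
    (h : (inc U).Homotopic (ContinuousMap.const U ms)) : NullIncl U := by
  obtain ⟨H⟩ := h
  exact ⟨ms, H.toContinuousMap, fun m => H.apply_zero m, fun m => H.apply_one m⟩

lemma null_mono {M : Type} [TopologicalSpace M] {U V : Set M} (hUV : U ⊆ V) (h : NullIncl V) :
    NullIncl U := by
  obtain ⟨ms, H, h0, h1⟩ := h
  let j : C(U, V) := ⟨fun m => ⟨m.1, hUV m.2⟩, by fun_prop⟩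
  let k : C(I × U, I × V) := ⟨fun x => (x.1, j x.2), by fun_prop⟩
  exact ⟨ms, H.comp k, fun m => h0 (j m), fun m => h1 (j m)⟩

/-- multiplication of the last component by `w` -/
def rotL (w : ℂ) : (ℝ × ℂ × ℂ) →+ (ℝ × ℂ × ℂ) where
  toFun x := (x.1, x.2.1, w * x.2.2)
  map_zero' := by simp
  map_add' x y := by
    refine Prod.ext rfl (Prod.ext rfl ?_)
    simp [mul_add]

lemma rotL_blk (w u v : ℂ) : rotL w (blk u v) = blk u (w * v) := by
  refine Prod.ext rfl (Prod.ext rfl ?_)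
  show w * ((beta u : ℂ) * v) = (beta u : ℂ) * (w * v)
  ring

lemma rotL_Psi (w : ℂ) (g : Mo.Q) (u v : ℂ) (h : Mo.Q) :
    rotL w (Psi Mo.L g u v h) = Psi Mo.L g u (w * v) h := by
  unfold Psi
  rw [map_sum]
  apply Finset.sum_congr rfl
  intro n _
  by_cases hn : nbr Mo.L g n = h
  · rw [if_pos hn, if_pos hn, rotL_blk]
  · rw [if_neg hn, if_neg hn, map_zero]

lemma Loc_rot {d : Prop} {w u v : ℂ} (hw : ‖w‖ = 1) (h : (u, v) ∈ Loc d) : (u, w * v) ∈ Loc d := by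
  obtain ⟨h1, h2, h3⟩ := h
  have e : ‖w * v‖ = ‖v‖ := by rw [norm_mul, hw, one_mul]
  refine ⟨h1, fun hd => ?_, fun hd => ?_⟩
  · show ‖w * v‖ = 1
    rw [e]; exact h2 hd
  · show 1 ≤ ‖u‖ ∧ ‖w * v‖ ^ 2 * qq (‖u‖ ^ 2 - 1) = ‖u‖ ^ 2 - 1
    rw [e]; exact h3 hd

lemma rot_mem (w : ℂ) (hw : ‖w‖ = 1) (p : Amb Mo.Q) (hp : p ∈ Mo.SS) :
    (fun h => rotL w (p h)) ∈ Mo.SS := by
  obtain ⟨g, u, v, hL, rfl⟩ := hp
  exact ⟨g, u, w * v, Loc_rot hw hL, funext (fun h => rotL_Psi w g u v h)⟩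

/-- coordinates on `Over` -/
lemma cu_cont (g : Mo.Q) {X : Type} [TopologicalSpace X] (f : X → Amb Mo.Q) (hf : Continuous f)
    (h : ∀ x, 0 < (f x g).1) : Continuous (fun x => cu g (f x)) := by
  have h1 : Continuous (fun x => f x g) := (continuous_apply g).comp hf
  unfold cu
  refine Continuous.mul (Continuous.inv₀ (continuous_ofReal.comp (continuous_fst.comp h1)) ?_)
    (continuous_fst.comp (continuous_snd.comp h1))
  intro x
  exact_mod_cast (h x).ne'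

lemma cv_cont (g : Mo.Q) {X : Type} [TopologicalSpace X] (f : X → Amb Mo.Q) (hf : Continuous f)
    (h : ∀ x, 0 < (f x g).1) : Continuous (fun x => cv g (f x)) := by
  have h1 : Continuous (fun x => f x g) := (continuous_apply g).comp hf
  unfold cv
  refine Continuous.mul (Continuous.inv₀ (continuous_ofReal.comp (continuous_fst.comp h1)) ?_)
    (continuous_snd.comp (continuous_snd.comp h1))
  intro x
  exact_mod_cast (h x).ne'

lemma unit_PPo (hG6 : Stmt_G6) {a : ℂ} (ha : ‖a‖ = 1) : a ∈ PPo := by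
  apply hG6.2.2.2.1
  intro j
  have := hG6.2.2.2.2.2.2.2 a (by rw [ha]; norm_num) j
  linarith

lemma core_Loc (hG6 : Stmt_G6) {d : Prop} (hd : d) {a : ℂ} (ha : ‖a‖ = 1) : (a, (0 : ℂ)) ∈ Loc d := by
  refine ⟨unit_PPo hG6 ha, fun h => absurd hd h, fun _ => ⟨ha.ge, ?_⟩⟩
  show ‖(0 : ℂ)‖ ^ 2 * qq (‖a‖ ^ 2 - 1) = ‖a‖ ^ 2 - 1
  rw [ha]; simp

lemma exists_defect (Mo : Model) : ∃ h, h ∈ Mo.D := by
  obtain ⟨q⟩ := Mo.nonempty
  obtain ⟨n, v, -, hv, -⟩ := Mo.cut q 0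
  exact ⟨_, hv⟩

/-! ### Non-defect chambers -/

lemma nondefect (hG1 : Stmt_G1) (hG4 : Stmt_G4) (hG6 : Stmt_G6) (h3 : Stmt_GE3) (h0 : Stmt_GE0)
    (Mo : Model) (g : Mo.Q) (hg : g ∉ Mo.D) : NullIncl (Over Mo g univ) := by
  obtain ⟨-, e2, -, -, -, e6, -⟩ := h3 Mo
  obtain ⟨h, hh⟩ := exists_defect Mo
  have hL0 : (ctr 0, (0 : ℂ)) ∈ Loc (h ∈ Mo.D) := core_Loc hG6 hh (hG1.1 0)
  set p0 : Mo.SS := ⟨Psi Mo.L h (ctr 0) 0, ⟨h, _, _, hL0, rfl⟩⟩ with hp0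
  have hz : (0 : ℂ) ∈ PPo := by
    apply hG6.2.2.2.1
    intro j
    have := hG6.2.2.2.2.2.2.2 0 (by simp) j
    linarith
  have hLz : ∀ v : ℂ, ‖v‖ = 1 → ((0 : ℂ), v) ∈ Loc (g ∈ Mo.D) := fun v hv =>
    ⟨hz, fun _ => hv, fun hd => absurd hd hg⟩
  set p1 : Mo.SS := ⟨Psi Mo.L g 0 1, ⟨g, _, _, hLz 1 (by simp), rfl⟩⟩ with hp1
  have pos : ∀ m : Over Mo g univ, 0 < ((m.1 : Amb Mo.Q) g).1 := fun m => ((e6 g univ m.1).1 m.2).1
  have loc : ∀ m : Over Mo g univ, (cu g (m.1 : Amb Mo.Q), cv g (m.1 : Amb Mo.Q)) ∈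
      Loc (g ∈ Mo.D) := fun m => (e2 m.1 g (pos m)).1
  have eqn : ∀ m : Over Mo g univ, (m.1 : Amb Mo.Q) = Psi Mo.L g (cu g (m.1 : Amb Mo.Q))
      (cv g (m.1 : Amb Mo.Q)) := fun m => (e2 m.1 g (pos m)).2
  have hc : Continuous (fun m : Over Mo g univ => (m.1 : Amb Mo.Q)) :=
    continuous_subtype_val.comp continuous_subtype_val
  have ucont : Continuous (fun m : Over Mo g univ => cu g (m.1 : Amb Mo.Q)) := cu_cont g _ hc pos
  have vcont : Continuous (fun m : Over Mo g univ => cv g (m.1 : Amb Mo.Q)) := cv_cont g _ hc pos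
  have vn : ∀ m : Over Mo g univ, ‖cv g (m.1 : Amb Mo.Q)‖ = 1 := fun m => (loc m).2.1 hg
  let f1 : C(Over Mo g univ, Mo.SS) :=
    ⟨fun m => ⟨Psi Mo.L g 0 (cv g (m.1 : Amb Mo.Q)), ⟨g, _, _, hLz _ (vn m), rfl⟩⟩,
      (Psi_cont hG4 g continuous_const vcont).subtype_mk _⟩
  have H1 : (inc (Over Mo g univ)).Homotopic f1 := by
    refine mkH hG4 g _ _ (fun x => ((1 - (x.1 : ℝ) : ℝ) : ℂ) * cu g (x.2.1 : Amb Mo.Q))
      (fun x => cv g (x.2.1 : Amb Mo.Q)) ?_ (vcont.comp continuous_snd) ?_ ?_ ?_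
    · refine Continuous.mul ?_ (ucont.comp continuous_snd)
      exact continuous_ofReal.comp (continuous_const.sub (continuous_subtype_val.comp continuous_fst))
    · intro x
      refine ⟨?_, fun _ => vn x.2, fun hd => absurd hd hg⟩
      exact hG6.2.2.2.2.2.2.1 _ (loc x.2).1 _ (sub_nonneg.2 x.1.2.2) (by linarith [x.1.2.1])
    · intro m
      show (m.1 : Amb Mo.Q) = Psi Mo.L g (((1 - ((0 : I) : ℝ) : ℝ) : ℂ) * cu g (m.1 : Amb Mo.Q))
        (cv g (m.1 : Amb Mo.Q))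
      rw [Icc.coe_zero, sub_zero, ofReal_one, one_mul]
      exact eqn m
    · intro m
      show Psi Mo.L g 0 (cv g (m.1 : Amb Mo.Q)) = Psi Mo.L g
        (((1 - ((1 : I) : ℝ) : ℝ) : ℂ) * cu g (m.1 : Amb Mo.Q)) (cv g (m.1 : Amb Mo.Q))
      rw [Icc.coe_one, sub_self, ofReal_zero, zero_mul]
  have := h0 Mo
  let β : Path p1 p0 := PathConnectedSpace.somePath p1 p0
  have H2 : f1.Homotopic (ContinuousMap.const _ p0) := by
    refine ⟨{ toFun := fun x => ⟨fun k => rotL (cv g (x.2.1 : Amb Mo.Q)) ((β x.1 : Amb Mo.Q) k),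
                rot_mem _ (vn x.2) _ (β x.1).2⟩
              continuous_toFun := ?_
              map_zero_left := ?_
              map_one_left := ?_ }⟩
    · refine Continuous.subtype_mk (continuous_pi (fun k => ?_)) _
      have hb : Continuous (fun x : I × Over Mo g univ => (β x.1 : Amb Mo.Q) k) :=
        (continuous_apply k).comp (continuous_subtype_val.comp (β.continuous.comp continuous_fst))
      show Continuous (fun x : I × Over Mo g univ => (((β x.1 : Amb Mo.Q) k).1,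
        ((β x.1 : Amb Mo.Q) k).2.1, cv g (x.2.1 : Amb Mo.Q) * ((β x.1 : Amb Mo.Q) k).2.2))
      exact (continuous_fst.comp hb).prodMk (((continuous_fst.comp (continuous_snd.comp hb))).prodMk
        ((vcont.comp continuous_snd).mul (continuous_snd.comp (continuous_snd.comp hb))))
    · intro m
      apply Subtype.ext
      funext k
      show rotL (cv g (m.1 : Amb Mo.Q)) ((β 0 : Amb Mo.Q) k) = Psi Mo.L g 0 (cv g (m.1 : Amb Mo.Q)) k
      rw [β.source]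
      show rotL (cv g (m.1 : Amb Mo.Q)) (Psi Mo.L g 0 1 k) = _
      rw [rotL_Psi, mul_one]
    · intro m
      apply Subtype.ext
      funext k
      show rotL (cv g (m.1 : Amb Mo.Q)) ((β 1 : Amb Mo.Q) k) = Psi Mo.L h (ctr 0) 0 k
      rw [β.target]
      show rotL (cv g (m.1 : Amb Mo.Q)) (Psi Mo.L h (ctr 0) 0 k) = _
      rw [rotL_Psi, mul_zero]
  exact null_of_hom p0 (H1.trans H2)

/-! ### Defect chambers -/

/-- the scaled point of the solid torus of a defect chamber -/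
lemma scale_Loc (hG6 : Stmt_G6) (hq : ∀ s, 0 < qq s) {d : Prop} (hd : d) {u v : ℂ}
    (h : (u, v) ∈ Loc d) (r : ℝ) (hr0 : 0 ≤ r) (hr1 : r ≤ 1) :
    (((√(1 + r ^ 2 * (‖u‖ ^ 2 - 1)) / ‖u‖ : ℝ) : ℂ) * u,
      ((r * √(qq (‖u‖ ^ 2 - 1)) / √(qq (r ^ 2 * (‖u‖ ^ 2 - 1))) : ℝ) : ℂ) * v) ∈ Loc d := by
  obtain ⟨h1, -, h3⟩ := h
  obtain ⟨h4, h5⟩ := h3 hd
  have h1' : u ∈ PPo := h1
  have hu1 : 1 ≤ ‖u‖ := h4
  have huv : ‖v‖ ^ 2 * qq (‖u‖ ^ 2 - 1) = ‖u‖ ^ 2 - 1 := h5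
  have hu0 : 0 < ‖u‖ := by linarith
  set X : ℝ := ‖u‖ ^ 2 - 1 with hX
  have hX0 : 0 ≤ X := by rw [hX]; nlinarith
  have hρ0 : 0 ≤ r ^ 2 * X := by positivity
  have hr2 : r ^ 2 ≤ 1 := by nlinarith
  have hρX : r ^ 2 * X ≤ X := by nlinarith
  have hs0 : 0 ≤ √(1 + r ^ 2 * X) := Real.sqrt_nonneg _
  have hssq : √(1 + r ^ 2 * X) ^ 2 = 1 + r ^ 2 * X := Real.sq_sqrt (by linarith)
  have hsu : √(1 + r ^ 2 * X) ≤ ‖u‖ := by
    rw [Real.sqrt_le_left hu0.le]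
    rw [hX] at hρX ⊢
    linarith
  have hn1 : ‖((√(1 + r ^ 2 * X) / ‖u‖ : ℝ) : ℂ) * u‖ = √(1 + r ^ 2 * X) := by
    rw [norm_mul, norm_real, Real.norm_of_nonneg (by positivity)]
    field_simp
  have hq1 := hq X
  have hq2 := hq (r ^ 2 * X)
  have hn2 : ‖((r * √(qq X) / √(qq (r ^ 2 * X)) : ℝ) : ℂ) * v‖ ^ 2 * qq (r ^ 2 * X) =
      r ^ 2 * X := by
    rw [norm_mul, norm_real, Real.norm_of_nonneg (by positivity), mul_pow, div_pow, mul_pow,
      Real.sq_sqrt hq1.le, Real.sq_sqrt hq2.le]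
    have e : r ^ 2 * qq X / qq (r ^ 2 * X) * ‖v‖ ^ 2 * qq (r ^ 2 * X) =
        r ^ 2 * (‖v‖ ^ 2 * qq X) := by
      field_simp
    rw [e, huv]
  refine ⟨?_, fun hn => absurd hd hn, fun _ => ⟨?_, ?_⟩⟩
  · refine hG6.2.2.2.2.2.2.1 u h1' _ (by positivity) ?_
    rw [div_le_one hu0]
    exact hsu
  · show 1 ≤ ‖((√(1 + r ^ 2 * X) / ‖u‖ : ℝ) : ℂ) * u‖
    rw [hn1, Real.one_le_sqrt]
    linarith
  · show ‖((r * √(qq X) / √(qq (r ^ 2 * X)) : ℝ) : ℂ) * v‖ ^ 2 *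
      qq (‖((√(1 + r ^ 2 * X) / ‖u‖ : ℝ) : ℂ) * u‖ ^ 2 - 1) =
      ‖((√(1 + r ^ 2 * X) / ‖u‖ : ℝ) : ℂ) * u‖ ^ 2 - 1
    have e1 : ‖((√(1 + r ^ 2 * X) / ‖u‖ : ℝ) : ℂ) * u‖ ^ 2 - 1 = r ^ 2 * X := by
      rw [hn1, hssq]; ring
    rw [e1]
    exact hn2

lemma mdir_ne (hG1 : Stmt_G1) (i : ZMod 12) : mdir i ≠ 0 := by
  intro h
  have h1 : ctr (i + 1) = -ctr i := by
    unfold mdir at h
    linear_combination h
  have h2 := hG1.2.1 i
  rw [h1, map_neg, mul_neg, neg_re] at h2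
  have h3 : ctr i * conj (ctr i) = 1 := by
    rw [mul_conj, normSq_eq_norm_sq, hG1.1 i]; simp
  rw [h3, one_re] at h2
  have := Real.sqrt_nonneg 3
  linarith

lemma defect (hG1 : Stmt_G1) (hG4 : Stmt_G4) (hG6 : Stmt_G6) (hC1 : Stmt_C1) (h3 : Stmt_GE3)
    (Mo : Model) (f : Mo.F) (hg : f.1 ∈ Mo.D) : NullIncl (US Mo f) := by
  obtain ⟨g, i⟩ := f
  have hg' : g ∈ Mo.D := hg
  obtain ⟨hq, hqs, -, -, -⟩ := hC1
  have hqc : Continuous qq := hqs.continuous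
  obtain ⟨-, e2, -, -, -, e6, -⟩ := h3 Mo
  have hUS : US Mo (g, i) = Over Mo g (sect i) := rfl
  rw [hUS]
  set U := Over Mo g (sect i) with hU
  have pos : ∀ m : U, 0 < ((m.1 : Amb Mo.Q) g).1 := fun m => ((e6 g (sect i) m.1).1 m.2).1
  have sec : ∀ m : U, cu g (m.1 : Amb Mo.Q) ∈ sect i := fun m => ((e6 g (sect i) m.1).1 m.2).2
  have loc : ∀ m : U, (cu g (m.1 : Amb Mo.Q), cv g (m.1 : Amb Mo.Q)) ∈ Loc (g ∈ Mo.D) :=
    fun m => (e2 m.1 g (pos m)).1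
  have eqn : ∀ m : U, (m.1 : Amb Mo.Q) = Psi Mo.L g (cu g (m.1 : Amb Mo.Q))
      (cv g (m.1 : Amb Mo.Q)) := fun m => (e2 m.1 g (pos m)).2
  have hc : Continuous (fun m : U => (m.1 : Amb Mo.Q)) :=
    continuous_subtype_val.comp continuous_subtype_val
  set u : U → ℂ := fun m => cu g (m.1 : Amb Mo.Q) with hu
  set v : U → ℂ := fun m => cv g (m.1 : Amb Mo.Q) with hv
  have ucont : Continuous u := cu_cont g _ hc pos
  have vcont : Continuous v := cv_cont g _ hc pos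
  have un : ∀ m, 1 ≤ ‖u m‖ := fun m => ((loc m).2.2 hg').1
  have unc : Continuous (fun m => ‖u m‖) := ucont.norm
  have hu0 : ∀ m, ‖u m‖ ≠ 0 := fun m => by
    have := un m
    intro h
    rw [h] at this
    norm_num at this
  set b0 : ℂ := ((1 / ‖mdir i‖ : ℝ) : ℂ) * mdir i with hb0
  have hmd : 0 < ‖mdir i‖ := norm_pos_iff.2 (mdir_ne hG1 i)
  have hb1 : ‖b0‖ = 1 := by
    rw [hb0, norm_mul, norm_real, Real.norm_of_nonneg (by positivity)]
    field_simp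
  set a0 : U → ℂ := fun m => ((1 / ‖u m‖ : ℝ) : ℂ) * u m with ha0
  have ha0n : ∀ m, ‖a0 m‖ = 1 := by
    intro m
    have h0 : (0 : ℝ) < ‖u m‖ := by linarith [un m]
    show ‖((1 / ‖u m‖ : ℝ) : ℂ) * u m‖ = 1
    rw [norm_mul, norm_real, Real.norm_of_nonneg (by positivity)]
    field_simp
  have ha0c : Continuous a0 :=
    (continuous_ofReal.comp (continuous_const.div unc hu0)).mul ucont
  let f1 : C(U, Mo.SS) :=
    ⟨fun m => ⟨Psi Mo.L g (a0 m) 0, ⟨g, _, _, core_Loc hG6 hg' (ha0n m), rfl⟩⟩,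
      (Psi_cont hG4 g ha0c continuous_const).subtype_mk _⟩
  set p0 : Mo.SS := ⟨Psi Mo.L g b0 0, ⟨g, _, _, core_Loc hG6 hg' hb1, rfl⟩⟩ with hp0
  have H1 : (inc U).Homotopic f1 := by
    have hX : Continuous (fun x : I × U => ‖u x.2‖ ^ 2 - 1) :=
      ((unc.comp continuous_snd).pow 2).sub continuous_const
    have hr : Continuous (fun x : I × U => 1 - (x.1 : ℝ)) :=
      continuous_const.sub (continuous_subtype_val.comp continuous_fst)
    have hrX : Continuous (fun x : I × U => (1 - (x.1 : ℝ)) ^ 2 * (‖u x.2‖ ^ 2 - 1)) :=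
      (hr.pow 2).mul hX
    refine mkH hG4 g _ _
      (fun x => ((√(1 + (1 - (x.1 : ℝ)) ^ 2 * (‖u x.2‖ ^ 2 - 1)) / ‖u x.2‖ : ℝ) : ℂ) * u x.2)
      (fun x => (((1 - (x.1 : ℝ)) * √(qq (‖u x.2‖ ^ 2 - 1)) /
        √(qq ((1 - (x.1 : ℝ)) ^ 2 * (‖u x.2‖ ^ 2 - 1))) : ℝ) : ℂ) * v x.2) ?_ ?_ ?_ ?_ ?_
    · refine (continuous_ofReal.comp (Continuous.div ?_ (unc.comp continuous_snd) ?_)).mul
        (ucont.comp continuous_snd)
      · exact Real.continuous_sqrt.comp (continuous_const.add hrX)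
      · exact fun x => hu0 x.2
    · refine (continuous_ofReal.comp (Continuous.div ?_ ?_ ?_)).mul (vcont.comp continuous_snd)
      · exact hr.mul (Real.continuous_sqrt.comp (hqc.comp hX))
      · exact Real.continuous_sqrt.comp (hqc.comp hrX)
      · exact fun x => (Real.sqrt_pos.2 (hq _)).ne'
    · intro x
      exact scale_Loc hG6 hq hg' (loc x.2) (1 - (x.1 : ℝ)) (sub_nonneg.2 x.1.2.2)
        (by linarith [x.1.2.1])
    · intro m
      show (m.1 : Amb Mo.Q) = Psi Mo.L g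
        (((√(1 + (1 - ((0 : I) : ℝ)) ^ 2 * (‖u m‖ ^ 2 - 1)) / ‖u m‖ : ℝ) : ℂ) * u m)
        ((((1 - ((0 : I) : ℝ)) * √(qq (‖u m‖ ^ 2 - 1)) /
          √(qq ((1 - ((0 : I) : ℝ)) ^ 2 * (‖u m‖ ^ 2 - 1))) : ℝ) : ℂ) * v m)
      have e1 : √(1 + (1 - ((0 : I) : ℝ)) ^ 2 * (‖u m‖ ^ 2 - 1)) / ‖u m‖ = 1 := by
        rw [Icc.coe_zero]
        have : (1 : ℝ) + (1 - 0) ^ 2 * (‖u m‖ ^ 2 - 1) = ‖u m‖ ^ 2 := by ring
        rw [this, Real.sqrt_sq (norm_nonneg _), div_self (hu0 m)]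
      have e3 : (1 - ((0 : I) : ℝ)) * √(qq (‖u m‖ ^ 2 - 1)) /
          √(qq ((1 - ((0 : I) : ℝ)) ^ 2 * (‖u m‖ ^ 2 - 1))) = 1 := by
        rw [Icc.coe_zero, sub_zero, one_pow, one_mul, one_mul]
        exact div_self (Real.sqrt_pos.2 (hq _)).ne'
      rw [e1, e3, ofReal_one, one_mul, one_mul]
      exact eqn m
    · intro m
      show Psi Mo.L g (((1 / ‖u m‖ : ℝ) : ℂ) * u m) 0 = Psi Mo.L g
        (((√(1 + (1 - ((1 : I) : ℝ)) ^ 2 * (‖u m‖ ^ 2 - 1)) / ‖u m‖ : ℝ) : ℂ) * u m)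
        ((((1 - ((1 : I) : ℝ)) * √(qq (‖u m‖ ^ 2 - 1)) /
          √(qq ((1 - ((1 : I) : ℝ)) ^ 2 * (‖u m‖ ^ 2 - 1))) : ℝ) : ℂ) * v m)
      have e1 : √(1 + (1 - ((1 : I) : ℝ)) ^ 2 * (‖u m‖ ^ 2 - 1)) / ‖u m‖ = 1 / ‖u m‖ := by
        rw [Icc.coe_one, sub_self]
        norm_num
      have e3 : (1 - ((1 : I) : ℝ)) * √(qq (‖u m‖ ^ 2 - 1)) /
          √(qq ((1 - ((1 : I) : ℝ)) ^ 2 * (‖u m‖ ^ 2 - 1))) = 0 := by
        rw [Icc.coe_one, sub_self, zero_mul, zero_div]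
      rw [e1, e3, ofReal_zero, zero_mul]
  have H2 : f1.Homotopic (ContinuousMap.const _ p0) := by
    have key : ∀ x : I × U, ((1 - (x.1 : ℝ) : ℝ) : ℂ) * a0 x.2 + ((x.1 : ℝ) : ℂ) * b0 ≠ 0 := by
      intro x hx
      have hre : 0 < (a0 x.2 * conj b0).re := by
        have h1 := sec x.2
        have h2 : 0 < (u x.2 * conj (mdir i)).re := by
          rcases h1 with h1 | h1
          · exact absurd h1 (not_lt.2 (un x.2))
          · exact h1.2.2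
        have e : a0 x.2 * conj b0 = ((1 / ‖u x.2‖ * (1 / ‖mdir i‖) : ℝ) : ℂ) *
            (u x.2 * conj (mdir i)) := by
          show ((1 / ‖u x.2‖ : ℝ) : ℂ) * u x.2 * conj (((1 / ‖mdir i‖ : ℝ) : ℂ) * mdir i) = _
          rw [map_mul, conj_ofReal, ofReal_mul]
          ring
        rw [e, re_ofReal_mul]
        have h0 : (0 : ℝ) < ‖u x.2‖ := by linarith [un x.2]
        positivity
      have hbb : (b0 * conj b0).re = 1 := by
        rw [mul_conj, normSq_eq_norm_sq, hb1]; simp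
      have h4 : ((((1 - (x.1 : ℝ) : ℝ) : ℂ) * a0 x.2 + ((x.1 : ℝ) : ℂ) * b0) * conj b0).re =
          (1 - (x.1 : ℝ)) * (a0 x.2 * conj b0).re + (x.1 : ℝ) := by
        have e4 : (((1 - (x.1 : ℝ) : ℝ) : ℂ) * a0 x.2 + ((x.1 : ℝ) : ℂ) * b0) * conj b0 =
            ((1 - (x.1 : ℝ) : ℝ) : ℂ) * (a0 x.2 * conj b0) + ((x.1 : ℝ) : ℂ) * (b0 * conj b0) := by
          ring
        rw [e4, add_re, re_ofReal_mul, re_ofReal_mul, hbb, mul_one]
      rw [hx, zero_mul, zero_re] at h4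
      have h5 := x.1.2.1
      have h6 := x.1.2.2
      rcases h5.lt_or_eq with h7 | h7
      · have : 0 ≤ (1 - (x.1 : ℝ)) * (a0 x.2 * conj b0).re :=
          mul_nonneg (by linarith) hre.le
        linarith
      · rw [← h7] at h4
        rw [sub_zero, one_mul, add_zero] at h4
        linarith
    have hw : Continuous (fun x : I × U =>
        ((1 - (x.1 : ℝ) : ℝ) : ℂ) * a0 x.2 + ((x.1 : ℝ) : ℂ) * b0) := by
      have h1 : Continuous (fun x : I × U => (x.1 : ℝ)) :=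
        continuous_subtype_val.comp continuous_fst
      exact ((continuous_ofReal.comp (continuous_const.sub h1)).mul
        (ha0c.comp continuous_snd)).add ((continuous_ofReal.comp h1).mul continuous_const)
    refine mkH hG4 g _ _
      (fun x => ((1 / ‖((1 - (x.1 : ℝ) : ℝ) : ℂ) * a0 x.2 + ((x.1 : ℝ) : ℂ) * b0‖ : ℝ) : ℂ) *
        (((1 - (x.1 : ℝ) : ℝ) : ℂ) * a0 x.2 + ((x.1 : ℝ) : ℂ) * b0)) (fun _ => 0) ?_
      continuous_const ?_ ?_ ?_
    · exact (continuous_ofReal.comp (continuous_const.div hw.norm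
        (fun x => norm_ne_zero_iff.2 (key x)))).mul hw
    · intro x
      apply core_Loc hG6 hg'
      have h0 : 0 < ‖((1 - (x.1 : ℝ) : ℝ) : ℂ) * a0 x.2 + ((x.1 : ℝ) : ℂ) * b0‖ :=
        norm_pos_iff.2 (key x)
      rw [norm_mul, norm_real, Real.norm_of_nonneg (by positivity)]
      field_simp
    · intro m
      show Psi Mo.L g (a0 m) 0 = Psi Mo.L g
        (((1 / ‖((1 - ((0 : I) : ℝ) : ℝ) : ℂ) * a0 m + (((0 : I) : ℝ) : ℂ) * b0‖ : ℝ) : ℂ) *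
        (((1 - ((0 : I) : ℝ) : ℝ) : ℂ) * a0 m + (((0 : I) : ℝ) : ℂ) * b0)) 0
      rw [Icc.coe_zero, sub_zero, ofReal_one, one_mul, ofReal_zero, zero_mul, add_zero, ha0n m,
        div_one, ofReal_one, one_mul]
    · intro m
      show Psi Mo.L g b0 0 = Psi Mo.L g
        (((1 / ‖((1 - ((1 : I) : ℝ) : ℝ) : ℂ) * a0 m + (((1 : I) : ℝ) : ℂ) * b0‖ : ℝ) : ℂ) *
        (((1 - ((1 : I) : ℝ) : ℝ) : ℂ) * a0 m + (((1 : I) : ℝ) : ℂ) * b0)) 0
      rw [Icc.coe_one, sub_self, ofReal_zero, zero_mul, zero_add, ofReal_one, one_mul, hb1,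
        div_one, ofReal_one, one_mul]
  exact null_of_hom p0 (H1.trans H2)

end GE7

theorem stmt_GE7 (hG1 : Stmt_G1) (hG4 : Stmt_G4) (hG6 : Stmt_G6) (hC1 : Stmt_C1)
    (h3 : Stmt_GE3) (h0 : Stmt_GE0) : Stmt_GE7 := by
  intro Mo
  refine ⟨fun g hg => GE7.nondefect hG1 hG4 hG6 h3 h0 Mo g hg, fun f => ?_⟩
  by_cases hf : f.1 ∈ Mo.D
  · exact GE7.defect hG1 hG4 hG6 hC1 h3 Mo f hf
  · refine GE7.null_mono ?_ (GE7.nondefect hG1 hG4 hG6 h3 h0 Mo f.1 hf)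
    rintro m ⟨u, v, h1, -, h2⟩
    exact ⟨u, v, h1, mem_univ u, h2⟩

end Pool.CX
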