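import Pool.Agent.Work.MP_727c87_cx.E2.Geo

set_option autoImplicit false

/-! # Block GE8 (helper23): the special points -/

open Set Topology Complex ComplexConjugate
open scoped ContDiff NNReal unitInterval

noncomputable section

namespace Pool.CX

namespace GE8

theorem qq_two {s : ℝ} (h : 2 ≤ s) : qq s = s := by
  unfold qq
  rw [Real.smoothTransition.one_of_one_le (by linarith)]
  ring

/-- points of the chamber at height one, away from the centre -/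
theorem loc_one {d : Prop} {u : ℂ} (h : u ∈ PPo) (h3 : 3 ≤ ‖u‖ ^ 2) : (u, (1 : ℂ)) ∈ Loc d := by
  refine ⟨h, fun _ => norm_one, fun _ => ⟨?_, ?_⟩⟩
  · show 1 ≤ ‖u‖
    nlinarith [norm_nonneg u]
  · show ‖(1 : ℂ)‖ ^ 2 * qq (‖u‖ ^ 2 - 1) = ‖u‖ ^ 2 - 1
    rw [norm_one, one_pow, one_mul]
    exact qq_two (by linarith)

theorem R_fix {j : ZMod 12} {u : ℂ} (h : lv j u = 0) : R j u = u := by
  unfold R
  rw [h]
  simp

theorem base_b (Mo : Model) (g : Mo.Q) (i : ZMod 12) :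
    Mo.base.b (g, i) = (Mo.L.τ (i + 1) g, i) := by
  show ((Mo.L.τ (i + 1) g, i + 1 - 1) : Mo.F) = _
  rw [add_sub_cancel_right]

end GE8

open GE8 in
theorem stmt_GE8 (hG1 : Stmt_G1) (hG3 : Stmt_G3) (hG6 : Stmt_G6) (hS2 : Stmt_S2) (hS3 : Stmt_S3)
    (hCO : Stmt_CO) (hKM : Stmt_KM) (h1 : Stmt_GE1) (h3 : Stmt_GE3) : Stmt_GE8 := by
  intro Mo
  obtain ⟨-, -, e3, -, -, -, -⟩ := h3 Mo
  -- a point of the chart of `g` seen from a neighbour
  have key : ∀ (g : Mo.Q) (u : ℂ) (n : Nbr) (i : ZMod 12) (hl : (u, (1 : ℂ)) ∈ Loc (g ∈ Mo.D))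
      (p : Mo.SS), (p : Amb Mo.Q) = Psi Mo.L g u 1 → u ∈ PPo → mv n u = u → u ∈ sect i →
      p ∈ US Mo (nbr Mo.L g n, i) := by
    intro g u n i hl p hp hu hn hs
    have hmv : mv n u ∈ PPo := by rw [hn]; exact hu
    obtain ⟨h4, h5⟩ := e3 g u 1 n hl hmv
    rw [hn] at h4 h5
    exact ⟨u, 1, h4, hs, by rw [hp, h5]⟩
  refine ⟨?_, ?_, ?_⟩
  · -- corners
    obtain ⟨κ, -, hκ⟩ := hKM
    rintro ⟨g, i⟩
    obtain ⟨k1, -, k2, -⟩ := hκ i 1 1 zero_le_one le_rfl zero_le_one le_rfl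
    obtain ⟨-, -, -, k3⟩ := hκ i 1 1 zero_le_one le_rfl zero_le_one le_rfl
    set u := κ i 1 1 with hu
    have hPP : u ∈ PP := k1.1
    have hPPo : u ∈ PPo := hG6.2.2.2.1 hPP
    have hn3 : 3 ≤ ‖u‖ ^ 2 := by
      by_contra hlt
      have := hG6.2.2.2.2.2.2.2 u (not_le.1 hlt).le i
      rw [k2] at this
      linarith
    have hs : u ∈ sect i := h1.2.1 i k1
    have hl : (u, (1 : ℂ)) ∈ Loc (g ∈ Mo.D) := loc_one hPPo hn3
    have hR1 : R i u = u := R_fix k2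
    have hR2 : R (i + 1) u = u := R_fix k3
    set P : Mo.SS := ⟨Psi Mo.L g u 1, g, u, 1, hl, rfl⟩ with hP
    have m1 := key g u (some (i, false)) i hl P rfl hPPo hR1 hs
    have m2 := key g u (some (i + 1, false)) i hl P rfl hPPo hR2 hs
    have m3 := key g u (some (i, true)) i hl P rfl hPPo
      (by show R i (R (i + 1) u) = u; rw [hR2, hR1]) hs
    rw [base_b]
    exact ⟨P, ⟨u, 1, hl, hs, rfl⟩, m1, m2, m3⟩
  · -- midpoints of the sides
    rintro ⟨g, i⟩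
    obtain ⟨c1, c2, c3, c4⟩ := hCO.1 (i + 1)
    set u := mid (i + 1) with hu
    have hPPo : u ∈ PPo := hG6.2.2.2.1 c1
    have hl : (u, (1 : ℂ)) ∈ Loc (g ∈ Mo.D) := loc_one hPPo c4.le
    obtain ⟨-, s1, s2⟩ := h1.2.2.2.2.1 u hPPo (i + 1) (by rw [c2]; norm_num)
    have him : (u * conj (ctr (i + 1))).im = 0 := by
      rw [hu, mid, mul_assoc, Complex.mul_conj]
      rw [← Complex.ofReal_mul, Complex.ofReal_im]
    have hs1 : u ∈ sect (i + 1) := s1.2 (by rw [him]; norm_num)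
    have hs2 : u ∈ sect i := by
      have := s2.2 (by rw [him]; norm_num)
      rwa [add_sub_cancel_right] at this
    set P : Mo.SS := ⟨Psi Mo.L g u 1, g, u, 1, hl, rfl⟩ with hP
    have m1 := key g u (some (i + 1, false)) i hl P rfl hPPo c3 hs2
    have m2 := key g u (some (i + 1, false)) (i + 1) hl P rfl hPPo c3 hs1
    rw [base_b]
    exact ⟨P, ⟨u, 1, hl, hs2, rfl⟩, ⟨u, 1, hl, hs1, rfl⟩, m1, m2⟩
  · -- centres
    intro q hq
    have h0 : (0 : ℂ) ∈ PPo := by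
      intro j
      simp only [lv]
      simp
      norm_num
    have hl : ((0 : ℂ), (1 : ℂ)) ∈ Loc (q ∈ Mo.D) := ⟨h0, fun _ => norm_one, fun h => absurd h hq⟩
    refine ⟨⟨Psi Mo.L q 0 1, q, 0, 1, hl, rfl⟩, fun k => ⟨0, 1, hl, ?_, rfl⟩⟩
    left
    simp

end Pool.CX
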