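import Pool.Agent.Work.MP_727c87_cx.E2.Geo
import Pool.Agent.Work.MP_727c87_cx.E1.GeoProofs

set_option autoImplicit false

/-! # Block GE9: the metric flag cover of a realisation -/

open Set Topology Complex ComplexConjugate
open scoped ContDiff NNReal unitInterval

noncomputable section

namespace Pool.CX

namespace GE9

/-! ### Transport by a homeomorphism -/

theorem preimage_pc {X Y : Type} [TopologicalSpace X] [TopologicalSpace Y] (e : X ≃ₜ Y) {S : Set Y}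
    (h : IsPathConnected S) : IsPathConnected (e ⁻¹' S) := by
  have h2 := h.image e.symm.continuous
  rwa [← e.symm.preimage_symm, Homeomorph.symm_symm] at h2

theorem nullIncl_preimage {X Y : Type} [TopologicalSpace X] [TopologicalSpace Y] (e : X ≃ₜ Y)
    {S : Set Y} (h : NullIncl S) : NullIncl (e ⁻¹' S) := by
  obtain ⟨ms, H, h0, h1⟩ := h
  let j : C((e ⁻¹' S : Set X), S) := ⟨fun m => ⟨e m.1, m.2⟩,
    Continuous.subtype_mk (e.continuous.comp continuous_subtype_val) _⟩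
  refine ⟨e.symm ms, ⟨fun x => e.symm (H (x.1, j x.2)), ?_⟩, ?_, ?_⟩
  · exact e.symm.continuous.comp (H.continuous.comp
      (continuous_fst.prodMk (j.continuous.comp continuous_snd)))
  · intro m
    change e.symm (H (0, j m)) = m
    rw [h0]
    exact e.symm_apply_apply m.1
  · intro m
    change e.symm (H (1, j m)) = e.symm ms
    rw [h1]

theorem SPath.mono {M : Type} [PseudoEMetricSpace M] {A B : Set M} {l l' : ℝ≥0} {x y : M}
    (h : SPath A l x y) (hAB : A ⊆ B) (hl : l ≤ l') : SPath B l' x y := by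
  obtain ⟨γ, h1, h2⟩ := h
  exact ⟨γ, fun t => hAB (h1 t), h2.weaken hl⟩

/-! ### The midpoints of the sides -/

theorem mid_pos : 0 ≤ rho / √tau2 := div_nonneg (Real.sqrt_nonneg _) (Real.sqrt_nonneg _)

theorem im_self (j : ZMod 12) : (ctr j * conj (ctr j)).im = 0 := by
  rw [Complex.mul_conj]
  exact Complex.ofReal_im _

theorem mid_kite (hCO : Stmt_CO) (i : ZMod 12) : mid i ∈ kite i := by
  refine ⟨(hCO.1 i).1, ?_, ?_⟩
  · have h : mid i * conj (ctr i) = ((rho / √tau2 : ℝ) : ℂ) * (ctr i * conj (ctr i)) := by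
      rw [mid, mul_assoc]
    rw [h, Complex.im_ofReal_mul, im_self, mul_zero]
  · have h : ctr (i + 1) * conj (mid i) =
        ((rho / √tau2 : ℝ) : ℂ) * (ctr (i + 1) * conj (ctr i)) := by
      rw [mid, map_mul, Complex.conj_ofReal]
      ring
    rw [h, Complex.im_ofReal_mul, stmt_G1.2.2.1 i]
    exact mul_nonneg mid_pos (by norm_num)

theorem mid_kite' (hCO : Stmt_CO) (i : ZMod 12) : mid (i + 1) ∈ kite i := by
  refine ⟨(hCO.1 (i + 1)).1, ?_, ?_⟩
  · have h : mid (i + 1) * conj (ctr i) =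
        ((rho / √tau2 : ℝ) : ℂ) * (ctr (i + 1) * conj (ctr i)) := by
      rw [mid, mul_assoc]
    rw [h, Complex.im_ofReal_mul, stmt_G1.2.2.1 i]
    exact mul_nonneg mid_pos (by norm_num)
  · have h : ctr (i + 1) * conj (mid (i + 1)) =
        ((rho / √tau2 : ℝ) : ℂ) * (ctr (i + 1) * conj (ctr (i + 1))) := by
      rw [mid, map_mul, Complex.conj_ofReal]
      ring
    rw [h, Complex.im_ofReal_mul, im_self, mul_zero]

theorem mid_loc (hC1 : Stmt_C1) (hCO : Stmt_CO) (i : ZMod 12) (d : Prop) :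
    (mid i, (1 : ℂ)) ∈ Loc d := by
  have h1 := hCO.1 i
  refine ⟨fun j => lt_of_lt_of_le (by norm_num) (h1.1 j), fun _ => by simp, fun _ => ?_⟩
  have h3 : (3 : ℝ) < ‖mid i‖ ^ 2 := h1.2.2.2
  refine ⟨?_, ?_⟩
  · change 1 ≤ ‖mid i‖
    nlinarith [norm_nonneg (mid i)]
  · change ‖(1 : ℂ)‖ ^ 2 * qq (‖mid i‖ ^ 2 - 1) = ‖mid i‖ ^ 2 - 1
    rw [norm_one, one_pow, one_mul]
    exact hC1.2.2.2.1 _ (by linarith)

end GE9

theorem stmt_GE9 (hC1 : Stmt_C1) (hS2 : Stmt_S2) (hCO : Stmt_CO) (hKP : Stmt_KP) (hCP : Stmt_CP)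
    (h1 : Stmt_GE1) (h2 : Stmt_GE2) (h3 : Stmt_GE3) (h5 : Stmt_GE5) (h6 : Stmt_GE6)
    (h7 : Stmt_GE7) (h8 : Stmt_GE8) : Stmt_GE9 := by
  obtain ⟨C, hC⟩ := hKP
  obtain ⟨C', hC'⟩ := hCP
  refine ⟨max C C', fun Mo Z => ?_⟩
  have hF : (1 : ℝ≥0) ≤ (Fintype.card Mo.F : ℝ≥0) := by
    have : 1 ≤ Fintype.card Mo.F := Fintype.card_pos
    exact_mod_cast this
  have hF0 : (0 : ℝ≥0) < (Fintype.card Mo.F : ℝ≥0) := lt_of_lt_of_le one_pos hF
  have he0 : (0 : ℝ≥0) < 1 / (Fintype.card Mo.F : ℝ≥0) := by positivity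
  have he1 : 1 / (Fintype.card Mo.F : ℝ≥0) ≤ 1 := by
    rw [div_le_one hF0]
    exact hF
  obtain ⟨h31, h32, h33, h34, h35, h36, h37⟩ := h3 Mo
  have hmid : ∀ f : Mo.F, Psi Mo.L f.1 (mid f.2) 1 ∈ Mo.SS := fun f =>
    ⟨f.1, mid f.2, 1, GE9.mid_loc hC1 hCO f.2 _, rfl⟩
  have hea : ∀ f : Mo.F, ((Z.e (Z.e.symm ⟨_, hmid f⟩) : Mo.SS) : Amb Mo.Q) =
      Psi Mo.L f.1 (mid f.2) 1 := fun f => by rw [Homeomorph.apply_symm_apply]
  have hKsub : ∀ f : Mo.F, Z.Kt f ⊆ Z.e ⁻¹' US Mo f := by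
    rintro f x ⟨u, v, huv, hu, hx⟩
    exact ⟨u, v, huv, h1.2.1 f.2 hu, hx⟩
  have hChsub : ∀ q : Mo.Q, Z.Ch q ⊆ Z.e ⁻¹' Over Mo q univ := by
    rintro q x ⟨u, v, huv, -, hx⟩
    exact ⟨u, v, huv, mem_univ _, hx⟩
  have hcov : ∀ m : Z.M.Pt, ∃ f : Mo.F, m ∈ Z.Kt f := by
    intro m
    obtain ⟨g, i, hg, hi⟩ := h35 (Z.e m)
    obtain ⟨ha, hb⟩ := h32 (Z.e m) g hg
    exact ⟨(g, i), _, _, ha, hi, hb⟩
  let FC : FlagCover Mo Z.M.Pt :=
    { U := fun f => Z.e ⁻¹' US Mo f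
      isOpen_U := fun f => (h37 f.1 _ (h1.1 f.2)).preimage Z.e.continuous
      cover := fun m => by
        obtain ⟨f, hf⟩ := hcov m
        exact ⟨f, hKsub f hf⟩
      pc := fun f => GE9.preimage_pc Z.e ((h6 Mo).1 f)
      null := fun f => GE9.nullIncl_preimage Z.e ((h7 Mo).2 f)
      pc_a := fun f => GE9.preimage_pc Z.e ((h5 Mo f).1)
      pc_b := fun f => GE9.preimage_pc Z.e ((h5 Mo f).2)
      pc_r := fun f => GE9.preimage_pc Z.e ((h6 Mo).2.1 f)
      corner := fun f => by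
        obtain ⟨p, hp⟩ := (h8 Mo).1 f
        refine ⟨Z.e.symm p, ?_⟩
        simpa only [mem_preimage, Homeomorph.apply_symm_apply] using hp
      mid := fun f => by
        obtain ⟨p, hp⟩ := (h8 Mo).2.1 f
        refine ⟨Z.e.symm p, ?_⟩
        simpa only [mem_preimage, Homeomorph.apply_symm_apply] using hp
      centre := fun q hq => by
        obtain ⟨p, hp⟩ := (h8 Mo).2.2 q hq
        refine ⟨Z.e.symm p, ?_⟩
        simpa only [mem_preimage, Homeomorph.apply_symm_apply] using hp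
      near := fun m => h2 Mo (Z.e m) }
  refine ⟨
    { toFlagCover := FC
      K := Z.Kt
      K_sub := hKsub
      coverK := hcov
      len := fun f m hm m' hm' => ?_
      V := fun q => Z.e ⁻¹' Over Mo q univ
      sub := fun f _ x hx => ?_
      nullV := fun q hq => GE9.nullIncl_preimage Z.e ((h7 Mo).1 q hq)
      anchor := fun f => Z.e.symm ⟨_, hmid f⟩
      anchor_mem := fun f => ?_
      anchor_r := fun f => ?_
      anchor_a := fun f => ?_
      chord := fun f hf => ?_ }⟩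
  · exact GE9.SPath.mono (hC Mo _ Z f m m' (by exact_mod_cast he0) (by exact_mod_cast he1) hm hm')
      (hKsub f) (le_max_left _ _)
  · obtain ⟨u, v, huv, -, hx⟩ := hx
    exact ⟨u, v, huv, mem_univ _, hx⟩
  · exact ⟨mid f.2, 1, GE9.mid_loc hC1 hCO f.2 _, GE9.mid_kite hCO f.2, hea f⟩
  · exact ⟨mid (f.2 + 1), 1, GE9.mid_loc hC1 hCO (f.2 + 1) _, GE9.mid_kite' hCO f.2,
      hea (Mo.fr f)⟩
  · congr 1
    apply Subtype.ext
    change Psi Mo.L (Mo.L.τ f.2 f.1) (mid f.2) 1 = Psi Mo.L f.1 (mid f.2) 1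
    have hm := hCO.1 f.2
    have hPPo : mid f.2 ∈ PPo := (GE9.mid_loc hC1 hCO f.2 True).1
    have h4 := (hS2 Mo f.1 (mid f.2) 1 hPPo).2.2.2.1 (some (f.2, false))
    have h5' : mv (some (f.2, false)) (mid f.2) = mid f.2 := hm.2.2.1
    rw [h5'] at h4
    exact h4 hPPo
  · have h4 := hC' Mo _ Z f (Z.e.symm ⟨_, hmid f⟩)
      (Z.e.symm ⟨_, hmid (f.1, Mo.mu f.1 f.2)⟩) he0 he1 hf (hea f) (hea (f.1, Mo.mu f.1 f.2))
    refine GE9.SPath.mono h4 (hChsub f.1) ?_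
    rw [one_div, inv_mul_eq_div]
    exact div_le_div_of_nonneg_right (le_max_right _ _) hF0.le

end Pool.CX
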