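import Pool.Agent.Work.MP_727c87_cx.E2.Interface

set_option autoImplicit false

/-! # Block Geod: the universal Riemannian covering is a length space -/

namespace Pool.CX

open Set Topology Manifold Bundle Filter
open scoped Manifold ContDiff ENNReal NNReal unitInterval
open Pool.Agent.Work.MP_bc4532_gt (ClosedRiemannianManifold)
open UW727 (RiemannianUniversalCover)

theorem geod_lpc (M : ClosedRiemannianManifold) (X : RiemannianUniversalCover M) :
    LocallyPathConnectedSpace X.Pt := by
  have h : LocallyPathConnectedSpace M.H :=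
    M.I.toHomeomorph.isOpenEmbedding.locallyPathConnectedSpace
  exact ChartedSpace.locallyPathConnectedSpace M.H X.Pt

theorem geod_out (M : ClosedRiemannianManifold) (X : RiemannianUniversalCover M)
    (x y : X.Pt) : edist x y = riemannianEDist M.I x y :=
  X.isRiemannianManifold.out x y

theorem geod_path (M : ClosedRiemannianManifold) (X : RiemannianUniversalCover M)
    (x x' : X.Pt) (ε : ℝ) (hε : 0 < ε) :
    ∃ γ : Path x x', ∀ t, dist x (γ t) + dist (γ t) x' ≤ dist x x' + ε := by
  have hlt : riemannianEDist M.I x x' < edist x x' + ENNReal.ofReal ε := by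
    rw [← geod_out M X x x']
    exact ENNReal.lt_add_right (edist_ne_top x x') (by simpa using hε)
  obtain ⟨γ, h0, h1, hγ, hl⟩ := exists_lt_of_riemannianEDist_lt hlt
  have hc : ContinuousOn γ (Icc 0 1) := hγ.continuousOn
  refine ⟨{ toFun := fun t => γ t
            continuous_toFun := hc.domRestrict
            source' := by simpa using h0
            target' := by simpa using h1 }, fun t => ?_⟩
  change dist x (γ t) + dist (γ t) x' ≤ dist x x' + ε
  have ha : edist x (γ t) ≤ pathELength M.I γ 0 t := by
    rw [geod_out M X x (γ t)]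
    exact riemannianEDist_le_pathELength (hγ.mono (Icc_subset_Icc_right t.2.2)) h0 rfl t.2.1
  have hb : edist (γ t) x' ≤ pathELength M.I γ t 1 := by
    rw [geod_out M X (γ t) x']
    exact riemannianEDist_le_pathELength (hγ.mono (Icc_subset_Icc_left t.2.1)) rfl h1 t.2.2
  have hsum : edist x (γ t) + edist (γ t) x' ≤ edist x x' + ENNReal.ofReal ε := by
    refine (add_le_add ha hb).trans ?_
    rw [pathELength_add t.2.1 t.2.2]
    exact hl.le
  rw [edist_dist, edist_dist, edist_dist, ← ENNReal.ofReal_add dist_nonneg dist_nonneg,
    ← ENNReal.ofReal_add dist_nonneg hε.le] at hsum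
  exact (ENNReal.ofReal_le_ofReal_iff (add_nonneg dist_nonneg hε.le)).1 hsum

theorem stmt_Geod : Stmt_Geod := fun M X =>
  ⟨geod_lpc M X, fun x x' ε hε => geod_path M X x x' ε hε⟩

end Pool.CX
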