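import Pool.Agent.Work.MP_727c87_cx.E2.Interface

/-!
# Lifts of curves: same regularity, same length (helper40)
-/

set_option autoImplicit false

namespace Pool.CX

open Set Topology Manifold Bundle Filter MeasureTheory
open scoped Manifold ContDiff ENNReal NNReal unitInterval
open Pool.Agent.Work.MP_bc4532_gt (ClosedRiemannianManifold)
open UW727 (RiemannianUniversalCover)

namespace LiftLen

theorem contMDiffOn_lift {M : ClosedRiemannianManifold} (X : RiemannianUniversalCover M)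
    (γ : ℝ → M.Pt) (h : ContMDiffOn 𝓘(ℝ) M.I 1 γ (Icc 0 1)) (γ' : ℝ → X.Pt)
    (hc : ContinuousOn γ' (Icc 0 1)) (hp : ∀ t ∈ Icc (0 : ℝ) 1, X.p (γ' t) = γ t) :
    ContMDiffOn 𝓘(ℝ) M.I 1 γ' (Icc 0 1) := by
  intro t ht
  obtain ⟨Φ, hΦ, hE⟩ := X.isLocalDiffeomorph (γ' t)
  have hinv : ContMDiffAt M.I M.I 1 Φ.invFun (γ t) := by
    have h1 : ContMDiffOn M.I M.I 1 Φ.invFun Φ.target := Φ.contMDiffOn_invFun.of_le (by simp)
    have h2 : γ t ∈ Φ.target := by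
      rw [← hp t ht, hE hΦ]
      exact Φ.map_source hΦ
    exact h1.contMDiffAt (Φ.open_target.mem_nhds h2)
  have hcomp : ContMDiffWithinAt 𝓘(ℝ) M.I 1 (Φ.invFun ∘ γ) (Icc 0 1) t :=
    hinv.comp_contMDiffWithinAt t (h t ht)
  refine hcomp.congr_of_eventuallyEq ?_ ?_
  · have h1 : ∀ᶠ s in 𝓝[Icc 0 1] t, γ' s ∈ Φ.source :=
      (hc t ht).eventually (Φ.open_source.mem_nhds hΦ)
    filter_upwards [h1, self_mem_nhdsWithin] with s hs hs2
    show γ' s = Φ.invFun (γ s)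
    rw [← hp s hs2, hE hs]
    exact (Φ.left_inv hs).symm
  · show γ' t = Φ.invFun (γ t)
    rw [← hp t ht, hE hΦ]
    exact (Φ.left_inv hΦ).symm

theorem pathELength_lift {M : ClosedRiemannianManifold} (X : RiemannianUniversalCover M)
    (γ : ℝ → M.Pt) (γ' : ℝ → X.Pt) (hγ' : ContMDiffOn 𝓘(ℝ) M.I 1 γ' (Icc 0 1))
    (hp : ∀ t ∈ Icc (0 : ℝ) 1, X.p (γ' t) = γ t) :
    pathELength M.I γ' 0 1 = pathELength M.I γ 0 1 := by
  have h1 : pathELength M.I γ 0 1 = pathELength M.I (X.p ∘ γ') 0 1 :=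
    pathELength_congr (fun t ht => (hp t ht).symm)
  rw [h1, pathELength_eq_lintegral_mfderivWithin_Icc, pathELength_eq_lintegral_mfderivWithin_Icc]
  refine setLIntegral_congr_fun measurableSet_Icc ?_
  intro t ht
  have hd : MDifferentiableAt M.I M.I X.p (γ' t) :=
    (X.isLocalDiffeomorph.contMDiff (γ' t)).mdifferentiableAt (by simp)
  have hd' : MDifferentiableWithinAt 𝓘(ℝ) M.I γ' (Icc 0 1) t :=
    (hγ' t ht).mdifferentiableWithinAt (by simp)
  have hu : UniqueMDiffWithinAt 𝓘(ℝ) (Icc (0 : ℝ) 1) t :=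
    (uniqueDiffOn_Icc zero_lt_one).uniqueMDiffOn t ht
  have hcomp := mfderiv_comp_mfderivWithin t hd hd' hu
  show ‖_‖ₑ = ‖_‖ₑ
  rw [hcomp]
  show _ = ‖(mfderiv M.I M.I X.p (γ' t)) ((mfderivWithin 𝓘(ℝ) M.I γ' (Icc 0 1) t) 1)‖ₑ
  rw [← ofReal_norm, ← ofReal_norm, X.norm_mfderiv]

end LiftLen

end Pool.CX
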