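import Pool.Agent.Work.MP_727c87_cx.E2.Interface
import Pool.Agent.Work.MP_727c87_cx.E2.CurveLift

/-!
# Block LiftLen: Lipschitz paths lift with the same constant
-/

set_option autoImplicit false

namespace Pool.CX

open Set Topology Manifold Bundle Filter
open scoped Manifold ContDiff ENNReal NNReal unitInterval
open Pool.Agent.Work.MP_bc4532_gt (ClosedRiemannianManifold)
open UW727 (RiemannianUniversalCover)

theorem stmt_LiftLen (hI : Stmt_LocIso) : Stmt_LiftLen := by
  intro M X S ℓ m m' h x hx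
  obtain ⟨γ, hγS, hγ⟩ := h
  have g0 : γ.toContinuousMap 0 = X.p x := by
    rw [hx]; exact γ.source
  let Γ : C(I, X.Pt) := X.isCoveringMap.liftPath γ.toContinuousMap x g0
  have hΓp : ∀ t, X.p (Γ t) = γ t := fun t =>
    congrFun (X.isCoveringMap.liftPath_lifts γ.toContinuousMap x g0) t
  have hΓ0 : Γ 0 = x := X.isCoveringMap.liftPath_zero γ.toContinuousMap x g0
  let g : ℝ → X.Pt := fun t => Γ (projIcc 0 1 zero_le_one t)
  have hgc : Continuous g := Γ.continuous.comp continuous_projIcc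
  have key : Icc (0 : ℝ) 1 ⊆ {t : ℝ | dist (g 0) (g t) ≤ ℓ * t} := by
    refine IsClosed.Icc_subset_of_forall_mem_nhdsWithin ?_ ?_ ?_
    · refine IsClosed.inter ?_ isClosed_Icc
      exact isClosed_le (continuous_const.dist hgc) (continuous_const.mul continuous_id)
    · simp
    · rintro t ⟨ht, ht0, ht1⟩
      obtain ⟨r, hr, hiso⟩ := (hI M X).2 (g t)
      have h1 : ∀ᶠ s in 𝓝[>] t, g s ∈ Metric.ball (g t) r :=
        (hgc.continuousAt.tendsto.mono_left nhdsWithin_le_nhds).eventually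
          (Metric.ball_mem_nhds _ hr)
      have h2 : ∀ᶠ s in 𝓝[>] t, s ∈ Ioc t 1 := Ioc_mem_nhdsGT ht1
      filter_upwards [h1, h2] with s hs1 hs2
      have h3 := hiso (g t) (Metric.mem_ball_self hr) (g s) hs1
      have h4 : dist (X.p (g t)) (X.p (g s)) ≤ ℓ * (s - t) := by
        simp only [g]
        rw [hΓp, hΓp]
        refine (hγ.dist_le_mul _ _).trans ?_
        refine mul_le_mul_of_nonneg_left ?_ ℓ.coe_nonneg
        rw [projIcc_of_mem zero_le_one ⟨ht0, ht1.le⟩,
          projIcc_of_mem zero_le_one ⟨ht0.trans hs2.1.le, hs2.2⟩, Subtype.dist_eq, Real.dist_eq,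
          abs_sub_comm, abs_of_nonneg (by linarith [hs2.1])]
      have h5 := dist_triangle (g 0) (g t) (g s)
      have ht' : dist (g 0) (g t) ≤ ℓ * t := ht
      show dist (g 0) (g s) ≤ ℓ * s
      nlinarith
  have h1 : dist (g 0) (g 1) ≤ ℓ * 1 := key ⟨zero_le_one, le_rfl⟩
  have e0 : g 0 = x := by
    simp only [g]
    rw [projIcc_left]
    exact hΓ0
  have e1 : g 1 = Γ 1 := by
    simp only [g]
    rw [projIcc_right]
    rfl
  refine ⟨Γ 1, ?_, ?_, ?_⟩
  · rw [hΓp]; exact γ.target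
  · rw [e0, e1, mul_one] at h1; exact h1
  · exact ⟨⟨Γ, hΓ0, rfl⟩, fun t => by
      show X.p (Γ t) ∈ S
      rw [hΓp]; exact hγS t⟩

end Pool.CX
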