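import Pool.Agent.Work.MP_727c87_cx.E2.Interface
import Pool.Agent.Work.MP_727c87_cx.E2.CurveLift

/-!
# Block LocIso: the covering map is a local isometry
-/

set_option autoImplicit false

namespace Pool.CX

open Set Topology Manifold Bundle Filter
open scoped Manifold ContDiff ENNReal NNReal unitInterval
open Pool.Agent.Work.MP_bc4532_gt (ClosedRiemannianManifold)
open UW727 (RiemannianUniversalCover)

namespace LocIso

/-- a `C¹` curve of `M` between two points, of length close to the distance -/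
theorem exists_curve (M : ClosedRiemannianManifold) (m m' : M.Pt) (r : ℝ) (h : dist m m' < r) :
    ∃ γ : ℝ → M.Pt, γ 0 = m ∧ γ 1 = m' ∧ ContMDiff 𝓘(ℝ) M.I 1 γ ∧
      pathELength M.I γ 0 1 < ENNReal.ofReal r := by
  have h2 : riemannianEDist M.I m m' < ENNReal.ofReal r := by
    rw [← M.isRiemannianManifold.out m m', edist_dist]
    exact (ENNReal.ofReal_lt_ofReal_iff (lt_of_le_of_lt dist_nonneg h)).mpr h
  obtain ⟨γ, h0, h1, hγ, hlen, -, -⟩ :=
    exists_lt_locally_constant_of_riemannianEDist_lt h2 zero_lt_one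
  exact ⟨γ, h0, h1, hγ, hlen⟩

theorem exists_curveX {M : ClosedRiemannianManifold} (X : RiemannianUniversalCover M) (m m' : X.Pt) (r : ℝ)
    (h : dist m m' < r) : ∃ γ : ℝ → X.Pt, γ 0 = m ∧ γ 1 = m' ∧ ContMDiff 𝓘(ℝ) M.I 1 γ ∧
      pathELength M.I γ 0 1 < ENNReal.ofReal r := by
  have h2 : riemannianEDist M.I m m' < ENNReal.ofReal r := by
    rw [← X.isRiemannianManifold.out m m', edist_dist]
    exact (ENNReal.ofReal_lt_ofReal_iff (lt_of_le_of_lt dist_nonneg h)).mpr h
  obtain ⟨γ, h0, h1, hγ, hlen, -, -⟩ :=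
    exists_lt_locally_constant_of_riemannianEDist_lt h2 zero_lt_one
  exact ⟨γ, h0, h1, hγ, hlen⟩

end LocIso

open LocIso LiftLen in
theorem stmt_LocIso : Stmt_LocIso := by
  intro M X
  have lip : ∀ x x' : X.Pt, dist (X.p x) (X.p x') ≤ dist x x' := by
    intro x x'
    refine le_of_forall_pos_lt_add fun ε hε => ?_
    obtain ⟨γ, h0, h1, hγ, hl⟩ := exists_curveX X x x' (dist x x' + ε) (by linarith)
    have hc : ContMDiff 𝓘(ℝ) M.I 1 (X.p ∘ γ) :=
      (X.isLocalDiffeomorph.contMDiff.of_le (by simp)).comp hγ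
    have hlen : pathELength M.I γ 0 1 = pathELength M.I (X.p ∘ γ) 0 1 :=
      pathELength_lift X (X.p ∘ γ) γ hγ.contMDiffOn (fun _ _ => rfl)
    have h3 : riemannianEDist M.I (X.p x) (X.p x') ≤ pathELength M.I (X.p ∘ γ) 0 1 :=
      riemannianEDist_le_pathELength hc.contMDiffOn (by rw [Function.comp_apply, h0])
        (by rw [Function.comp_apply, h1]) zero_le_one
    rw [← M.isRiemannianManifold.out, ← hlen] at h3
    have h4 := h3.trans_lt hl
    rw [edist_dist] at h4
    exact (ENNReal.ofReal_lt_ofReal_iff (by linarith [dist_nonneg (x := x) (y := x')])).mp h4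
  refine ⟨lip, fun x => ?_⟩
  obtain ⟨Φ, hΦ, hE⟩ := X.isLocalDiffeomorph x
  have ht : X.p x ∈ Φ.target := by
    rw [hE hΦ]; exact Φ.map_source hΦ
  obtain ⟨ρ, hρ, hρt⟩ := Metric.isOpen_iff.1 Φ.open_target _ ht
  obtain ⟨r0, hr0, hr0s⟩ := Metric.isOpen_iff.1 Φ.open_source _ hΦ
  refine ⟨min r0 (ρ / 8), lt_min hr0 (by linarith), fun x' hx' x'' hx'' => ?_⟩
  rw [Metric.mem_ball] at hx' hx''
  have hr1 : min r0 (ρ / 8) ≤ r0 := min_le_left _ _
  have hr2 : min r0 (ρ / 8) ≤ ρ / 8 := min_le_right _ _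
  have hs' : x' ∈ Φ.source := hr0s (Metric.mem_ball.2 (by linarith))
  have hs'' : x'' ∈ Φ.source := hr0s (Metric.mem_ball.2 (by linarith))
  refine le_antisymm ?_ (lip _ _)
  refine le_of_forall_pos_lt_add fun ε hε => ?_
  have hd : dist (X.p x') (X.p x'') ≤ ρ / 4 := by
    refine (lip _ _).trans ?_
    have := dist_triangle_right x' x'' x
    linarith
  obtain ⟨c, h0, h1, hc, hl⟩ := exists_curve M (X.p x') (X.p x'')
    (dist (X.p x') (X.p x'') + min ε (ρ / 8)) (by
      have : 0 < min ε (ρ / 8) := lt_min hε (by linarith)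
      linarith)
  have hm1 : min ε (ρ / 8) ≤ ε := min_le_left _ _
  have hm2 : min ε (ρ / 8) ≤ ρ / 8 := min_le_right _ _
  have hct : ∀ t ∈ Icc (0 : ℝ) 1, c t ∈ Φ.target := by
    intro t htt
    apply hρt
    rw [Metric.mem_ball]
    have h3 : riemannianEDist M.I (X.p x') (c t) ≤ pathELength M.I c 0 t :=
      riemannianEDist_le_pathELength hc.contMDiffOn h0 rfl htt.1
    have h4 : pathELength M.I c 0 t ≤ pathELength M.I c 0 1 :=
      pathELength_mono le_rfl htt.2
    rw [← M.isRiemannianManifold.out] at h3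
    have h5 := (h3.trans h4).trans_lt hl
    rw [edist_dist] at h5
    have h6 := (ENNReal.ofReal_lt_ofReal_iff (by
      have : 0 < min ε (ρ / 8) := lt_min hε (by linarith)
      linarith [dist_nonneg (x := X.p x') (y := X.p x'')])).mp h5
    have h7 : dist (X.p x') (X.p x) ≤ ρ / 8 := (lip _ _).trans (by linarith)
    have h8 := dist_triangle_left (c t) (X.p x) (X.p x')
    linarith
  have hinv : ContMDiffOn M.I M.I 1 Φ.invFun Φ.target := Φ.contMDiffOn_invFun.of_le (by simp)
  have hγ : ContMDiffOn 𝓘(ℝ) M.I 1 (Φ.invFun ∘ c) (Icc 0 1) :=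
    hinv.comp hc.contMDiffOn hct
  have hp : ∀ t ∈ Icc (0 : ℝ) 1, X.p ((Φ.invFun ∘ c) t) = c t := by
    intro t htt
    have h3 : Φ.invFun (c t) ∈ Φ.source := Φ.map_target (hct t htt)
    rw [Function.comp_apply, hE h3]
    exact Φ.right_inv (hct t htt)
  have hlen := pathELength_lift X c (Φ.invFun ∘ c) hγ hp
  have e0 : (Φ.invFun ∘ c) 0 = x' := by
    rw [Function.comp_apply, h0, hE hs']
    exact Φ.left_inv hs'
  have e1 : (Φ.invFun ∘ c) 1 = x'' := by
    rw [Function.comp_apply, h1, hE hs'']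
    exact Φ.left_inv hs''
  have h3 : riemannianEDist M.I x' x'' ≤ pathELength M.I (Φ.invFun ∘ c) 0 1 :=
    riemannianEDist_le_pathELength hγ e0 e1 zero_le_one
  rw [← X.isRiemannianManifold.out, hlen] at h3
  have h4 := h3.trans_lt hl
  rw [edist_dist] at h4
  have h5 := (ENNReal.ofReal_lt_ofReal_iff (by
      have : 0 < min ε (ρ / 8) := lt_min hε (by linarith)
      linarith [dist_nonneg (x := X.p x') (y := X.p x'')])).mp h4
  linarith

end Pool.CX
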