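import Pool.Agent.Work.MP_727c87_cx.E2.Interface

set_option autoImplicit false

/-! # Block LocPot (part E2): local potentials exist and are unique up to a constant

A potential on the near shape `N` is a lift of `N` to the twisted covering.  Lifts of near shapes exist
(`NearLift`) and are unique. -/

namespace Pool.CX

open Set Pool.CS

namespace LocPotAux

/-! ## Short words act without fixed points -/

/-- parity of the number of letters `≠ ` killed letters -/
noncomputable def chi (s : ZMod 12 → ℤˣ) : W →* ℤˣ :=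
  rlift G12 s (fun a => Int.units_mul_self _) (fun a b _ => mul_comm _ _)

theorem chi_wp (s : ZMod 12 → ℤˣ) (l : List (ZMod 12)) : chi s (wp G12 l) = (l.map s).prod := by
  induction l with
  | nil => simp [wp_nil]
  | cons a l ih => rw [wp_cons, map_mul, ih, chi, rlift_rg, List.map_cons, List.prod_cons]

theorem ne_of_chi (Mo : Model) (s : ZMod 12 → ℤˣ) (q : Mo.Q) (l : List (ZMod 12)) (h : l.length ≤ 12)
    (h2 : (l.map s).prod ≠ 1) : act Mo.L q l ≠ q := by
  intro h3
  apply h2
  rw [← chi_wp, Mo.inj q l h h3, map_one]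

variable {Mo : Model}

theorem f1 (i : ZMod 12) (q : Mo.Q) : Mo.L.τ i q ≠ q :=
  ne_of_chi Mo (fun _ => -1) q [i] (by simp) (by simp)

theorem f4 {i j : ZMod 12} (h : i ≠ j) (q : Mo.Q) : Mo.L.τ i (Mo.L.τ j q) ≠ q :=
  ne_of_chi Mo (fun k => if k = i then -1 else 1) q [j, i] (by simp) (by
    simp only [List.map_cons, List.map_nil, List.prod_cons, List.prod_nil, if_neg (Ne.symm h)]
    simp)

theorem f2 {i j : ZMod 12} (h : i ≠ j) (q : Mo.Q) : Mo.L.τ i q ≠ Mo.L.τ j q := by
  intro h2
  have h3 := congrArg (Mo.L.τ j) h2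
  rw [Mo.L.inv] at h3
  exact f4 (Ne.symm h) q h3

theorem n1 (i : ZMod 12) : i + 1 ≠ i := by
  intro h; exact absurd (add_eq_left.mp h) (by decide)

theorem n2 (i : ZMod 12) : i + 1 + 1 ≠ i := by
  intro h; rw [add_assoc] at h; exact absurd (add_eq_left.mp h) (by decide)

theorem fa_mk (q : Mo.Q) (i : ZMod 12) : Mo.fa (q, i) = (Mo.L.τ i q, i) := rfl

theorem fr_mk (q : Mo.Q) (i : ZMod 12) : Mo.fr (q, i) = (q, i + 1) := rfl

/-- the move `b` on flags -/
def fb (Mo : Model) (y : Mo.F) : Mo.F := (Mo.L.τ (y.2 + 1) y.1, y.2)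

theorem fb_mk (q : Mo.Q) (i : ZMod 12) : fb Mo (q, i) = (Mo.L.τ (i + 1) q, i) := rfl

theorem fb_eq (y : Mo.F) : Mo.base.b y = fb Mo y := by
  obtain ⟨q, i⟩ := y
  change ((Mo.L.τ (i + 1) q, i + 1 - 1) : Mo.Q × ZMod 12) = _
  rw [add_sub_cancel_right]
  rfl

theorem z10 : ¬ ((1 : ZMod 12) = 0) := by decide

/-! ## Lifts from sections -/

theorem lift_of_section (C : Cov Mo) (N : Set Mo.F) (S : Set C.Y) (hN : ∀ g, g ∈ N ↔ ∃ s ∈ S, C.p s = g)
    (hinj : ∀ s ∈ S, ∀ t ∈ S, C.p s = C.p t → s = t)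
    (ha : ∀ s ∈ S, Mo.fa (C.p s) ∈ N → C.a s ∈ S) (hb : ∀ s ∈ S, fb Mo (C.p s) ∈ N → C.b s ∈ S)
    (hr : ∀ s ∈ S, Mo.fr (C.p s) ∈ N → C.r s ∈ S) (z : C.Y) (hz : z ∈ S) :
    ∃ y : Mo.F → C.Y, LiftOn C N y ∧ y (C.p z) = z := by
  classical
  have h : ∀ g : Mo.F, ∃ s : C.Y, g ∈ N → s ∈ S ∧ C.p s = g := by
    intro g
    by_cases hg : g ∈ N
    · obtain ⟨s, hs, h⟩ := (hN g).1 hg
      exact ⟨s, fun _ => ⟨hs, h⟩⟩
    · exact ⟨z, fun h => absurd h hg⟩
  choose y hy using h
  refine ⟨y, ⟨fun g hg => (hy g hg).2, fun g hg hg' => ?_, fun g hg hg' => ?_, fun g hg hg' => ?_⟩, ?_⟩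
  · refine hinj _ (hy _ hg').1 _ (ha _ (hy g hg).1 (by rw [(hy g hg).2]; exact hg')) ?_
    rw [(hy _ hg').2, C.p_a, (hy g hg).2]
  · refine hinj _ (hy _ hg').1 _ (hb _ (hy g hg).1 (by rw [(hy g hg).2, ← fb_eq]; exact hg')) ?_
    rw [(hy _ hg').2, Cov.p_b, (hy g hg).2]
  · refine hinj _ (hy _ hg').1 _ (hr _ (hy g hg).1 (by rw [(hy g hg).2]; exact hg')) ?_
    rw [(hy _ hg').2, C.p_r, (hy g hg).2]
  · have hzN : C.p z ∈ N := (hN _).2 ⟨z, hz, rfl⟩
    exact hinj _ (hy _ hzN).1 _ hz (hy _ hzN).2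

/-- near shapes have lifts, unique when prescribed at the base flag -/
theorem near_lift (N : Set Mo.F) (hN : NearShape Mo N) : ∃ f ∈ N,
    (∀ (C : Cov Mo) (z : C.Y), C.p z = f → ∃ y : Mo.F → C.Y, LiftOn C N y ∧ y f = z) ∧
    ∀ (C : Cov Mo) (y y' : Mo.F → C.Y), LiftOn C N y → LiftOn C N y' → y f = y' f → ∀ g ∈ N, y g = y' g := by
  obtain ⟨⟨q, i⟩, hN⟩ := hN
  refine ⟨(q, i), ?_, ?_, ?_⟩
  · rcases hN with h | h | h | h | h | h | ⟨-, h⟩ <;> subst h <;> simp
  · intro C z hz
    rw [← hz]
    have hpa : C.p (C.a z) = (Mo.L.τ i q, i) := by rw [C.p_a, hz, fa_mk]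
    have hpb : C.p (C.b z) = (Mo.L.τ (i + 1) q, i) := by rw [Cov.p_b, hz]; exact fb_eq _
    have hpr : C.p (C.r z) = (q, i + 1) := by rw [C.p_r, hz, fr_mk]
    have hpab : C.p (C.a (C.b z)) = (Mo.L.τ i (Mo.L.τ (i + 1) q), i) := by rw [C.p_a, hpb, fa_mk]
    have hpar : C.p (C.a (C.r z)) = (Mo.L.τ (i + 1) q, i + 1) := by rw [C.p_a, hpr, fa_mk]
    have hrb : C.r (C.b z) = C.a (C.r z) := by rw [Cov.b, Equiv.apply_symm_apply]
    have hba : C.b (C.a z) = C.a (C.b z) := (C.a_b z).symm
    have hbab : C.b (C.a (C.b z)) = C.a z := by rw [← C.a_b, Cov.b_b]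
    have e1 := f1 (Mo := Mo) i q
    have e2 := f1 (Mo := Mo) (i + 1) q
    have e3 := f2 (Mo := Mo) (n1 i) q
    have e4 := f2 (Mo := Mo) (n1 (i + 1)) q
    rcases hN with h | h | h | h | h | h | ⟨hD, h⟩
    · -- one flag
      refine lift_of_section C N {z} ?_ ?_ ?_ ?_ ?_ z rfl
      · intro g; simp [h, hz, eq_comm]
      · rintro s rfl t rfl -; rfl
      · rintro s rfl hs
        rw [hz, fa_mk, h] at hs
        simp [e1] at hs
      · rintro s rfl hs
        rw [hz, fb_mk, h] at hs
        simp [e2] at hs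
      · rintro s rfl hs
        rw [hz, fr_mk, h] at hs
        simp [z10] at hs
    · -- `f`, `r f`
      replace h : N = ({(q, i), (q, i + 1)} : Set (Mo.Q × ZMod 12)) := h
      refine lift_of_section C N {z, C.r z} ?_ ?_ ?_ ?_ ?_ z (by simp)
      · intro g; simp [h, hz, hpr, eq_comm]
      · rintro s (rfl | rfl) t (rfl | rfl) hst
        · rfl
        · rw [hz, hpr] at hst; simp [z10] at hst
        · rw [hz, hpr] at hst; simp [z10] at hst
        · rfl
      · rintro s (rfl | rfl) hs
        · rw [hz, fa_mk, h] at hs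
          simp [e1] at hs
        · rw [hpr, fa_mk, h] at hs
          simp [e2] at hs
      · rintro s (rfl | rfl) hs
        · rw [hz, fb_mk, h] at hs
          simp [e2] at hs
        · rw [hpr, fb_mk, h] at hs
          simp [f1] at hs
      · rintro s (rfl | rfl) hs
        · simp
        · rw [hpr, fr_mk, h] at hs
          simp [n2, z10] at hs
    · -- `f`, `a f`
      replace h : N = ({(q, i), (Mo.L.τ i q, i)} : Set (Mo.Q × ZMod 12)) := h
      refine lift_of_section C N {z, C.a z} ?_ ?_ ?_ ?_ ?_ z (by simp)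
      · intro g; simp [h, hz, hpa, eq_comm]
      · rintro s (rfl | rfl) t (rfl | rfl) hst
        · rfl
        · rw [hz, hpa] at hst; simp [e1.symm] at hst
        · rw [hz, hpa] at hst; simp [e1] at hst
        · rfl
      · rintro s (rfl | rfl) hs
        · simp
        · simp [C.a_a]
      · rintro s (rfl | rfl) hs
        · rw [hz, fb_mk, h] at hs
          simp [e2, e3] at hs
        · rw [hpa, fb_mk, h] at hs
          simp [f4 (n1 i), f1] at hs
      · rintro s (rfl | rfl) hs
        · rw [hz, fr_mk, h] at hs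
          simp [z10] at hs
        · rw [hpa, fr_mk, h] at hs
          simp [z10] at hs
    · -- `f`, `b f`
      replace h : N = ({(q, i), (Mo.L.τ (i + 1) q, i)} : Set (Mo.Q × ZMod 12)) := by
        rw [h, fb_eq]; rfl
      refine lift_of_section C N {z, C.b z} ?_ ?_ ?_ ?_ ?_ z (by simp)
      · intro g; simp [h, hz, hpb, eq_comm]
      · rintro s (rfl | rfl) t (rfl | rfl) hst
        · rfl
        · rw [hz, hpb] at hst; simp [e2.symm] at hst
        · rw [hz, hpb] at hst; simp [e2] at hst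
        · rfl
      · rintro s (rfl | rfl) hs
        · rw [hz, fa_mk, h] at hs
          simp [e1, e3.symm] at hs
        · rw [hpb, fa_mk, h] at hs
          simp [f4 (n1 i).symm, f1] at hs
      · rintro s (rfl | rfl) hs
        · simp
        · simp [Cov.b_b]
      · rintro s (rfl | rfl) hs
        · rw [hz, fr_mk, h] at hs
          simp [z10] at hs
        · rw [hpb, fr_mk, h] at hs
          simp [z10] at hs
    · -- the midpoint shape
      replace h : N = ({(q, i), (q, i + 1), (Mo.L.τ (i + 1) q, i), (Mo.L.τ (i + 1) q, i + 1)} :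
          Set (Mo.Q × ZMod 12)) := by
        rw [h, fb_eq]; rfl
      refine lift_of_section C N {z, C.r z, C.b z, C.a (C.r z)} ?_ ?_ ?_ ?_ ?_ z (by simp)
      · intro g; simp [h, hz, hpr, hpb, hpar, eq_comm]
      · rintro s (rfl | rfl | rfl | rfl) t (rfl | rfl | rfl | rfl) hst <;>
          first
          | rfl
          | (exfalso
             simp only [hz, hpr, hpb, hpar, Prod.mk.injEq] at hst
             first
             | exact e2 hst.1
             | exact e2 hst.1.symm
             | exact n1 i hst.2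
             | exact n1 i hst.2.symm)
      · rintro s (rfl | rfl | rfl | rfl) hs
        · rw [hz, fa_mk, h] at hs
          simp [e1, e3.symm] at hs
        · simp
        · rw [hpb, fa_mk, h] at hs
          simp [f4 (n1 i).symm, f1] at hs
        · simp [C.a_a]
      · rintro s (rfl | rfl | rfl | rfl) hs
        · simp
        · rw [hpr, fb_mk, h] at hs
          simp [f1, e4] at hs
        · simp [Cov.b_b]
        · rw [hpar, fb_mk, h] at hs
          simp [f1, f4 (n1 (i + 1))] at hs
      · rintro s (rfl | rfl | rfl | rfl) hs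
        · simp
        · rw [hpr, fr_mk, h] at hs
          simp [n2, z10] at hs
        · simp [hrb]
        · rw [hpar, fr_mk, h] at hs
          simp [n2, z10] at hs
    · -- the corner shape
      replace h : N = ({(q, i), (Mo.L.τ i q, i), (Mo.L.τ (i + 1) q, i), (Mo.L.τ i (Mo.L.τ (i + 1) q), i)} :
          Set (Mo.Q × ZMod 12)) := by
        rw [h, fb_eq]; rfl
      refine lift_of_section C N {z, C.a z, C.b z, C.a (C.b z)} ?_ ?_ ?_ ?_ ?_ z (by simp)
      · intro g; simp [h, hz, hpa, hpb, hpab, eq_comm]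
      · have e5 := f4 (Mo := Mo) (n1 i).symm q
        have e6 := f1 (Mo := Mo) i (Mo.L.τ (i + 1) q)
        have e7 : Mo.L.τ i (Mo.L.τ (i + 1) q) ≠ Mo.L.τ i q := by
          intro h7
          have h8 := congrArg (Mo.L.τ i) h7
          rw [Mo.L.inv, Mo.L.inv] at h8
          exact e2 h8
        rintro s (rfl | rfl | rfl | rfl) t (rfl | rfl | rfl | rfl) hst <;>
          first
          | rfl
          | (exfalso
             simp only [hz, hpa, hpb, hpab, Prod.mk.injEq] at hst
             first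
             | exact e1 hst.1
             | exact e1 hst.1.symm
             | exact e2 hst.1
             | exact e2 hst.1.symm
             | exact e3 hst.1
             | exact e3 hst.1.symm
             | exact e5 hst.1
             | exact e5 hst.1.symm
             | exact e6 hst.1
             | exact e6 hst.1.symm
             | exact e7 hst.1
             | exact e7 hst.1.symm)
      · rintro s (rfl | rfl | rfl | rfl) hs <;> simp [C.a_a]
      · rintro s (rfl | rfl | rfl | rfl) hs <;> simp [Cov.b_b, hba, hbab]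
      · rintro s (rfl | rfl | rfl | rfl) hs <;>
          simp [hz, hpa, hpb, hpab, fr_mk, h, z10] at hs
    · -- the chamber shape
      have hq : (C.p z).1 ∉ Mo.D := by rw [hz]; exact hD
      have hpow : ∀ n : ℕ, C.p ((C.r ^ n) z) = (q, i + n) := by
        intro n; rw [Cov.p_pow, hz]
      refine lift_of_section C N {s | ∃ n : ℕ, s = (C.r ^ n) z} ?_ ?_ ?_ ?_ ?_ z ⟨0, by simp⟩
      · rintro ⟨q', j⟩
        rw [h]
        constructor
        · intro hg
          have hg' : q' = q := hg
          subst hg'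
          refine ⟨_, ⟨(j - i).val, rfl⟩, ?_⟩
          rw [hpow, ZMod.natCast_val, ZMod.cast_id', id, add_sub_cancel]
        · rintro ⟨s, ⟨n, rfl⟩, hs⟩
          rw [hpow] at hs
          exact (congrArg Prod.fst hs).symm
      · rintro s ⟨n, rfl⟩ t ⟨m, rfl⟩ hst
        rw [hpow, hpow] at hst
        have h2 : ((n : ℕ) : ZMod 12) = (m : ZMod 12) := add_left_cancel (congrArg Prod.snd hst)
        have h3 : ∀ k : ℕ, (C.r ^ k) z = (C.r ^ (k % 12)) z := by
          intro k
          conv_lhs => rw [← Nat.mod_add_div k 12, pow_add, Equiv.Perm.mul_apply]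
          congr 1
          generalize k / 12 = j
          induction j with
          | zero => simp
          | succ j ih => rw [mul_add, mul_one, pow_add, Equiv.Perm.mul_apply, C.nd z hq, ih]
        have h4 : n % 12 = m % 12 := (ZMod.natCast_eq_natCast_iff' n m 12).1 h2
        rw [h3 n, h3 m, h4]
      · rintro s ⟨n, rfl⟩ hs
        exfalso
        rw [hpow, fa_mk, h] at hs
        exact f1 _ _ hs
      · rintro s ⟨n, rfl⟩ hs
        exfalso
        rw [hpow, fb_mk, h] at hs
        exact f1 _ _ hs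
      · rintro s ⟨n, rfl⟩ hs
        exact ⟨n + 1, by rw [pow_succ', Equiv.Perm.mul_apply]⟩
  · intro C y y' hy hy' hf g hg
    rcases hN with h | h | h | h | h | h | ⟨hD, h⟩
    · subst h
      rcases hg with rfl
      exact hf
    · subst h
      have h1 : y (Mo.fr (q, i)) = y' (Mo.fr (q, i)) := by
        rw [hy.y_r _ (Or.inl rfl) (Or.inr rfl), hy'.y_r _ (Or.inl rfl) (Or.inr rfl), hf]
      rcases hg with rfl | rfl
      exacts [hf, h1]
    · subst h
      have h1 : y (Mo.fa (q, i)) = y' (Mo.fa (q, i)) := by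
        rw [hy.y_a _ (Or.inl rfl) (Or.inr rfl), hy'.y_a _ (Or.inl rfl) (Or.inr rfl), hf]
      rcases hg with rfl | rfl
      exacts [hf, h1]
    · subst h
      have h1 : y (Mo.base.b (q, i)) = y' (Mo.base.b (q, i)) := by
        rw [hy.y_b _ (Or.inl rfl) (Or.inr rfl), hy'.y_b _ (Or.inl rfl) (Or.inr rfl), hf]
      rcases hg with rfl | rfl
      exacts [hf, h1]
    · subst h
      have h1 : y (Mo.fr (q, i)) = y' (Mo.fr (q, i)) := by
        rw [hy.y_r _ (Or.inl rfl) (Or.inr (Or.inl rfl)), hy'.y_r _ (Or.inl rfl) (Or.inr (Or.inl rfl)), hf]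
      have h2 : y (Mo.base.b (q, i)) = y' (Mo.base.b (q, i)) := by
        rw [hy.y_b _ (Or.inl rfl) (Or.inr (Or.inr (Or.inl rfl))), hy'.y_b _ (Or.inl rfl) (Or.inr (Or.inr (Or.inl rfl))), hf]
      have h3 : y (Mo.fa (Mo.fr (q, i))) = y' (Mo.fa (Mo.fr (q, i))) := by
        rw [hy.y_a _ (Or.inr (Or.inl rfl)) (Or.inr (Or.inr (Or.inr rfl))), hy'.y_a _ (Or.inr (Or.inl rfl)) (Or.inr (Or.inr (Or.inr rfl))), h1]
      rcases hg with rfl | rfl | rfl | rfl
      exacts [hf, h1, h2, h3]
    · subst h
      have h1 : y (Mo.fa (q, i)) = y' (Mo.fa (q, i)) := by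
        rw [hy.y_a _ (Or.inl rfl) (Or.inr (Or.inl rfl)), hy'.y_a _ (Or.inl rfl) (Or.inr (Or.inl rfl)), hf]
      have h2 : y (Mo.base.b (q, i)) = y' (Mo.base.b (q, i)) := by
        rw [hy.y_b _ (Or.inl rfl) (Or.inr (Or.inr (Or.inl rfl))), hy'.y_b _ (Or.inl rfl) (Or.inr (Or.inr (Or.inl rfl))), hf]
      have h3 : y (Mo.fa (Mo.base.b (q, i))) = y' (Mo.fa (Mo.base.b (q, i))) := by
        rw [hy.y_a _ (Or.inr (Or.inr (Or.inl rfl))) (Or.inr (Or.inr (Or.inr rfl))), hy'.y_a _ (Or.inr (Or.inr (Or.inl rfl))) (Or.inr (Or.inr (Or.inr rfl))), h2]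
      rcases hg with rfl | rfl | rfl | rfl
      exacts [hf, h1, h2, h3]
    · have hmem : ∀ k : ZMod 12, (q, k) ∈ N := fun k => by rw [h]; exact rfl
      have h1 : ∀ n : ℕ, y (q, i + n) = y' (q, i + n) := by
        intro n
        induction n with
        | zero => simpa using hf
        | succ n ih =>
          have h2 := hy.y_r (q, i + n) (hmem _) (hmem _)
          have h3 := hy'.y_r (q, i + n) (hmem _) (hmem _)
          rw [fr_mk] at h2 h3
          rw [Nat.cast_succ, ← add_assoc, h2, h3, ih]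
      obtain ⟨q', j⟩ := g
      rw [h] at hg
      have hg' : q' = q := hg
      subst hg'
      have h2 := h1 (j - i).val
      rwa [ZMod.natCast_val, ZMod.cast_id', id, add_sub_cancel] at h2

end LocPotAux

open LocPotAux in
theorem stmt_LocPot : Stmt_LocPot := by
  intro Mo C A _ α β h1 h2 h3 N y hN hy
  obtain ⟨f0, hf0, hex, huniq⟩ := near_lift N hN
  set T : Cov Mo := C.twist α β h1 h2 h3 with hT
  have hTb : ∀ (u : C.Y) (x : A), T.b ((u, x) : C.Y × A) =
      ((C.b u, (β (C.b u))⁻¹ * α (C.r u) * β u * x) : C.Y × A) := by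
    intro u x
    refine Prod.ext rfl ?_
    change (β (C.b u))⁻¹ * (α (C.r u) * (β u * x)) = _
    simp only [mul_assoc]
  constructor
  · obtain ⟨w, hw, hw0⟩ := hex T (y f0, 1) (hy.p_y f0 hf0)
    have hproj : LiftOn C N (fun g => (w g).1) :=
      { p_y := fun f hf => hw.p_y f hf
        y_a := fun f hf hf' => by
          have h := hw.y_a f hf hf'
          exact congrArg Prod.fst h
        y_b := fun f hf hf' => by
          have h := hw.y_b f hf hf'
          exact congrArg Prod.fst h
        y_r := fun f hf hf' => by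
          have h := hw.y_r f hf hf'
          exact congrArg Prod.fst h }
    have hwy : ∀ g ∈ N, (w g).1 = y g := huniq C _ _ hproj hy (by rw [hw0])
    refine ⟨fun g => (w g).2, fun f hf => ⟨fun hf' => ?_, fun hf' => ?_, fun hf' => ?_⟩⟩
    · have h := congrArg Prod.snd (hw.y_a f hf hf')
      rw [← hwy f hf]
      exact h
    · have h := congrArg Prod.snd (hw.y_r f hf hf')
      rw [← hwy f hf]
      exact h
    · have h := congrArg Prod.snd (hw.y_b f hf hf')
      rw [← hwy f hf]
      exact h.trans (congrArg Prod.snd (hTb (w f).1 (w f).2))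
  · intro θ θ' hθ hθ'
    have hlift : ∀ η : Mo.F → A, LocPot C α β N y η → LiftOn T N (fun g => ((y g, η g) : C.Y × A)) := by
      intro η hη
      exact
        { p_y := fun f hf => hy.p_y f hf
          y_a := fun f hf hf' => Prod.ext (hy.y_a f hf hf') ((hη f hf).1 hf')
          y_b := fun f hf hf' => by
            change ((y (Mo.base.b f), η (Mo.base.b f)) : C.Y × A) = T.b ((y f, η f) : C.Y × A)
            rw [hTb]
            exact Prod.ext (hy.y_b f hf hf') ((hη f hf).2.2 hf')
          y_r := fun f hf hf' => Prod.ext (hy.y_r f hf hf') ((hη f hf).2.1 hf') }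
    set c : A := (θ' f0)⁻¹ * θ f0 with hc
    have hθ'' : LocPot C α β N y (fun g => θ' g * c) := by
      intro f hf
      obtain ⟨p1, p2, p3⟩ := hθ' f hf
      refine ⟨fun h => ?_, fun h => ?_, fun h => ?_⟩
      · show θ' (Mo.fa f) * c = α (y f) * (θ' f * c)
        rw [p1 h, mul_assoc]
      · show θ' (Mo.fr f) * c = β (y f) * (θ' f * c)
        rw [p2 h, mul_assoc]
      · show θ' (Mo.base.b f) * c = _ * (θ' f * c)
        rw [p3 h, mul_assoc]
    have hkey : ∀ g ∈ N, θ g = θ' g * c := by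
      intro g hg
      have h := huniq T _ _ (hlift θ hθ) (hlift _ hθ'') (by
        refine Prod.ext rfl ?_
        show θ f0 = θ' f0 * c
        rw [hc, mul_inv_cancel_left]) g hg
      exact congrArg Prod.snd h
    intro f hf g hg
    rw [hkey g hg, hkey f hf, mul_inv_rev]
    group

end Pool.CX
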