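import Pool.Agent.Work.MP_727c87_cx.E2.Interface
import Pool.Agent.Work.MP_727c87_gt_helper49.Main

/-!
# Part (E2), block MB: bottleneck property and the map to a graph, weak topology
-/

set_option autoImplicit false

namespace Pool.CX

namespace MB

open Set Topology Filter Relation UW727
open scoped ENNReal

/-- A map to `|K|`, continuous for the coordinates, whose supports are locally in a finite set of
vertices is continuous for the weak topology. -/
theorem weak_continuous {X V : Type*} [TopologicalSpace X] {K : PreAbstractSimplicialComplex V}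
    {f : X → Realization K} (hf : Continuous f)
    (h : ∀ x, ∃ W : Finset V, ∀ᶠ y in 𝓝 x, ∀ v, v ∉ W → (f y).1 v = 0) :
    @Continuous _ _ _ (weakTopology K) f := by
  classical
  refine (@continuous_def _ _ _ (weakTopology K) f).2 fun U hU => ?_
  have hU' := isOpen_iSup_iff.1 hU
  rw [isOpen_iff_mem_nhds]
  intro x hx
  obtain ⟨W, hW⟩ := h x
  let D : Finset V → Set (Realization K) := fun s => {y | ∀ v, v ∉ s → y.1 v = 0}
  have hD : ∀ s, IsClosed (D s) := by
    intro s
    have : D s = ⋂ v : V, ⋂ _ : v ∉ s, {y : Realization K | y.1 v = 0} := by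
      ext y
      simp [D]
    rw [this]
    refine isClosed_iInter fun v => isClosed_iInter fun _ => ?_
    have hval : Continuous (fun y : Realization K => (y.1 : V → ℝ)) := continuous_subtype_val
    exact isClosed_eq ((continuous_apply v).comp hval) continuous_const
  have hC : ∀ s ∈ K.faces, IsClosed (D s ∩ Uᶜ) := by
    intro s hs
    have h1 : IsOpen ((Subtype.val : {y : Realization K // ∀ v, v ∉ s → y.1 v = 0} →
        Realization K) ⁻¹' U) := hU' ⟨s, hs⟩
    have h2 : IsClosed ((Subtype.val : {y : Realization K // ∀ v, v ∉ s → y.1 v = 0} →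
        Realization K) ⁻¹' Uᶜ) := by
      rw [preimage_compl]
      exact h1.isClosed_compl
    have h3 := (hD s).isClosedEmbedding_subtypeVal.isClosedMap _ h2
    have h4 : (Subtype.val : {y : Realization K // ∀ v, v ∉ s → y.1 v = 0} →
        Realization K) '' ((Subtype.val : {y : Realization K // ∀ v, v ∉ s → y.1 v = 0} →
        Realization K) ⁻¹' Uᶜ) = D s ∩ Uᶜ := by
      ext y
      constructor
      · rintro ⟨⟨y', hy'⟩, hyU, rfl⟩
        exact ⟨hy', hyU⟩
      · rintro ⟨hy1, hy2⟩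
        exact ⟨⟨y, hy1⟩, hy2, rfl⟩
    exact h4 ▸ h3
  have hclosed : IsClosed (⋃ s ∈ (W.powerset.filter fun s => s ∈ K.faces), D s ∩ Uᶜ) :=
    isClosed_biUnion_finset fun s hs => hC s (Finset.mem_filter.1 hs).2
  have hnot : f x ∉ (⋃ s ∈ (W.powerset.filter fun s => s ∈ K.faces), D s ∩ Uᶜ) := by
    simp only [mem_iUnion, not_exists]
    intro s _ hs
    exact hs.2 hx
  have hev := hf.continuousAt.eventually (hclosed.isOpen_compl.mem_nhds hnot)
  filter_upwards [hW, hev] with y hy1 hy2
  by_contra hyU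
  apply hy2
  obtain ⟨s, hs, hs1, hs2⟩ := (f y).2.2
  have hne : (s ∩ W).Nonempty := by
    by_contra hemp
    rw [Finset.not_nonempty_iff_eq_empty] at hemp
    have h0 : ∑ v ∈ s, (f y).1 v = 0 := Finset.sum_eq_zero fun v hv => by
      refine hy1 v fun hvW => ?_
      have : v ∈ s ∩ W := Finset.mem_inter.2 ⟨hv, hvW⟩
      rw [hemp] at this
      simp at this
    rw [h0] at hs2
    norm_num at hs2
  have hface : s ∩ W ∈ K.faces :=
    (K.isRelLowerSet_faces hs).2 Finset.inter_subset_left hne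
  simp only [mem_iUnion]
  refine ⟨s ∩ W, Finset.mem_filter.2 ⟨Finset.mem_powerset.2 Finset.inter_subset_right, hface⟩,
    fun v hv => ?_, hyU⟩
  rw [Finset.mem_inter, not_and_or] at hv
  rcases hv with hv | hv
  · exact hs1 v hv
  · exact hy1 v hv

theorem toGraph_weak {M : Type*} [MetricSpace M] {C : ℝ} (hC : 0 < C) (y0 : M) :
    @Continuous _ _ _ (weakTopology (cgraph (Vert C y0))) (toGraph hC y0) := by
  classical
  refine weak_continuous (toGraph_continuous hC y0) fun y1 => ?_
  set S : Set (Vert C y0) := {v | ∃ y ∈ Metric.ball y1 (C / 2), bary C y0 y v ≠ 0} with hS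
  have key : ∀ v ∈ S, ∃ y ∈ Metric.ball y1 (C / 2), y ∈ Ann C y0 v.1.1 ∧
      cls C y0 v.1.1 y = v.1.2 := by
    rintro v ⟨y, hy, hv⟩
    refine ⟨y, hy, ?_⟩
    unfold bary at hv
    split_ifs at hv with hcl
    · refine ⟨(tent_pos_iff hC).1 ?_, hcl⟩
      exact lt_of_le_of_ne (tent_nonneg _ _ _ _) (Ne.symm hv)
    · exact absurd rfl hv
  have hinj : InjOn (fun v : Vert C y0 => v.1.1) S := by
    intro v hv v' hv' he
    simp only at he
    obtain ⟨y, hy, hya, hyc⟩ := key v hv
    obtain ⟨y', hy', hya', hyc'⟩ := key v' hv'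
    rw [← he] at hya' hyc'
    have hd : dist y y' < C := by
      have h1 := dist_triangle_right y y' y1
      rw [Metric.mem_ball] at hy hy'
      linarith
    have h2 : cls C y0 v.1.1 y = cls C y0 v.1.1 y' := cls_eq (ReflTransGen.single ⟨hya, hya', hd⟩)
    apply Subtype.ext
    refine Prod.ext he ?_
    rw [← hyc, ← hyc', h2]
  obtain ⟨B, hB⟩ := exists_nat_gt (dist y1 y0 / C + 2)
  have hfin : S.Finite := by
    refine Set.Finite.of_finite_image ((Set.finite_Iic B).subset ?_) hinj
    rintro _ ⟨v, hv, rfl⟩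
    obtain ⟨y, hy, hya, _⟩ := key v hv
    have h1 := hya.1
    rw [Metric.mem_ball] at hy
    have h2 := dist_triangle y y1 y0
    have h3 : dist y1 y0 / C * C = dist y1 y0 := div_mul_cancel₀ _ hC.ne'
    have h4 : ((v.1.1 : ℝ) - 1) * C < (dist y1 y0 / C + 1) * C := by nlinarith
    have h5 := lt_of_mul_lt_mul_right h4 hC.le
    have h6 : (v.1.1 : ℝ) < B := by linarith
    have h7 : v.1.1 < B := by exact_mod_cast h6
    exact h7.le
  refine ⟨hfin.toFinset, ?_⟩
  filter_upwards [Metric.ball_mem_nhds y1 (half_pos hC)] with y hy v hv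
  by_contra hne
  exact hv (hfin.mem_toFinset.2 ⟨y, hy, hne⟩)

variable {X : Type} [MetricSpace X]

/-- the path along a chain -/
theorem chain_path {A : ℝ}
    (hgeo : ∀ (x x' : X) (ε : ℝ), 0 < ε → ∃ γ : Path x x', ∀ t, dist x (γ t) + dist (γ t) x' ≤
      dist x x' + ε) {x0 : X} {k : ℕ} {z z' : X} (hA : 0 < A) (hz : z ∈ Ann A x0 k)
    (h : Ch A (Ann A x0 k) z z') :
    ∃ α : Path z z', ∀ t, ((k : ℝ) - 2) * A ≤ dist (α t) x0 := by
  induction h with
  | refl =>
    refine ⟨Path.refl z, fun t => ?_⟩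
    have := hz.1
    simp only [Path.refl_apply]
    nlinarith
  | @tail b c hb hs ih =>
    obtain ⟨α, hα⟩ := ih
    obtain ⟨hb1, hc1, hd⟩ := hs
    obtain ⟨γ, hγ⟩ := hgeo b c (A - dist b c) (by linarith)
    refine ⟨α.trans γ, fun t => ?_⟩
    have hmem : (α.trans γ) t ∈ range α ∪ range γ := by
      rw [← Path.trans_range]
      exact mem_range_self t
    rcases hmem with ⟨s, hs⟩ | ⟨s, hs⟩
    · rw [← hs]
      exact hα s
    · rw [← hs]
      have h1 := hγ s
      have h2 : dist b (γ s) ≤ A := by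
        have := dist_nonneg (x := γ s) (y := c)
        linarith
      have h3 := dist_triangle b (γ s) x0
      have h4 := hb1.1
      nlinarith

theorem fibre_bound {A : ℝ} (hA : 0 < A)
    (hgeo : ∀ (x x' : X) (ε : ℝ), 0 < ε → ∃ γ : Path x x', ∀ t, dist x (γ t) + dist (γ t) x' ≤
      dist x x' + ε)
    (hbot : ∀ x x' : X, ∃ (n : ℕ) (w : ℕ → X), w 0 = x ∧ w n = x' ∧
      (∀ i < n, dist (w i) (w (i + 1)) ≤ A) ∧ ∀ i ≤ n, ∀ γ : Path x x', ∃ t, dist (w i) (γ t) ≤ A)
    {x0 : X} {k : ℕ} {z z' : X} (hz : z ∈ Ann A x0 k) (h : Ch A (Ann A x0 k) z z') :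
    dist z z' ≤ 15 * A := by
  classical
  have hz' : z' ∈ Ann A x0 k := Ch.mem hz h
  obtain ⟨α, hα⟩ := chain_path hgeo hA hz h
  obtain ⟨n, w, hw0, hwn, hws, hw⟩ := hbot z z'
  obtain ⟨γ1, hγ1⟩ := hgeo z x0 A hA
  obtain ⟨γ2, hγ2⟩ := hgeo x0 z' A hA
  have hfar : ∀ i ≤ n, ((k : ℝ) - 3) * A ≤ dist (w i) x0 := by
    intro i hi
    obtain ⟨t, ht⟩ := hw i hi α
    have h1 := hα t
    have h2 := dist_triangle_left (α t) x0 (w i)
    linarith
  have hnear : ∀ i ≤ n, dist z (w i) ≤ 7 * A ∨ dist (w i) z' ≤ 7 * A := by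
    intro i hi
    obtain ⟨t, ht⟩ := hw i hi (γ1.trans γ2)
    have h0 := hfar i hi
    have hmem : (γ1.trans γ2) t ∈ range γ1 ∪ range γ2 := by
      rw [← Path.trans_range]
      exact mem_range_self t
    rcases hmem with ⟨s, hs⟩ | ⟨s, hs⟩
    · left
      rw [← hs] at ht
      have h1 := hγ1 s
      have h2 := dist_triangle (w i) (γ1 s) x0
      have h3 := hz.2
      have h4 := dist_triangle_right z (w i) (γ1 s)
      nlinarith
    · right
      rw [← hs] at ht
      have h1 := hγ2 s
      have h2 := dist_triangle (w i) (γ2 s) x0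
      have h3 := hz'.2
      have h4 := dist_triangle (w i) (γ2 s) z'
      rw [dist_comm x0 (γ2 s), dist_comm x0 z'] at h1
      nlinarith
  by_cases hall : ∀ i ≤ n, dist z (w i) ≤ 7 * A
  · have := hall n le_rfl
    rw [hwn] at this
    linarith
  · push Not at hall
    obtain ⟨hi1, hi2⟩ := Nat.find_spec hall
    have hmin : ∀ j < Nat.find hall, ¬ (j ≤ n ∧ 7 * A < dist z (w j)) := fun j hj =>
      Nat.find_min hall hj
    set i := Nat.find hall
    have hi0 : i ≠ 0 := by
      intro h0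
      rw [h0, hw0, dist_self] at hi2
      linarith
    obtain ⟨j, hj⟩ := Nat.exists_eq_succ_of_ne_zero hi0
    have h1 := hmin j (by omega)
    have h2 : dist z (w j) ≤ 7 * A := by
      by_contra h3
      exact h1 ⟨by omega, not_le.1 h3⟩
    have h3 : dist (w j) (w (j + 1)) ≤ A := hws j (by omega)
    have h4 : dist (w (j + 1)) z' ≤ 7 * A := by
      rcases hnear i hi1 with h5 | h5
      · linarith
      · rw [hj] at h5
        exact h5
    have h5 := dist_triangle z (w j) z'
    have h6 := dist_triangle (w j) (w (j + 1)) z'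
    linarith

end MB

open MB UW727 in
theorem stmt_MB : Stmt_MB := by
  intro X _ _ A hA hgeo hbot
  obtain ⟨x0⟩ := ‹Nonempty X›
  unfold urysohnWidthW
  refine (iInf_le _ (Vert A x0)).trans ?_
  refine (iInf_le _ (cgraph _)).trans ?_
  refine (iInf_le _ (fun s hs => hs.2)).trans ?_
  refine (iInf_le _ (toGraph hA x0)).trans ?_
  refine (iInf_le _ (toGraph_weak hA x0)).trans ?_
  refine iSup_le fun y => Metric.ediam_le fun z hz z' hz' => ?_
  rw [Set.mem_preimage, Set.mem_singleton_iff] at hz hz'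
  obtain ⟨k, hk1, hk2⟩ := toGraph_fibre hA x0 (hz.trans hz'.symm)
  rw [edist_dist]
  exact ENNReal.ofReal_le_ofReal (fibre_bound hA hgeo hbot hk1 hk2)

end Pool.CX
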