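import Pool.Agent.Work.MP_727c87_cx.E2.Interface

/-!
# Block Sheets: a covering is trivial over a set with null-homotopic inclusion
-/

set_option autoImplicit false

namespace Pool.CX

open Set Topology
open scoped unitInterval

theorem stmt_Sheets : Stmt_Sheets := by
  classical
  intro X M _ _ p cov U hU
  obtain ⟨ms, H, H0, H1⟩ := hU
  -- the homotopy on the preimage of `U`
  let q : C((p ⁻¹' U : Set X), U) :=
    ⟨fun z => ⟨p z.1, z.2⟩, (cov.continuous.comp continuous_subtype_val).subtype_mk _⟩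
  let G : C(I × (p ⁻¹' U : Set X), M) := H.comp ((ContinuousMap.id I).prodMap q)
  have hG : ∀ s z, G (s, z) = H (s, q z) := fun s z => rfl
  let f : C((p ⁻¹' U : Set X), X) := ⟨Subtype.val, continuous_subtype_val⟩
  have G0 : ∀ z, G (0, z) = p (f z) := fun z => H0 (q z)
  let Φ := cov.liftHomotopy G f G0
  have hΦp : ∀ s z, p (Φ (s, z)) = H (s, q z) := fun s z =>
    congrFun (cov.liftHomotopy_lifts G f G0) (s, z)
  have hΦ0 : ∀ z, Φ (0, z) = z.1 := fun z => cov.liftHomotopy_zero G f G0 z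
  let e : X → X := fun z => if h : z ∈ p ⁻¹' U then Φ (1, ⟨z, h⟩) else z
  have he : ∀ z (h : z ∈ p ⁻¹' U), e z = Φ (1, ⟨z, h⟩) := fun z h => dif_pos h
  refine ⟨e, ?_, ?_, ?_⟩
  · intro z z' hz
    obtain ⟨γ, hγ⟩ := hz
    have h0 : z ∈ p ⁻¹' U := by simpa using hγ 0
    have h1 : z' ∈ p ⁻¹' U := by simpa using hγ 1
    let g : I → X := fun t => Φ (1, ⟨γ t, hγ t⟩)
    have hg : Continuous g :=
      Φ.continuous.comp (continuous_const.prodMk (γ.continuous.subtype_mk hγ))
    have hc : ∀ a a' : I, p (g a) = p (g a') := by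
      intro a a'
      show p (Φ (1, _)) = p (Φ (1, _))
      rw [hΦp, hΦp, H1, H1]
    have h := cov.const_of_comp hg hc 0 1
    rw [he z h0, he z' h1]
    have e0 : g 0 = Φ (1, ⟨z, h0⟩) := by
      show Φ (1, ⟨γ 0, hγ 0⟩) = _
      congr 3
      exact γ.source
    have e1 : g 1 = Φ (1, ⟨z', h1⟩) := by
      show Φ (1, ⟨γ 1, hγ 1⟩) = _
      congr 3
      exact γ.target
    rw [← e0, ← e1, h]
  · intro z z' hz hp hzz
    have hz' : z' ∈ p ⁻¹' U := by
      show p z' ∈ U
      rw [← hp]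
      exact hz
    rw [he z hz, he z' hz'] at hzz
    have hq : q ⟨z, hz⟩ = q ⟨z', hz'⟩ := Subtype.ext hp
    have h := cov.eq_of_comp_eq
      (g₁ := fun s : I => Φ (s, ⟨z, hz⟩)) (g₂ := fun s : I => Φ (s, ⟨z', hz'⟩))
      (Φ.continuous.comp (continuous_id.prodMk continuous_const))
      (Φ.continuous.comp (continuous_id.prodMk continuous_const))
      (by
        funext s
        show p (Φ (s, _)) = p (Φ (s, _))
        rw [hΦp, hΦp, hq]) 1 hzz
    have h2 := congrFun h 0
    simpa only [hΦ0] using h2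
  · intro z hz m hm
    have hez : p (e z) = ms := by
      rw [he z hz, hΦp, H1]
    let γ : C(I, M) := ⟨fun s => H (σ s, ⟨m, hm⟩),
      H.continuous.comp (unitInterval.continuous_symm.prodMk continuous_const)⟩
    have γ0 : γ 0 = p (e z) := by
      show H (σ 0, ⟨m, hm⟩) = _
      rw [unitInterval.symm_zero, H1, hez]
    let Γ := cov.liftPath γ (e z) γ0
    have hΓ : ∀ s, p (Γ s) = H (σ s, ⟨m, hm⟩) := fun s =>
      congrFun (cov.liftPath_lifts γ (e z) γ0) s
    have hΓ0 : Γ 0 = e z := cov.liftPath_zero γ (e z) γ0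
    have hpz : p (Γ 1) = m := by
      rw [hΓ, unitInterval.symm_one, H0]
    have hz' : Γ 1 ∈ p ⁻¹' U := by
      show p (Γ 1) ∈ U
      rw [hpz]
      exact hm
    refine ⟨Γ 1, hpz, ?_⟩
    rw [he _ hz']
    have hq : q ⟨Γ 1, hz'⟩ = ⟨m, hm⟩ := Subtype.ext hpz
    have h := cov.eq_of_comp_eq
      (g₁ := fun s : I => Φ (s, ⟨Γ 1, hz'⟩)) (g₂ := fun s : I => Γ (σ s))
      (Φ.continuous.comp (continuous_id.prodMk continuous_const))
      (Γ.continuous.comp unitInterval.continuous_symm)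
      (by
        funext s
        show p (Φ (s, _)) = p (Γ (σ s))
        rw [hΦp, hΓ, unitInterval.symm_symm, hq]) 0
      (by
        show Φ (0, _) = Γ (σ 0)
        rw [hΦ0, unitInterval.symm_zero])
    have h2 := congrFun h 1
    simp only [unitInterval.symm_one] at h2
    rw [h2, hΓ0]

end Pool.CX
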