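import Pool.Agent.Work.MP_727c87_cx.E2.Interface

/-!
# Part (E2): the covering of the flag complex defined by a covering of the manifold (helper89)
-/

set_option autoImplicit false

namespace Pool.CX

open Set Topology
open scoped unitInterval

namespace XCovB

section

variable {X M : Type} [TopologicalSpace X] [TopologicalSpace M] {p : X → M}

/-- lifting of paths which are in a set -/
theorem lift_joined (hp : IsCoveringMap p) {S : Set M} {z : X} {m : M}
    (h : JoinedIn S (p z) m) : ∃ z', p z' = m ∧ JoinedIn (p ⁻¹' S) z z' := by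
  obtain ⟨γ, hγ⟩ := h
  obtain ⟨Γ, h1, h2⟩ := hp.exists_path_lifts γ.toContinuousMap z γ.source
  have h3 : ∀ t, p (Γ t) = γ t := fun t => congrFun h1 t
  refine ⟨Γ 1, ?_, ⟨⟨Γ, h2, rfl⟩, ?_⟩⟩
  · rw [h3, γ.target]
  · intro t
    show p (Γ t) ∈ S
    rw [h3]
    exact hγ t

/-- two sheets over sets with a path connected intersection -/
theorem key (hp : IsCoveringMap p) {S T : Set M} {eS eT : X → X} (hS : Sheets p S eS)
    (hT : Sheets p T eT) (hpc : IsPathConnected (S ∩ T)) {z z' : X} (hz : p z ∈ S ∩ T)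
    (hz' : p z' ∈ S ∩ T) (h : eS z = eS z') : eT z = eT z' := by
  obtain ⟨z'', h1, h2⟩ := lift_joined hp (hpc.joinedIn _ hz _ hz')
  have h3 : eS z = eS z'' := hS.path _ _ (h2.mono (fun x hx => hx.1))
  have h4 : eT z = eT z'' := hT.path _ _ (h2.mono (fun x hx => hx.2))
  have h5 : z'' = z' := by
    refine hS.inj z'' z' ?_ h1 (h3.symm.trans h)
    rw [h1]
    exact hz'.1
  rw [h4, h5]

end

section

variable {Mo : Model} {X M : Type} [TopologicalSpace X] [TopologicalSpace M]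
  {FC : FlagCover Mo M} {p : X → M} {e : Mo.F → X → X}

/-- the sheets -/
def YY (Mo : Model) {X M : Type} [TopologicalSpace M] (FC : FlagCover Mo M) (p : X → M)
    (e : Mo.F → X → X) : Type :=
  {y : Mo.F × X // ∃ z, p z ∈ FC.U y.1 ∧ e y.1 z = y.2}

/-- the flag of a sheet -/
def YY.fl (c : YY Mo FC p e) : Mo.F := c.1.1

/-- the point `z` is in the sheet `c` -/
def Rep (c : YY Mo FC p e) (z : X) : Prop := p z ∈ FC.U c.fl ∧ e c.fl z = c.1.2

omit [TopologicalSpace X] in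
theorem Rep.ext {c c' : YY Mo FC p e} {z : X} (h : Rep c z) (h' : Rep c' z)
    (hf : c.fl = c'.fl) : c = c' := by
  apply Subtype.ext
  refine Prod.ext hf ?_
  rw [← h.2, ← h'.2, hf]

/-- the sheet of a point -/
def mk (f : Mo.F) (z : X) (h : p z ∈ FC.U f) : YY Mo FC p e := ⟨(f, e f z), z, h, rfl⟩

omit [TopologicalSpace X] in
theorem mk_rep (f : Mo.F) (z : X) (h : p z ∈ FC.U f) : Rep (mk (e := e) f z h) z := ⟨h, rfl⟩

theorem exists_rep (he : ∀ f, Sheets p (FC.U f) (e f)) (c : YY Mo FC p e) {m : M}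
    (hm : m ∈ FC.U c.fl) : ∃ z, p z = m ∧ Rep c z := by
  obtain ⟨⟨f, x⟩, z0, h1, h2⟩ := c
  obtain ⟨z, h3, h4⟩ := (he f).surj z0 h1 m hm
  refine ⟨z, h3, ?_, ?_⟩
  · show p z ∈ FC.U f
    rw [h3]
    exact hm
  · show e f z = x
    rw [h4]
    exact h2

/-- moves -/
theorem exists_move (hp : IsCoveringMap p) (he : ∀ f, Sheets p (FC.U f) (e f))
    (φ : Mo.F → Mo.F) (hφ : ∀ f, IsPathConnected (FC.U f ∩ FC.U (φ f))) :
    ∃ μ : YY Mo FC p e → YY Mo FC p e, (∀ c, (μ c).fl = φ c.fl) ∧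
      ∀ c z, Rep c z → p z ∈ FC.U (φ c.fl) → Rep (μ c) z := by
  have h1 : ∀ c : YY Mo FC p e, ∃ c' : YY Mo FC p e, c'.fl = φ c.fl ∧
      ∀ z, Rep c z → p z ∈ FC.U (φ c.fl) → Rep c' z := by
    intro c
    obtain ⟨m, hm1, hm2⟩ := (hφ c.fl).nonempty
    obtain ⟨z, hz1, hz2⟩ := exists_rep he c hm1
    have hz3 : p z ∈ FC.U (φ c.fl) := by
      rw [hz1]
      exact hm2
    refine ⟨mk (φ c.fl) z hz3, rfl, fun z' h1 h2 => ⟨h2, ?_⟩⟩
    show e (φ c.fl) z' = e (φ c.fl) z
    exact key hp (he c.fl) (he (φ c.fl)) (hφ c.fl) ⟨h1.1, h2⟩ ⟨hz2.1, hz3⟩ (h1.2.trans hz2.2.symm)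
  choose μ h2 h3 using h1
  exact ⟨μ, h2, h3⟩

end

end XCovB

open XCovB in
theorem stmt_XCov (hS : Stmt_Sheets) : Stmt_XCov := by
  classical
  intro Mo M _ FC X _ p hp
  choose e he using fun f => hS X M p hp (FC.U f) (FC.null f)
  -- the moves
  obtain ⟨a, ha1, ha2⟩ := exists_move hp he Mo.fa FC.pc_a
  obtain ⟨b, hb1, hb2⟩ := exists_move hp he Mo.base.b FC.pc_b
  obtain ⟨r, hr1, hr2⟩ := exists_move hp he Mo.fr FC.pc_r
  have pc_r' : ∀ f, IsPathConnected (FC.U f ∩ FC.U (Mo.fr.symm f)) := by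
    intro f
    have h := FC.pc_r (Mo.fr.symm f)
    rw [Equiv.apply_symm_apply, Set.inter_comm] at h
    exact h
  obtain ⟨r', hr'1, hr'2⟩ := exists_move hp he Mo.fr.symm pc_r'
  have hl : Function.LeftInverse r' r := by
    intro c
    obtain ⟨m, hm1, hm2⟩ := (FC.pc_r c.fl).nonempty
    obtain ⟨z, hz1, hz2⟩ := exists_rep he c hm1
    have k1 : Rep (r c) z := hr2 c z hz2 (by rw [hz1]; exact hm2)
    have k2 : Mo.fr.symm (r c).fl = c.fl := by rw [hr1, Equiv.symm_apply_apply]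
    have k3 : Rep (r' (r c)) z := hr'2 _ z k1 (by rw [k2]; exact hz2.1)
    exact k3.ext hz2 (by rw [hr'1, k2])
  have hr : Function.RightInverse r' r := by
    intro c
    obtain ⟨m, hm1, hm2⟩ := (pc_r' c.fl).nonempty
    obtain ⟨z, hz1, hz2⟩ := exists_rep he c hm1
    have k1 : Rep (r' c) z := hr'2 c z hz2 (by rw [hz1]; exact hm2)
    have k2 : Mo.fr (r' c).fl = c.fl := by rw [hr'1, Equiv.apply_symm_apply]
    have k3 : Rep (r (r' c)) z := hr2 _ z k1 (by rw [k2]; exact hz2.1)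
    exact k3.ext hz2 (by rw [hr1, k2])
  -- the side at the other end
  have hb : ∀ c, r' (a (r c)) = b c := by
    intro c
    obtain ⟨m, hm1, hm2, hm3, hm4⟩ := FC.mid c.fl
    obtain ⟨z, hz1, hz2⟩ := exists_rep he c hm1
    have k1 : Rep (r c) z := hr2 c z hz2 (by rw [hz1]; exact hm2)
    have k2 : Rep (a (r c)) z := ha2 _ z k1 (by rw [hr1, hz1]; exact hm4)
    have e3 : Mo.fr.symm (a (r c)).fl = Mo.base.b c.fl := by
      rw [ha1, hr1]
      rfl
    have k3 : Rep (r' (a (r c))) z := hr'2 _ z k2 (by rw [e3, hz1]; exact hm3)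
    have k4 : Rep (b c) z := hb2 c z hz2 (by rw [hz1]; exact hm3)
    exact k3.ext k4 (by rw [hr'1, e3, hb1])
  have haa : ∀ c, a (a c) = c := by
    intro c
    obtain ⟨m, hm1, hm2⟩ := (FC.pc_a c.fl).nonempty
    obtain ⟨z, hz1, hz2⟩ := exists_rep he c hm1
    have k1 : Rep (a c) z := ha2 c z hz2 (by rw [hz1]; exact hm2)
    have k2 : Mo.fa (a c).fl = c.fl := by
      rw [ha1]
      exact Mo.base.a_a c.fl
    have k3 : Rep (a (a c)) z := ha2 _ z k1 (by rw [k2]; exact hz2.1)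
    exact k3.ext hz2 (by rw [ha1, k2])
  have hab : ∀ c, a (b c) = b (a c) := by
    intro c
    obtain ⟨m, hm1, hm2, hm3, hm4⟩ := FC.corner c.fl
    obtain ⟨z, hz1, hz2⟩ := exists_rep he c hm1
    have k0 : Mo.base.b (Mo.fa c.fl) = Mo.fa (Mo.base.b c.fl) := (Mo.base.ab c.fl).symm
    have k1 : Rep (b c) z := hb2 c z hz2 (by rw [hz1]; exact hm3)
    have k2 : Rep (a (b c)) z := ha2 _ z k1 (by rw [hb1, hz1]; exact hm4)
    have k3 : Rep (a c) z := ha2 c z hz2 (by rw [hz1]; exact hm2)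
    have k4 : Rep (b (a c)) z := hb2 _ z k3 (by rw [ha1, k0, hz1]; exact hm4)
    exact k2.ext k4 (by rw [ha1, hb1, hb1, ha1, k0])
  have hnd : ∀ (c : YY Mo FC p e), c.fl.1 ∉ Mo.D → r^[12] c = c := by
    intro c hc
    obtain ⟨m, hm⟩ := FC.centre c.fl.1 hc
    obtain ⟨z, hz1, hz2⟩ := exists_rep he c (m := m) (hm c.fl.2)
    have k1 : ∀ n : ℕ, (r^[n] c).fl = (c.fl.1, c.fl.2 + n) ∧ Rep (r^[n] c) z := by
      intro n
      induction n with
      | zero =>
        refine ⟨?_, hz2⟩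
        simp
      | succ n ih =>
        rw [Function.iterate_succ_apply']
        have k2 : (r (r^[n] c)).fl = (c.fl.1, c.fl.2 + (n + 1 : ℕ)) := by
          rw [hr1, ih.1]
          show ((c.fl.1, c.fl.2 + (n : ZMod 12) + 1) : Mo.F) = _
          rw [Nat.cast_succ, add_assoc]
        refine ⟨k2, hr2 _ z ih.2 ?_⟩
        rw [← hr1, k2, hz1]
        exact hm _
    obtain ⟨k2, k3⟩ := k1 12
    refine k3.ext hz2 ?_
    rw [k2]
    have h12 : ((12 : ℕ) : ZMod 12) = 0 := by decide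
    rw [h12, add_zero]
  let rr : Equiv.Perm (YY Mo FC p e) := ⟨r, r', hl, hr⟩
  let C : Cov Mo :=
    { Y := YY Mo FC p e
      a := a
      r := rr
      p := YY.fl
      a_a := haa
      ab := fun c => by
        show a (r' (a (r c))) = r' (a (r (a c)))
        rw [hb, hb, hab]
      p_a := ha1
      p_r := hr1
      nd := fun c hc => by
        have h := hnd c hc
        rw [← Equiv.Perm.iterate_eq_pow]
        exact h }
  have hCb : ∀ c : YY Mo FC p e, C.b c = b c := hb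
  have hne : ∀ z : X, ∃ f, p z ∈ FC.U f := fun z => FC.cover (p z)
  choose g hg using hne
  let y : Mo.F → X → YY Mo FC p e := fun f z =>
    if h : p z ∈ FC.U f then mk f z h else mk (g z) z (hg z)
  have hy : ∀ f z (h : p z ∈ FC.U f), y f z = mk f z h := fun f z h => dif_pos h
  have hyr : ∀ f z, p z ∈ FC.U f → Rep (y f z) z := by
    intro f z h
    rw [hy f z h]
    exact mk_rep f z h
  have hyf : ∀ f z, p z ∈ FC.U f → (y f z).fl = f := by
    intro f z h
    rw [hy f z h]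
    rfl
  have hye : ∀ f z, p z ∈ FC.U f → (y f z).1.2 = e f z := by
    intro f z h
    rw [hy f z h]
    rfl
  have hiff : ∀ f z z', p z ∈ FC.U f → p z' ∈ FC.U f → (y f z = y f z' ↔ e f z = e f z') := by
    intro f z z' h h'
    constructor
    · intro h1
      rw [← hye f z h, ← hye f z' h', h1]
    · intro h1
      rw [hy f z h, hy f z' h']
      exact Subtype.ext (Prod.ext rfl h1)
  refine ⟨⟨C, y, hyf, ?_, ?_, ?_, ?_, ?_, ?_⟩⟩
  · -- surj
    intro c m hm
    obtain ⟨z, hz1, hz2⟩ := exists_rep he c hm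
    refine ⟨z, hz1, ?_⟩
    have h1 : p z ∈ FC.U (YY.fl c) := hz2.1
    exact (hyr _ z h1).ext hz2 (hyf _ z h1)
  · -- joined
    intro f z z' h h'
    rw [hiff f z z' h h']
    constructor
    · intro h1
      obtain ⟨z'', k1, k2⟩ := lift_joined hp ((FC.pc f).joinedIn _ h _ h')
      have k3 : e f z = e f z'' := (he f).path _ _ k2
      have k4 : z'' = z' := by
        refine (he f).inj z'' z' ?_ k1 (k3.symm.trans h1)
        rw [k1]
        exact h'
      rw [← k4]
      exact k2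
    · intro h1
      exact (he f).path _ _ h1
  · -- inj
    intro f z z' h h1 h2
    have h' : p z' ∈ FC.U f := by
      rw [← h1]
      exact h
    exact (he f).inj z z' h h1 ((hiff f z z' h h').1 h2)
  · -- y_a
    intro f z h h'
    have k1 : Rep (a (y f z)) z := ha2 _ z (hyr f z h) (by rw [hyf f z h]; exact h')
    exact (hyr _ z h').ext k1 (by rw [hyf _ z h', ha1, hyf f z h])
  · -- y_b
    intro f z h h'
    have k1 : Rep (b (y f z)) z := hb2 _ z (hyr f z h) (by rw [hyf f z h]; exact h')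
    rw [hCb]
    exact (hyr _ z h').ext k1 (by rw [hyf _ z h', hb1, hyf f z h])
  · -- y_r
    intro f z h h'
    have k1 : Rep (r (y f z)) z := hr2 _ z (hyr f z h) (by rw [hyf f z h]; exact h')
    refine (hyr _ z h').ext k1 ?_
    rw [hyf _ z h']
    show Mo.fr f = (r (y f z)).fl
    rw [hr1, hyf f z h]

end Pool.CX
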