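import Pool.Agent.Work.MP_727c87_cx.E2.Interface

set_option autoImplicit false

/-! # Part (E2), block XSC: the first cohomology of the covering of the flag complex vanishes -/

namespace Pool.CX

open Set Topology Filter
open scoped unitInterval

namespace XSC

variable {Mo : Model} {M : Type} [TopologicalSpace M] {FC : FlagCover Mo M} {X : Type}
  [TopologicalSpace X] {p : X → M}

/-- the lifts over one point -/
theorem liftOn (Y : XCov Mo FC p) (x : X) : LiftOn Y.C {f | p x ∈ FC.U f} (fun f => Y.y f x) where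
  p_y f hf := Y.p_y f x hf
  y_a f hf hf' := Y.y_a f x hf hf'
  y_b f hf hf' := Y.y_b f x hf hf'
  y_r f hf hf' := Y.y_r f x hf hf'

/-- near `x` all the sets of the cover at `x` contain the point, with the same sheets -/
theorem eventually_same [LocallyPathConnectedSpace X] (hp : Continuous p) (Y : XCov Mo FC p)
    (x : X) : ∀ᶠ x' in 𝓝 x, ∀ f, p x ∈ FC.U f → p x' ∈ FC.U f ∧ Y.y f x' = Y.y f x := by
  rw [eventually_all]
  intro f
  by_cases hf : p x ∈ FC.U f
  · have hopen : p ⁻¹' FC.U f ∈ 𝓝 x := ((FC.isOpen_U f).preimage hp).mem_nhds hf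
    obtain ⟨V, ⟨hV, hVc⟩, hVs⟩ := (path_connected_basis x).mem_iff.1 hopen
    filter_upwards [hV] with x' hx' _
    have hj : JoinedIn (p ⁻¹' FC.U f) x' x :=
      (hVc.joinedIn x' hx' x (mem_of_mem_nhds hV)).mono hVs
    exact ⟨hj.source_mem, (Y.joined f x' x hj.source_mem hf).2 hj⟩
  · exact Eventually.of_forall fun x' h => absurd h hf

/-- locally constant functions are constant along paths -/
theorem const_of_joinedIn {A : Type} {S : Set X} {s : X → A}
    (hs : ∀ x ∈ S, ∀ᶠ x' in 𝓝 x, s x' = s x) {z z' : X} (h : JoinedIn S z z') : s z = s z' := by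
  obtain ⟨γ, hγ⟩ := h
  have hlc : IsLocallyConstant (fun t : I => s (γ t)) := by
    rw [IsLocallyConstant.iff_eventually_eq]
    intro t
    exact γ.continuous.continuousAt.eventually (hs (γ t) (hγ t))
  have := hlc.apply_eq_of_preconnectedSpace 0 1
  simpa using this

end XSC

open XSC in
/-- BLOCK XSC -/
theorem stmt_XSC (hC : Stmt_Cech) (hL : Stmt_LocPot) : Stmt_XSC := by
  intro Mo M _ FC X _ _ _ p hcov Y A _ α β h1 h2 h3 _
  have hp : Continuous p := hcov.continuous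
  have hLx : ∀ x : X, ∃ θ, LocPot Y.C α β {f | p x ∈ FC.U f} (fun f => Y.y f x) θ := fun x =>
    (hL Mo Y.C A α β h1 h2 h3 _ _ (FC.near (p x)) (liftOn Y x)).1
  choose θ hθ using hLx
  have huniq : ∀ x : X, ∀ θ' : Mo.F → A,
      LocPot Y.C α β {f | p x ∈ FC.U f} (fun f => Y.y f x) θ' →
      ∀ f, p x ∈ FC.U f → ∀ g, p x ∈ FC.U g → θ' g * (θ' f)⁻¹ = θ x g * (θ x f)⁻¹ :=
    fun x θ' h' f hf g hg =>
      (hL Mo Y.C A α β h1 h2 h3 _ _ (FC.near (p x)) (liftOn Y x)).2 (θ x) θ' (hθ x) h' f hf g hg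
  have hloc : ∀ x : X, ∀ᶠ x' in 𝓝 x, ∀ i j, x ∈ p ⁻¹' FC.U i → x ∈ p ⁻¹' FC.U j →
      θ x' j * (θ x' i)⁻¹ = θ x j * (θ x i)⁻¹ := by
    intro x
    filter_upwards [eventually_same hp Y x] with x' hx' i j hi hj
    refine huniq x (θ x') (fun f hf => ⟨fun h => ?_, fun h => ?_, fun h => ?_⟩) i hi j hj
    · have h4 := (hθ x' f (hx' f hf).1).1 (hx' _ h).1
      simp only [(hx' f hf).2] at h4
      exact h4
    · have h4 := (hθ x' f (hx' f hf).1).2.1 (hx' _ h).1
      simp only [(hx' f hf).2] at h4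
      exact h4
    · have h4 := (hθ x' f (hx' f hf).1).2.2 (hx' _ h).1
      simp only [(hx' f hf).2] at h4
      exact h4
  obtain ⟨s, hs1, hs2⟩ := hC X Mo.F A (fun f => p ⁻¹' FC.U f)
    (fun x f g => θ x g * (θ x f)⁻¹) (fun f => (FC.isOpen_U f).preimage hp)
    (fun x => FC.cover (p x)) (fun x i j k _ _ _ => by group) hloc
  · -- the function on the sheets
    have hne : ∀ c : Y.C.Y, ∃ z, p z ∈ FC.U (Y.C.p c) ∧ Y.y (Y.C.p c) z = c := by
      intro c
      obtain ⟨m, hm⟩ := (FC.pc (Y.C.p c)).nonempty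
      obtain ⟨z, hz1, hz2⟩ := Y.surj c m hm
      exact ⟨z, by rw [hz1]; exact hm, hz2⟩
    choose zz hzz1 hzz2 using hne
    have hconst : ∀ f z z', p z ∈ FC.U f → p z' ∈ FC.U f → Y.y f z = Y.y f z' →
        s f z = s f z' := fun f z z' hz hz' h =>
      const_of_joinedIn (fun x hx => hs1 f x hx) ((Y.joined f z z' hz hz').1 h)
    have hΘ : ∀ f z, p z ∈ FC.U f → s (Y.C.p (Y.y f z)) (zz (Y.y f z)) = s f z := by
      intro f z hz
      have h4 := hzz1 (Y.y f z)
      have h5 := hzz2 (Y.y f z)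
      rw [Y.p_y f z hz] at h4 h5 ⊢
      exact hconst f _ _ h4 hz h5
    refine ⟨fun c => s (Y.C.p c) (zz c), fun c => ?_, fun c => ?_⟩
    · obtain ⟨m, hm1, hm2⟩ := (FC.pc_a (Y.C.p c)).nonempty
      obtain ⟨z, hz1, hz2⟩ := Y.surj c m hm1
      rw [← hz1] at hm1 hm2
      have h4 := Y.y_a (Y.C.p c) z hm1 hm2
      rw [hz2] at h4
      have h5 := hΘ _ z hm2
      rw [h4] at h5
      have h6 := hΘ _ z hm1
      rw [hz2] at h6
      have h7 := hs2 z (Y.C.p c) (Mo.fa (Y.C.p c)) hm1 hm2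
      have h8 := (hθ z (Y.C.p c) hm1).1 hm2
      simp only [hz2] at h8
      show s (Y.C.p (Y.C.a c)) (zz (Y.C.a c)) = α c * s (Y.C.p c) (zz c)
      rw [h5, h6, h7, h8]
      group
    · obtain ⟨m, hm1, hm2⟩ := (FC.pc_r (Y.C.p c)).nonempty
      obtain ⟨z, hz1, hz2⟩ := Y.surj c m hm1
      rw [← hz1] at hm1 hm2
      have h4 := Y.y_r (Y.C.p c) z hm1 hm2
      rw [hz2] at h4
      have h5 := hΘ _ z hm2
      rw [h4] at h5
      have h6 := hΘ _ z hm1
      rw [hz2] at h6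
      have h7 := hs2 z (Y.C.p c) (Mo.fr (Y.C.p c)) hm1 hm2
      have h8 := (hθ z (Y.C.p c) hm1).2.1 hm2
      simp only [hz2] at h8
      show s (Y.C.p (Y.C.r c)) (zz (Y.C.r c)) = β c * s (Y.C.p c) (zz c)
      rw [h5, h6, h7, h8]
      group

end Pool.CX
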