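import Pool.Agent.Work.MP_727c87_cx.E2.Interface

set_option autoImplicit false

/-! # Part (E2), block XUniv (helper50) -/

namespace Pool.CX

open Set Topology Manifold Bundle Filter
open scoped Manifold ContDiff ENNReal NNReal unitInterval
open Pool.Agent.Work.MP_bc4532_gt (ClosedRiemannianManifold)
open UW727 (RiemannianUniversalCover)

theorem XUniv.chain {Mo : Model} (C : Cov Mo) (u : ℕ → C.Y) :
    ∀ n : ℕ, (∀ i < n, C.Elem (u i) (u (i + 1))) → Relation.ReflTransGen C.Elem (u 0) (u n)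
  | 0, _ => Relation.ReflTransGen.refl
  | n + 1, h => (XUniv.chain C u n fun i hi => h i (hi.trans (Nat.lt_succ_self n))).tail
      (h n (Nat.lt_succ_self n))

theorem stmt_XUniv (hG : Stmt_Geod) (hSC : Stmt_XSC) (hF : Stmt_Follow) : Stmt_XUniv := by
  intro Mo M c FC X Y
  have : LocallyPathConnectedSpace X.Pt := (hG M X).1
  obtain ⟨x⟩ : Nonempty X.Pt := inferInstance
  obtain ⟨f, _⟩ := FC.cover (X.p x)
  refine Cov.univ_of_sc ⟨Y.y f x⟩ ?_ (hSC Mo M.Pt FC.toFlagCover X.Pt X.p X.isCoveringMap Y)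
  intro y y'
  obtain ⟨m, hm⟩ := (FC.pc (Y.C.p y)).nonempty
  obtain ⟨m', hm'⟩ := (FC.pc (Y.C.p y')).nonempty
  obtain ⟨z, hz, hy⟩ := Y.surj y m hm
  obtain ⟨z', hz', hy'⟩ := Y.surj y' m' hm'
  obtain ⟨γ⟩ : Joined z z' := PathConnectedSpace.joined z z'
  obtain ⟨n, u, h0, hn, hs, _⟩ := hF Mo M.Pt FC.toFlagCover X.Pt X.p X.isCoveringMap.continuous Y z z' γ
    (Y.C.p y) (Y.C.p y') (by rw [hz]; exact hm) (by rw [hz']; exact hm')
  have h := XUniv.chain Y.C u n hs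
  rw [h0, hn, hy, hy'] at h
  exact h

end Pool.CX
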