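import Pool.Agent.Work.MP_727c87_cx.Final
import Pool.Agent.Work.MP_727c87_cx.E1.GeoProofs
import Pool.Agent.Work.MP_727c87_cx.E1.C1
import Pool.Agent.Work.MP_727c87_cx.E1.C2
import Pool.Agent.Work.MP_727c87_cx.E1.C3
import Pool.Agent.Work.MP_727c87_cx.E1.CO
import Pool.Agent.Work.MP_727c87_cx.E1.CP
import Pool.Agent.Work.MP_727c87_cx.E1.CT
import Pool.Agent.Work.MP_727c87_cx.E1.FIN
import Pool.Agent.Work.MP_727c87_cx.E1.KM
import Pool.Agent.Work.MP_727c87_cx.E1.KP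
import Pool.Agent.Work.MP_727c87_cx.E1.M0
import Pool.Agent.Work.MP_727c87_cx.E1.M1
import Pool.Agent.Work.MP_727c87_cx.E1.M2
import Pool.Agent.Work.MP_727c87_cx.E1.M3
import Pool.Agent.Work.MP_727c87_cx.E1.M4
import Pool.Agent.Work.MP_727c87_cx.E1.M5
import Pool.Agent.Work.MP_727c87_cx.E1.S1
import Pool.Agent.Work.MP_727c87_cx.E1.S2
import Pool.Agent.Work.MP_727c87_cx.E1.S3
import Pool.Agent.Work.MP_727c87_cx.E1.U0
import Pool.Agent.Work.MP_727c87_cx.E1.U1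
import Pool.Agent.Work.MP_727c87_cx.E2.Arc
import Pool.Agent.Work.MP_727c87_cx.E2.Cech
import Pool.Agent.Work.MP_727c87_cx.E2.Dist
import Pool.Agent.Work.MP_727c87_cx.E2.Final
import Pool.Agent.Work.MP_727c87_cx.E2.Follow
import Pool.Agent.Work.MP_727c87_cx.E2.GE0
import Pool.Agent.Work.MP_727c87_cx.E2.GE1
import Pool.Agent.Work.MP_727c87_cx.E2.GE2
import Pool.Agent.Work.MP_727c87_cx.E2.GE3
import Pool.Agent.Work.MP_727c87_cx.E2.GE4
import Pool.Agent.Work.MP_727c87_cx.E2.GE5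
import Pool.Agent.Work.MP_727c87_cx.E2.GE6
import Pool.Agent.Work.MP_727c87_cx.E2.GE7
import Pool.Agent.Work.MP_727c87_cx.E2.GE8
import Pool.Agent.Work.MP_727c87_cx.E2.GE9
import Pool.Agent.Work.MP_727c87_cx.E2.Geod
import Pool.Agent.Work.MP_727c87_cx.E2.LiftLen
import Pool.Agent.Work.MP_727c87_cx.E2.LocIso
import Pool.Agent.Work.MP_727c87_cx.E2.LocPot
import Pool.Agent.Work.MP_727c87_cx.E2.MB
import Pool.Agent.Work.MP_727c87_cx.E2.Near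
import Pool.Agent.Work.MP_727c87_cx.E2.Sheets
import Pool.Agent.Work.MP_727c87_cx.E2.XCov
import Pool.Agent.Work.MP_727c87_cx.E2.XSC
import Pool.Agent.Work.MP_727c87_cx.E2.XUniv

set_option autoImplicit false

/-! # Assembly of the parts (E1) and (E2) -/

namespace Pool.CX

open scoped NNReal

/-! ## Part (E2) -/

theorem all_Follow : Stmt_Follow := stmt_Follow stmt_Near

theorem all_XSC : Stmt_XSC := stmt_XSC stmt_Cech stmt_LocPot

theorem all_XUniv : Stmt_XUniv := stmt_XUniv stmt_Geod all_XSC all_Follow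

theorem all_Dist : Stmt_Dist := stmt_Dist stmt_Sheets stmt_Arc (stmt_LiftLen stmt_LocIso)

theorem all_E2 : Stmt_E2 :=
  stmt_E2 (stmt_XCov stmt_Sheets) all_XUniv stmt_Geod stmt_Near all_Follow stmt_MB all_Dist

/-! ## Part (E1) -/

theorem all_S1 : Stmt_S1 := stmt_S1 stmt_G3 stmt_G5

theorem all_S2 : Stmt_S2 := stmt_S2 stmt_G3 stmt_G4 stmt_G5 all_S1

theorem all_S3 : Stmt_S3 := stmt_S3 stmt_G3 stmt_G6

theorem all_C1 : Stmt_C1 := stmt_C1 stmt_G4 stmt_G6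

theorem all_C2 : Stmt_C2 := stmt_C2 stmt_G4 stmt_G6 all_S1 all_S2 all_S3 all_C1

theorem all_C3 : Stmt_C3 := stmt_C3 stmt_G3 stmt_G4 stmt_G6 all_S1 all_S2 all_S3 all_C1

theorem all_M1 : Stmt_M1 := stmt_M1 stmt_G4

theorem all_M0 : Stmt_M0 := stmt_M0 all_C1 all_C2 all_C3 all_M1

theorem all_M2 : Stmt_M2 := stmt_M2 stmt_G3 stmt_G4 stmt_G5 stmt_G6 all_S1 all_S2 all_S3 all_M1

theorem all_M3 : Stmt_M3 := stmt_M3 all_M1 all_M2

theorem all_M4 : Stmt_M4 := stmt_M4 stmt_G4 all_S1 all_S2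

theorem all_M5 : Stmt_M5 := stmt_M5 all_M3 all_M4

theorem all_KM : Stmt_KM := stmt_KM stmt_G1

theorem all_FIN : Stmt_FIN := stmt_FIN stmt_G4 stmt_G6 all_S1 all_S2 all_M5 all_KM

theorem all_CO : Stmt_CO := stmt_CO stmt_G1 stmt_G3 stmt_G4 stmt_G5

theorem all_CT : Stmt_CT := stmt_CT stmt_G4 all_S1 all_S2 all_M1 all_CO

theorem all_U0 : Stmt_U0 := stmt_U0 stmt_G4 stmt_G6 all_C1 all_M1

theorem all_U1 : Stmt_U1 := stmt_U1 stmt_G4 all_S1 all_S2 all_C1 all_M1 all_U0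

theorem all_KP : Stmt_KP := stmt_KP all_M1 stmt_G1 stmt_G4 stmt_G6 all_S2 all_C1 all_U1

theorem all_CP : Stmt_CP :=
  stmt_CP all_M1 stmt_G1 stmt_G4 stmt_G6 all_S2 all_C1 all_U1 all_CO all_CT

/-! ## The flag cover of the realised manifold -/

theorem all_GE1 : Stmt_GE1 := stmt_GE1 stmt_G1 stmt_G2 stmt_G3 stmt_G5 stmt_G6

theorem all_GE3 : Stmt_GE3 := stmt_GE3 stmt_G2 stmt_G3 stmt_G4 stmt_G6 all_S1 all_S2 all_S3

theorem all_GE2 : Stmt_GE2 := stmt_GE2 stmt_G3 stmt_G5 stmt_G6 all_S1 all_GE1 all_GE3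

theorem all_GE4 : Stmt_GE4 := stmt_GE4 stmt_G1 stmt_G2 stmt_G3 stmt_G5 stmt_G6 all_CO

theorem all_GE5 : Stmt_GE5 := stmt_GE5 all_S3 all_GE1 all_GE3 all_GE4

theorem all_GE6 : Stmt_GE6 := stmt_GE6 stmt_G1 stmt_G4 stmt_G6 all_C1 all_GE1 all_GE3

theorem all_GE0 : Stmt_GE0 := stmt_GE0 stmt_G6 all_C1 all_CO all_GE3 all_GE6

theorem all_GE7 : Stmt_GE7 := stmt_GE7 stmt_G1 stmt_G4 stmt_G6 all_C1 all_GE3 all_GE0

theorem all_GE8 : Stmt_GE8 :=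
  stmt_GE8 stmt_G1 stmt_G3 stmt_G6 all_S2 all_S3 all_CO all_KM all_GE1 all_GE3

theorem all_GE9 : Stmt_GE9 :=
  stmt_GE9 all_C1 all_S2 all_CO all_KP all_CP all_GE1 all_GE2 all_GE3 all_GE5 all_GE6 all_GE7
    all_GE8

theorem all_MFC : Stmt_MFC := by
  obtain ⟨c, hc⟩ := all_GE9
  refine ⟨c, fun Mo => ⟨((1 / (Fintype.card Mo.F : ℝ≥0) : ℝ≥0) : ℝ), ?_, fun Z => hc Mo Z⟩⟩
  obtain ⟨q⟩ := Mo.nonempty
  have hne : Nonempty Mo.F := ⟨(q, 0)⟩
  have h1 : (0 : ℝ≥0) < (Fintype.card Mo.F : ℝ≥0) := by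
    exact_mod_cast Fintype.card_pos
  exact_mod_cast div_pos one_pos h1

/-- the final statement from the combinatorial theorem `Stmt_LOW` -/
theorem final_of_low (hLOW : Stmt_LOW) : UW727.FinalStatement :=
  final_of hLOW all_M0 all_FIN all_MFC all_E2

end Pool.CX
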