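import Pool.Agent.Work.MP_727c87_cx.E2.Geo
import Pool.Agent.Work.MP_727c87_cx.E1.GeoProofs
import Pool.Agent.Work.MP_727c87_cx.E1.S1

set_option autoImplicit false

/-! # Block GE5: the intersections of the sets of two flags across a side are path connected -/

open Set Topology Complex ComplexConjugate
open scoped ContDiff NNReal unitInterval

noncomputable section

namespace Pool.CX

namespace GE5

theorem continuous_psi {Q : Type} [DecidableEq Q] (L : Pool.CS.LS G12 Q) (g : Q) :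
    Continuous fun x : ℂ × ℂ => Psi L g x.1 x.2 := by
  refine continuous_pi fun h => ?_
  show Continuous fun x : ℂ × ℂ => ∑ n : Nbr, if nbr L g n = h then blk (mv n x.1) x.2 else 0
  refine continuous_finsetSum _ fun n _ => ?_
  split_ifs
  · have h1 : Continuous (mv n) := (stmt_G4.2.2.1 n).continuous
    have h2 : Continuous beta := stmt_G4.2.2.2.1.continuous
    have h3 : Continuous fun x : ℂ × ℂ => beta (mv n x.1) := h2.comp (h1.comp continuous_fst)
    have h4 : Continuous fun x : ℂ × ℂ => ((beta (mv n x.1) : ℝ) : ℂ) := continuous_ofReal.comp h3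
    exact h3.prodMk ((h4.mul (h1.comp continuous_fst)).prodMk (h4.mul continuous_snd))
  · exact continuous_const

theorem pc_circle : IsPathConnected {v : ℂ | ‖v‖ = 1} := by
  have h : {v : ℂ | ‖v‖ = 1} = Metric.sphere (0 : ℂ) 1 := by ext v; simp
  rw [h]
  exact isPathConnected_sphere (rank_real_complex ▸ Nat.one_lt_ofNat) _ zero_le_one

theorem across (hS3 : Stmt_S3) (h3 : Stmt_GE3) (h4 : Stmt_GE4) (Mo : Model) (g : Mo.Q)
    (i k : ZMod 12) (hk : k = i ∨ k = i + 1) :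
    IsPathConnected (Over Mo g (sect i) ∩ Over Mo (Mo.L.τ k g) (sect i)) := by
  obtain ⟨e1, -, e3, e4, -, -, -⟩ := h3 Mo
  have hinj := (stmt_S1 stmt_G3 stmt_G5).1 Mo g
  have key : (Subtype.val '' (Over Mo g (sect i) ∩ Over Mo (Mo.L.τ k g) (sect i)) : Set (Amb Mo.Q)) =
      (fun x : ℂ × ℂ => Psi Mo.L g x.1 x.2) '' (strip i k ×ˢ {v : ℂ | ‖v‖ = 1}) := by
    ext p
    constructor
    · rintro ⟨q, ⟨⟨u, v, hl, hu, hq⟩, ⟨u', v', hl', hu', hq'⟩⟩, rfl⟩
      have a1 : 0 < (Psi Mo.L g u v (Mo.L.τ k g)).1 := by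
        rw [← hq, hq']
        exact (e1 _ u' v' hl').2.1
      obtain ⟨n, hn, hn'⟩ := e4 g (Mo.L.τ k g) u v hl a1
      have hn2 : n = some (k, false) := hinj hn
      subst hn2
      have hn3 : R k u ∈ PPo := hn'
      obtain ⟨a2, a3⟩ := e3 g u v (some (k, false)) hl hn'
      have a4 : R k u = u' := by
        have b1 := (e1 _ _ _ a2).2.2.1
        have b2 := (e1 _ _ _ hl').2.2.1
        have b3 : Psi Mo.L (Mo.L.τ k g) u' v' = Psi Mo.L (nbr Mo.L g (some (k, false))) (mv (some (k, false)) u) v := by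
          rw [a3, ← hq, hq']
        rw [b3] at b2
        exact b1.symm.trans b2
      have a5 : ‖v‖ = 1 := (hS3 (g ∈ Mo.D) False (some (k, false)) u v hl (by simp) hn').2.1 (fun h => h)
      refine ⟨(u, v), ⟨⟨hl.1, hu, hn3, ?_⟩, a5⟩, hq.symm⟩
      rw [a4]; exact hu'
    · rintro ⟨⟨u, v⟩, ⟨⟨hu, hs, hr, hs'⟩, hv⟩, rfl⟩
      have hv' : ‖v‖ = 1 := hv
      have hl0 : (u, v) ∈ Loc False := ⟨hu, fun _ => hv', fun h => h.elim⟩
      have hl1 : ∀ d : Prop, (R k u, v) ∈ Loc d := fun d =>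
        hS3 False d (some (k, false)) u v hl0 (by simp) hr
      have hRR : R k (R k u) = u := stmt_G3.2.2.2.2.1 k u
      have hl2 : ∀ d : Prop, (u, v) ∈ Loc d := fun d => by
        have := hS3 False d (some (k, false)) (R k u) v (hl1 False) (by simp) (by
          show R k (R k u) ∈ PPo
          rw [hRR]; exact hu)
        have h5 : (R k (R k u), v) ∈ Loc d := this
        rwa [hRR] at h5
      obtain ⟨a2, a3⟩ := e3 g u v (some (k, false)) (hl2 _) hr
      refine ⟨⟨Psi Mo.L g u v, (e1 g u v (hl2 _)).1⟩, ⟨⟨u, v, hl2 _, hs, rfl⟩, ?_⟩, rfl⟩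
      exact ⟨R k u, v, hl1 _, hs', a3.symm⟩
  have hind : IsInducing (Subtype.val : Mo.SS → Amb Mo.Q) := IsInducing.subtypeVal
  rw [hind.isPathConnected_iff, key]
  exact ((h4 i k hk).prod pc_circle).image (continuous_psi Mo.L g)

end GE5

open GE5 in
theorem stmt_GE5 (hS3 : Stmt_S3) (_h1 : Stmt_GE1) (h3 : Stmt_GE3) (h4 : Stmt_GE4) : Stmt_GE5 := by
  rintro Mo ⟨g, i⟩
  refine ⟨across hS3 h3 h4 Mo g i i (Or.inl rfl), ?_⟩
  have hb : Mo.base.b (g, i) = ((Mo.L.τ (i + 1) g, i) : Mo.Q × ZMod 12) := by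
    change ((Mo.L.τ (i + 1) g, i + 1 - 1) : Mo.Q × ZMod 12) = _
    rw [add_sub_cancel_right]
  rw [hb]
  exact across hS3 h3 h4 Mo g i (i + 1) (Or.inr rfl)

end Pool.CX
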