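import Pool.Agent.Work.MP_727c87_cx.E2.Defs

set_option autoImplicit false

/-! # Part (E2), second call: the flag cover of the realised manifold

The open sets are `US f = {Psi g u v : (u, v) ∈ Loc, u ∈ sect i}`, `f = (g, i)`, where `sect i` is an open neighbourhood
of the kite `kite i` (a sector with tolerance `1/10`, and the disc `|u| < 1`, which does not meet the defect chambers). -/

open Set Topology Complex ComplexConjugate
open scoped ContDiff NNReal unitInterval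

noncomputable section

namespace Pool.CX

/-- direction of the corner between the sides `i` and `i + 1` (not normalised) -/
def mdir (i : ZMod 12) : ℂ := ctr i + ctr (i + 1)

/-- open neighbourhood of the kite `i` in the plane -/
def sect (i : ZMod 12) : Set ℂ :=
  {u | ‖u‖ < 1 ∨ (-(1 / 10) < (u * conj (ctr i)).im ∧ -(1 / 10) < (ctr (i + 1) * conj u).im ∧
    0 < (u * conj (mdir i)).re)}

/-- first coordinate in the chart of `g` -/
def cu {Q : Type} (g : Q) (p : Amb Q) : ℂ := (((p g).1)⁻¹ : ℂ) * (p g).2.1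

/-- second coordinate in the chart of `g` -/
def cv {Q : Type} (g : Q) (p : Amb Q) : ℂ := (((p g).1)⁻¹ : ℂ) * (p g).2.2

/-- the points of `SS` over the part `T` of the chart of `g` -/
def Over (Mo : Model) (g : Mo.Q) (T : Set ℂ) : Set Mo.SS :=
  {p | ∃ u v, (u, v) ∈ Loc (g ∈ Mo.D) ∧ u ∈ T ∧ (p : Amb Mo.Q) = Psi Mo.L g u v}

/-- the open set of a flag -/
def US (Mo : Model) (f : Mo.F) : Set Mo.SS := Over Mo f.1 (sect f.2)

/-- Block GE1 (250 lines, deps G1, G2, G3, G5, G6): the sectors.  With `u = |u| e^{iφ}` and `|u| ≥ 1` the conditions of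
`sect j` say that `φ` is within `6` degrees of the interval from `30 j` to `30 (j+1)` degrees.  Algebraically:
`u = α ctr j + α' ctr (j+1)` with `α' = 2 Im (u conj (ctr j))`, `α = 2 Im (ctr (j+1) conj u)`, and
`ctr (j+2) = √3 ctr (j+1) - ctr j`.  (4): if `|u| ≥ 1`, the set of sectors is one or two neighbours.
(5): near the side `i` (`u ∈ PPo`, `lv i u < 1/100`; then `|u|² > 3`, and `√(1+|u|²) < Re (u conj (ctr i))/ρ + 1/100`, the
other levels are `> -1/100`) only the sectors `i - 1`, `i` matter, and they are given by the sign conditions on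
`Im (u conj (ctr i))`.  (6): near a corner only one sector.  (7): `R j u ∈ PPo` iff `lv j u < 1/100` (for `u ∈ PPo`):
`lv k (R j u) = lv k u + 2 g lv j u`, `g ≤ 14`, `lv k u ≥ 0.69` for `k` not adjacent to `j`. -/
def Stmt_GE1 : Prop :=
  (∀ i, IsOpen (sect i)) ∧ (∀ i, kite i ⊆ sect i) ∧
  (∀ i, ∀ u ∈ sect i, ∀ t : ℝ, 0 ≤ t → t ≤ 1 → (t : ℂ) * u ∈ sect i) ∧
  (∀ u : ℂ, 1 ≤ ‖u‖ → ∃ i, {j | u ∈ sect j} = {i} ∨ {j | u ∈ sect j} = {i, i + 1}) ∧
  (∀ u ∈ PPo, ∀ i, lv i u < 1 / 100 → {j | u ∈ sect j} ⊆ {i - 1, i} ∧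
    (u ∈ sect i ↔ -(1 / 10) < (u * conj (ctr i)).im) ∧ (u ∈ sect (i - 1) ↔ (u * conj (ctr i)).im < 1 / 10)) ∧
  (∀ u ∈ PPo, ∀ i, lv i u < 1 / 100 → lv (i + 1) u < 1 / 100 → {j | u ∈ sect j} = {i}) ∧
  (∀ u ∈ PPo, ∀ j, R j u ∈ PPo ↔ lv j u < 1 / 100) ∧
  (∀ i u, (R i u * conj (ctr i)).im = (u * conj (ctr i)).im)

/-- Block GE3 (150 lines, deps G3, G6, G2, S1, S2, S3): coordinates. -/
def Stmt_GE3 : Prop :=
  ∀ Mo : Model,
    (∀ (g : Mo.Q) (u v : ℂ), (u, v) ∈ Loc (g ∈ Mo.D) → Psi Mo.L g u v ∈ Mo.SS ∧ 0 < (Psi Mo.L g u v g).1 ∧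
      cu g (Psi Mo.L g u v) = u ∧ cv g (Psi Mo.L g u v) = v) ∧
    (∀ (p : Mo.SS) (g : Mo.Q), 0 < ((p : Amb Mo.Q) g).1 →
      (cu g (p : Amb Mo.Q), cv g (p : Amb Mo.Q)) ∈ Loc (g ∈ Mo.D) ∧
      (p : Amb Mo.Q) = Psi Mo.L g (cu g (p : Amb Mo.Q)) (cv g (p : Amb Mo.Q))) ∧
    (∀ (g : Mo.Q) (u v : ℂ) (n : Nbr), (u, v) ∈ Loc (g ∈ Mo.D) → mv n u ∈ PPo →
      (mv n u, v) ∈ Loc (nbr Mo.L g n ∈ Mo.D) ∧ Psi Mo.L (nbr Mo.L g n) (mv n u) v = Psi Mo.L g u v) ∧
    (∀ (g h : Mo.Q) (u v : ℂ), (u, v) ∈ Loc (g ∈ Mo.D) → 0 < (Psi Mo.L g u v h).1 →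
      ∃ n, nbr Mo.L g n = h ∧ mv n u ∈ PPo) ∧
    (∀ p : Mo.SS, ∃ (g : Mo.Q) (i : ZMod 12), 0 < ((p : Amb Mo.Q) g).1 ∧ cu g (p : Amb Mo.Q) ∈ kite i) ∧
    (∀ (g : Mo.Q) (T : Set ℂ) (p : Mo.SS), p ∈ Over Mo g T ↔ 0 < ((p : Amb Mo.Q) g).1 ∧ cu g (p : Amb Mo.Q) ∈ T) ∧
    (∀ (g : Mo.Q) (T : Set ℂ), IsOpen T → IsOpen (Over Mo g T))

/-- Block GE2 (250 lines, deps GE1, GE3, G3, G5, G6, S1): the flags near a point.  Take `g`, `u ∈ PP` (GE3, last but two) and
the `j` of G5: only the words `none, s_j, s_{j+1}, s_j s_{j+1}` matter.  If no level is `< 1/100`: one chamber, sectors by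
GE1 (4), or all (`|u| < 1`; then `g` is no defect).  One level `k` `< 1/100`: chambers `g`, `s_k g`, the same sectors among
`k - 1`, `k` in both (GE1 (5), (7), (8)): shapes `{f, a f}`, `{f, b f}`, `{f, r f, b f, a r f}`.  Two levels: four chambers, the
sector `j` in each (GE1 (6)): corner shape. -/
def Stmt_GE2 : Prop := ∀ (Mo : Model) (p : Mo.SS), NearShape Mo {f | p ∈ US Mo f}

/-- the strip at the side `k` inside the sector `i` -/
def strip (i k : ZMod 12) : Set ℂ := {u | u ∈ PPo ∧ u ∈ sect i ∧ R k u ∈ PPo ∧ R k u ∈ sect i}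

/-- Block GE4 (200 lines, deps G1, G3, G6, CO): the strips are path connected.  All conditions are of the form
`-c < α √(1+|u|²) + Re (u conj γ)`, `c ≥ 0` (levels of `u` and of `R k u` by G3; `R k u` is affine in
`(√(1+|u|²), u)`; `|u|, |R k u| ≥ 1` by G6).  In the coordinate `w = u/√(1+|u|²)` of the unit disc this is
`-c √(1-|w|²) < α + Re (w conj γ)`, a convex condition since `√(1-|w|²)` is concave.  So the strip is the image of a
convex set under `w ↦ w/√(1-|w|²)`.  It contains `mid k`. -/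
def Stmt_GE4 : Prop := ∀ i k : ZMod 12, k = i ∨ k = i + 1 → IsPathConnected (strip i k)

/-- Block GE5 (100 lines, deps GE1, GE3, GE4, S3): the intersections across a side are path connected:
`{Psi g u v : u ∈ strip i k, |v| = 1}`. -/
def Stmt_GE5 : Prop :=
  ∀ (Mo : Model) (f : Mo.F), IsPathConnected (US Mo f ∩ US Mo (Mo.fa f)) ∧
    IsPathConnected (US Mo f ∩ US Mo (Mo.base.b f))

/-- Block GE6 (200 lines, deps GE1, GE3, G1, G6): inside a chamber.  Non-defect: `(u, v)` to `(0, v)` to `(0, 1)`.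
Defect: `u = √(1+|z|²) a`, `v = z/√(qq |z|²)`, `|a| = 1`: scale `z` to `0` (then `|u|` decreases to `1`), then move `a` along
the normalised segment to the target (`mdir i` normalised, resp. `ctr (i+1)`): if `x > -1/10`, `y ≥ 0` are the values of a
condition at `a` and at the target then `((1-t) x + t y)/N > -1/10` because `N = |(1-t) a + t b| ≥ 1 - t`
(`Re (a conj b) > 0`).  Third statement: whole charts. -/
def Stmt_GE6 : Prop :=
  ∀ Mo : Model, (∀ f : Mo.F, IsPathConnected (US Mo f)) ∧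
    (∀ f : Mo.F, IsPathConnected (US Mo f ∩ US Mo (Mo.fr f))) ∧
    (∀ g : Mo.Q, IsPathConnected (Over Mo g univ))

/-- Block GE0 (80 lines, deps GE3, GE6, S2, CO): `SS` is path connected: the charts are, neighbouring charts meet
(`Psi g (mid i) 1`), `Mo.conn`. -/
def Stmt_GE0 : Prop := ∀ Mo : Model, PathConnectedSpace Mo.SS

/-- Block GE7 (250 lines, deps GE0, GE3, G6, C1): null-homotopies.  Non-defect chart: first `(u, v) ↦ ((1-s) u, v)`, then
`Psi g 0 v = v • Psi g 0 1` is moved to `v • β s` where `w • p` multiplies the third components by `w` (this preserves `SS`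
for `|w| = 1`) and `β` is a path in `SS` from `Psi g 0 1` to a point `Psi h a 0`, `h ∈ D` (exists by `Mo.cut`), `|a| = 1`,
which is fixed by the action.  Defect, sector `i`: scale `z = √(qq (|u|²-1)) v` to `0`, then move `a` to the direction
`mdir i` along the normalised segment (`Re (a conj (mdir i)) > 0`). -/
def Stmt_GE7 : Prop :=
  ∀ Mo : Model, (∀ g : Mo.Q, g ∉ Mo.D → NullIncl (Over Mo g univ)) ∧ ∀ f : Mo.F, NullIncl (US Mo f)

/-- Block GE8 (120 lines, deps GE1, GE3, G3, S2, S3, CO, KM): the special points: corner `Psi g (κ i 1 1) 1` (KM), midpoint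
`Psi g (mid (i+1)) 1`, centre `Psi g 0 1`. -/
def Stmt_GE8 : Prop :=
  ∀ Mo : Model,
    (∀ f : Mo.F, ∃ p, p ∈ US Mo f ∧ p ∈ US Mo (Mo.fa f) ∧ p ∈ US Mo (Mo.base.b f) ∧ p ∈ US Mo (Mo.fa (Mo.base.b f))) ∧
    (∀ f : Mo.F, ∃ p, p ∈ US Mo f ∧ p ∈ US Mo (Mo.fr f) ∧ p ∈ US Mo (Mo.base.b f) ∧ p ∈ US Mo (Mo.fa (Mo.fr f))) ∧
    (∀ q : Mo.Q, q ∉ Mo.D → ∃ p, ∀ k, p ∈ US Mo (q, k))

/-- Block GE9 (250 lines, deps GE1-GE8, KP, CP, CO, S2, S3): the metric flag cover of a realisation with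
`ε = 1 / card F`: transport by the homeomorphism `Z.e` (general lemma: `NullIncl`, `IsPathConnected`, open sets under a
homeomorphism); `K f = Z.Kt f`, `V g = Z.e ⁻¹' Over Mo g univ`, `anchor f = Z.e.symm (Psi f.1 (mid f.2) 1)`. -/
def Stmt_GE9 : Prop :=
  ∃ c : ℝ≥0, ∀ (Mo : Model) (Z : Realz Mo ((1 / (Fintype.card Mo.F : ℝ≥0) : ℝ≥0) : ℝ)),
    Nonempty (MetricFlagCover Mo Z.M c)

end Pool.CX
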