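import Pool.Agent.Work.MP_727c87_cx.E2.Defs

set_option autoImplicit false

/-! # Part (E2): statements of the blocks

Every block is a `Stmt_...`; its proof goes to a file `E2/<Block>.lean` as `theorem stmt_... : Stmt_...`. -/

namespace Pool.CX

open Set Topology Manifold Bundle Filter
open scoped Manifold ContDiff ENNReal NNReal unitInterval
open Pool.Agent.Work.MP_bc4532_gt (ClosedRiemannianManifold)
open UW727 (RiemannianUniversalCover)

/-! ## Sheets -/

/-- `e` numbers the sheets of the covering `p : X → M` over `U` -/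
structure Sheets {X M : Type} [TopologicalSpace X] [TopologicalSpace M] (p : X → M) (U : Set M) (e : X → X) :
    Prop where
  /-- constant along the paths over `U` -/
  path : ∀ z z', JoinedIn (p ⁻¹' U) z z' → e z = e z'
  /-- different on different points of a fibre -/
  inj : ∀ z z', p z ∈ U → p z = p z' → e z = e z' → z = z'
  /-- every sheet covers `U` -/
  surj : ∀ z, p z ∈ U → ∀ m ∈ U, ∃ z', p z' = m ∧ e z' = e z

/-- BLOCK Sheets.  If the inclusion of `U` in `M` is null-homotopic, then `U` is evenly covered in the weak sense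
`Sheets`.  PROOF.  `H : I × U → M`, `H (0, m) = m`, `H (1, m) = ms`.  For `z` over `U` let `e z` be the end of the lift,
starting at `z`, of the path `s ↦ H (s, p z)` (`IsCoveringMap.liftPath`).
`path`: for a path `w` over `U` lift the map `(s, t) ↦ H (s, p (w t))` with the initial condition `t ↦ w t`
(`IsCoveringMap.liftHomotopy`); at `s = 1` it is a lift of a constant path, hence constant
(`IsCoveringMap.const_of_comp`); so `e (w 0) = e (w 1)`.
`inj`: two lifts of the same path with the same end are equal (uniqueness of lifts, `IsCoveringMap.eq_of_comp_eq`).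
`surj`: lift the reversed path of `s ↦ H (s, m)` from the point `e z` over `ms`; its end `z'` has `e z' = e z`. -/
def Stmt_Sheets : Prop :=
  ∀ (X M : Type) [TopologicalSpace X] [TopologicalSpace M] (p : X → M), IsCoveringMap p → ∀ U : Set M,
    NullIncl U → ∃ e, Sheets p U e

/-- The covering `Cov` of `Mo` defined by a covering `p : X → M` and a flag cover of `M`: its flags over `f` are the
sheets over `U f`; `y f z` is the sheet over `U f` which contains `z` (for `p z ∈ U f`). -/
structure XCov (Mo : Model) {M : Type} [TopologicalSpace M] (FC : FlagCover Mo M) {X : Type} [TopologicalSpace X]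
    (p : X → M) where
  C : Cov Mo
  y : Mo.F → X → C.Y
  p_y : ∀ f z, p z ∈ FC.U f → C.p (y f z) = f
  surj : ∀ c : C.Y, ∀ m ∈ FC.U (C.p c), ∃ z, p z = m ∧ y (C.p c) z = c
  joined : ∀ f z z', p z ∈ FC.U f → p z' ∈ FC.U f → (y f z = y f z' ↔ JoinedIn (p ⁻¹' FC.U f) z z')
  inj : ∀ f z z', p z ∈ FC.U f → p z = p z' → y f z = y f z' → z = z'
  y_a : ∀ f z, p z ∈ FC.U f → p z ∈ FC.U (Mo.fa f) → y (Mo.fa f) z = C.a (y f z)
  y_b : ∀ f z, p z ∈ FC.U f → p z ∈ FC.U (Mo.base.b f) → y (Mo.base.b f) z = C.b (y f z)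
  y_r : ∀ f z, p z ∈ FC.U f → p z ∈ FC.U (Mo.fr f) → y (Mo.fr f) z = C.r (y f z)

/-- BLOCK XCov.  PROOF.  Take `e f` from `Stmt_Sheets` for every `f`.
`Y := {y : Mo.F × X // ∃ z, p z ∈ FC.U y.1 ∧ e y.1 z = y.2}`, `y f z := (f, e f z)`.  For two flags `f`, `g` with
`U f ∩ U g` path connected (nonempty) let the move `(f, x) ↦ (g, x')` be `x' = e g z` for any `z` over `U f ∩ U g` with
`e f z = x` (such `z` exists by `surj`).  It does not depend on `z`: for `z`, `z'` join `p z` to `p z'` in `U f ∩ U g`,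
lift from `z`; the end `z''` has `e f z'' = e f z = e f z'` and `p z'' = p z'`, so `z'' = z'` and `e g z' = e g z`.
So `(g, e g z)` is the image of `(f, e f z)` for EVERY `z` over `U f ∩ U g`; the moves `f → g` and `g → f` are inverse.
`a` = move to `fa f`, `r` = move to `fr f` (its inverse = move from `g` to `fr.symm g`).  The relations of `Cov`:
`a_a` clear; `C.b` at a sheet over `f` equals the move to `base.b f` (take `z` over the point `mid f`; then use `pc_b`);
`ab`: take `z` over the point `corner f` and the moves `f → fa f → b (fa f)`, `f → b f → fa (b f)`; `nd`: take `z` over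
`centre q`: all twelve moves there are `y (q, k) z ↦ y (q, k + 1) z`.
`joined`: lift a path of `U f` (path connected) and use `inj`; the other direction is `Sheets.path`. -/
def Stmt_XCov : Prop :=
  ∀ (Mo : Model) (M : Type) [TopologicalSpace M] (FC : FlagCover Mo M) (X : Type) [TopologicalSpace X] (p : X → M),
    IsCoveringMap p → Nonempty (XCov Mo FC p)

/-! ## Cohomology -/

/-- BLOCK Cech.  PROOF.  `FiberBundleCore ι X G` with `G` discrete, `coordChange i j x g = c x i j * g`; the total space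
is a covering of `X` (`FiberBundle.isCoveringMap`); lift the identity of `X`
(`IsCoveringMap.existsUnique_continuousMap_lifts`); `s i` = the section in the `i`-th trivialization. -/
def Stmt_Cech : Prop :=
  ∀ (X : Type) [TopologicalSpace X] [SimplyConnectedSpace X] [LocallyPathConnectedSpace X] (ι G : Type) [Group G]
    (U : ι → Set X) (c : X → ι → ι → G), (∀ i, IsOpen (U i)) → (∀ x, ∃ i, x ∈ U i) →
    (∀ x i j k, x ∈ U i → x ∈ U j → x ∈ U k → c x j k * c x i j = c x i k) →
    (∀ x, ∀ᶠ x' in 𝓝 x, ∀ i j, x ∈ U i → x ∈ U j → c x' i j = c x i j) →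
    ∃ s : ι → X → G, (∀ i x, x ∈ U i → ∀ᶠ x' in 𝓝 x, s i x' = s i x) ∧
      ∀ x i j, x ∈ U i → x ∈ U j → s j x = c x i j * s i x

/-- `y` lifts the flags of `N` to `C`, compatibly with the moves -/
structure LiftOn {Mo : Model} (C : Cov Mo) (N : Set Mo.F) (y : Mo.F → C.Y) : Prop where
  p_y : ∀ f ∈ N, C.p (y f) = f
  y_a : ∀ f ∈ N, Mo.fa f ∈ N → y (Mo.fa f) = C.a (y f)
  y_b : ∀ f ∈ N, Mo.base.b f ∈ N → y (Mo.base.b f) = C.b (y f)
  y_r : ∀ f ∈ N, Mo.fr f ∈ N → y (Mo.fr f) = C.r (y f)

/-- `θ` is a potential of the cocycle `(α, β)` on the flags `y f`, `f ∈ N` -/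
def LocPot {Mo : Model} (C : Cov Mo) {A : Type} [Group A] (α β : C.Y → A) (N : Set Mo.F) (y : Mo.F → C.Y)
    (θ : Mo.F → A) : Prop :=
  ∀ f ∈ N, (Mo.fa f ∈ N → θ (Mo.fa f) = α (y f) * θ f) ∧ (Mo.fr f ∈ N → θ (Mo.fr f) = β (y f) * θ f) ∧
    (Mo.base.b f ∈ N → θ (Mo.base.b f) = (β (C.b (y f)))⁻¹ * α (C.r (y f)) * β (y f) * θ f)

/-- BLOCK LocPot.  Local potentials exist and are unique up to a constant.  PROOF.  The seven shapes of `NearShape`.
With `b := (β (C.b y))⁻¹ * α (C.r y) * β y`: shapes with one or two flags clear; midpoint shape: `θ f = 1`,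
`θ (r f) = β y`, `θ (b f) = b y`, `θ (a r f) = α (r y) * β y`; corner shape: `θ f = 1`, `θ (a f) = α y`, `θ (b f) = b y`,
`θ (a b f) = α (b y) * b y` (second relation); chamber shape: `θ (q, k) = rprod β k (y (q, 0))` (third relation).
No other moves occur inside `N`: labels (`a`, `b` keep the label, `r` adds 1) and `Mo.inj` for words of length at most 3
(`s_i q ≠ q`, `s_i q ≠ s_j q` for `i ≠ j`, `s_k s_j q ≠ q, s_j q` ...).  Uniqueness: `N` is connected by its moves. -/
def Stmt_LocPot : Prop :=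
  ∀ (Mo : Model) (C : Cov Mo) (A : Type) [Group A] (α β : C.Y → A), (∀ y, α (C.a y) * α y = 1) →
    (∀ y, α (C.b y) * ((β (C.b y))⁻¹ * α (C.r y) * β y) =
      ((β (C.b (C.a y)))⁻¹ * α (C.r (C.a y)) * β (C.a y)) * α y) →
    (∀ y, (C.p y).1 ∉ Mo.D → C.rprod β 12 y = 1) → ∀ (N : Set Mo.F) (y : Mo.F → C.Y), NearShape Mo N → LiftOn C N y →
    (∃ θ, LocPot C α β N y θ) ∧
      ∀ θ θ' : Mo.F → A, LocPot C α β N y θ → LocPot C α β N y θ' →
        ∀ f ∈ N, ∀ g ∈ N, θ' g * (θ' f)⁻¹ = θ g * (θ f)⁻¹

/-- BLOCK XSC.  PROOF.  Uses `Stmt_Cech`, `Stmt_LocPot`.  `ι = Mo.F`, `U i = p ⁻¹' FC.U i`; choose a potential `θ x` on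
`N (p x)` for the lifts `y f x`; `c x f g = θ x g * (θ x f)⁻¹`.  Locally `N (p x) ⊆ N (p x')` and `y f x' = y f x`
(`joined`, `X` locally path connected), so a potential at `x'` is a potential at `x`: local constancy by uniqueness.
`s f` is constant on the sheets (`joined`: locally constant along a path in `p ⁻¹' U f`); so
`θ (y f z) := s f z` is well defined, and for `z` over `U f ∩ U (fa f)` we get `θ (a y) = α y * θ y`; same for `r`. -/
def Stmt_XSC : Prop :=
  ∀ (Mo : Model) (M : Type) [TopologicalSpace M] (FC : FlagCover Mo M) (X : Type) [TopologicalSpace X]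
    [SimplyConnectedSpace X] [LocallyPathConnectedSpace X] (p : X → M), IsCoveringMap p → ∀ Y : XCov Mo FC p,
    Y.C.SC (fun _ => False)

/-! ## Following paths -/

/-- BLOCK Near.  Any two flags over a near shape are joined by a short chain of elementary moves. -/
def Stmt_Near : Prop :=
  ∀ (Mo : Model) (C : Cov Mo) (N : Set Mo.F) (y : Mo.F → C.Y), NearShape Mo N → LiftOn C N y → ∀ f ∈ N, ∀ g ∈ N,
    ∃ n ≤ 12, ∃ u : ℕ → C.Y, u 0 = y f ∧ u n = y g ∧ ∀ i < n, C.Elem (u i) (u (i + 1))

/-- BLOCK Follow.  PROOF.  Uses `Stmt_Near`.  Call `t, t' ∈ I` related if for all flags `f`, `f'` with `γ t` over `U f`,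
`γ t'` over `U f'` there is a chain as claimed from `y f (γ t)` to `y f' (γ t')` (all members within `Dle 12` of some
`y g (γ t'')`, `t'' ∈ I`).  This is transitive and symmetric, and `t` is related to all `t'` near `t`: choose `g` with
`p (γ t) ∈ U g`; for `t'` near `t` the path `γ` stays over `U g` between `t` and `t'`, so `y g (γ t') = y g (γ t)`
(`joined`); use `Stmt_Near` at `γ t` and at `γ t'`.  `I` is connected. -/
def Stmt_Follow : Prop :=
  ∀ (Mo : Model) (M : Type) [TopologicalSpace M] (FC : FlagCover Mo M) (X : Type) [TopologicalSpace X] (p : X → M),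
    Continuous p → ∀ (Y : XCov Mo FC p) (z z' : X) (γ : Path z z') (f f' : Mo.F), p z ∈ FC.U f → p z' ∈ FC.U f' →
    ∃ (n : ℕ) (u : ℕ → Y.C.Y), u 0 = Y.y f z ∧ u n = Y.y f' z' ∧ (∀ i < n, Y.C.Elem (u i) (u (i + 1))) ∧
      ∀ j ≤ n, ∃ (t : I) (g : Mo.F), p (γ t) ∈ FC.U g ∧ Y.C.Dle 12 (u j) (Y.y g (γ t))

/-! ## Arcs -/

/-- chains of moves `a` and `m` with `k` moves `m` -/
inductive ArcLe {Mo : Model} (C : Cov Mo) : ℕ → C.Y → C.Y → Prop
  | refl (y : C.Y) : ArcLe C 0 y y
  | a {k : ℕ} {y y' : C.Y} : ArcLe C k y y' → ArcLe C k y (C.a y')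
  | m {k : ℕ} {y y' : C.Y} : ArcLe C k y y' → (C.p y').1 ∉ Mo.D → ArcLe C (k + 1) y (C.m y')

/-- BLOCK Arc.  PROOF.  Let `T y = a (m y)` over non-defect chambers.  By `Mo.cut` the forward orbit of `p y` under
`(q, i) ↦ (s_j q, j)`, `j = mu q i`, meets `D`; up to that moment its members are different (the map is injective on
`Mo.F`: `m_m`, so a repetition would be a cycle missing `D`), so it meets `D` after at most `card F` steps, and this
bound is the same upstairs.  The set of all `T^k y`, `a T^k y`, `T^k (a y)`, `a T^k (a y)` with `k` up to the first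
defect is closed under `a` and `m` (over non-defects): it contains the `SameArc` class of `y`. -/
def Stmt_Arc : Prop :=
  ∀ (Mo : Model) (C : Cov Mo) (y y' : C.Y), C.SameArc y y' → ∃ k ≤ Fintype.card Mo.F, ArcLe C k y y'

/-! ## Metric blocks -/

/-- BLOCK LocIso.  The covering map is `1`-Lipschitz and a local isometry for the distances.  PROOF.  `1`-Lipschitz: the
image of a `C¹` path has the same `pathELength` (chain rule, `norm_mfderiv`; distances = infimum of the lengths of the
`C¹` paths, `IsRiemannianManifold`).  Local isometry at `x`: let `N` be an open neighbourhood of `x` on which `X.p` is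
injective with open image containing `ball (X.p x) ρ` and smooth inverse `s` (`isLocalDiffeomorph`); take `r < ρ / 8`
with `ball x r ⊆ N`.  For `x', x'' ∈ ball x r` a `C¹` path from `X.p x'` to `X.p x''` of length
`< dist (X.p x') (X.p x'') + ε < 3 r` stays in `ball (X.p x) ρ`; composed with `s` it is a `C¹` path from `x'` to `x''` of
the same length. -/
def Stmt_LocIso : Prop :=
  ∀ (M : ClosedRiemannianManifold) (X : RiemannianUniversalCover M),
    (∀ x x' : X.Pt, dist (X.p x) (X.p x') ≤ dist x x') ∧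
    ∀ x : X.Pt, ∃ r > 0, ∀ x' ∈ Metric.ball x r, ∀ x'' ∈ Metric.ball x r, dist x' x'' = dist (X.p x') (X.p x'')

/-- BLOCK LiftLen.  PROOF.  Uses `Stmt_LocIso`.  Lift the `ℓ`-Lipschitz path `γ` to a continuous `γ'` with `γ' 0 = x`
(`IsCoveringMap.liftPath`).  The set of `t` with `dist (γ' 0) (γ' t) ≤ ℓ t` is closed, contains `0`, and with `t` a right
neighbourhood of `t` (local isometry at `γ' t`): `IsClosed.Icc_subset_of_forall_mem_nhdsWithin`.  `JoinedIn`: the lift. -/
def Stmt_LiftLen : Prop :=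
  ∀ (M : ClosedRiemannianManifold) (X : RiemannianUniversalCover M) (S : Set M.Pt) (ℓ : ℝ≥0) (m m' : M.Pt),
    SPath S ℓ m m' → ∀ x : X.Pt, X.p x = m →
      ∃ x' : X.Pt, X.p x' = m' ∧ dist x x' ≤ ℓ ∧ JoinedIn (X.p ⁻¹' S) x x'

/-- BLOCK Geod.  `X` is a length space.  PROOF.  A `C¹` path of length `< dist x x' + ε` (`IsRiemannianManifold`; the
distance is finite), and `edist x (γ t) + edist (γ t) x' ≤` length (`pathELength_add`).  Also: `X.Pt` is locally path
connected (`M.H` is homeomorphic to the normed space `M.E`, `M.I` being boundaryless). -/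
def Stmt_Geod : Prop :=
  ∀ (M : ClosedRiemannianManifold) (X : RiemannianUniversalCover M), LocallyPathConnectedSpace X.Pt ∧
    ∀ (x x' : X.Pt) (ε : ℝ), 0 < ε → ∃ γ : Path x x', ∀ t, dist x (γ t) + dist (γ t) x' ≤ dist x x' + ε

/-- BLOCK MB.  PROOF.  helper49's `toGraph` with `C := A` (continuous for `weakTopology` too: near a point only one class
per annulus matters, so locally it has values in two edges with a common vertex: finite closed cover of a neighbourhood).  Let `z`, `z'` be in one chain class of the annulus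
`(k-1) A < d(x0, .) < (k+1) A`; the chain gives a path `α` from `z` to `z'` in `(k-2) A ≤ d(x0, .)`.  Let `w i` be the
chain of `hbot`; every `w i` is within `A` of `α`, so `d(x0, w i) ≥ (k-3) A`; it is also within `A` of a point `u` of the
path `z → x0 → z'` composed of almost geodesics (`ε = A`); if `u` is on the part `z → x0` then
`d(z, u) ≤ d(z, x0) + A - d(u, x0) ≤ (k+1) A + A - (k-4) A = 6 A`, so `d(z, w i) ≤ 7 A`.  So every `w i` is within `7 A`
of `z` or of `z'`; hence `d(z, z') ≤ 15 A`. -/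
def Stmt_MB : Prop :=
  ∀ (X : Type) [MetricSpace X] [Nonempty X] (A : ℝ), 0 < A →
    (∀ (x x' : X) (ε : ℝ), 0 < ε → ∃ γ : Path x x', ∀ t, dist x (γ t) + dist (γ t) x' ≤ dist x x' + ε) →
    (∀ x x' : X, ∃ (n : ℕ) (w : ℕ → X), w 0 = x ∧ w n = x' ∧ (∀ i < n, dist (w i) (w (i + 1)) ≤ A) ∧
      ∀ i ≤ n, ∀ γ : Path x x', ∃ t, dist (w i) (γ t) ≤ A) →
    UW727.urysohnWidthW 1 X ≤ ENNReal.ofReal (15 * A)

/-- BLOCK Dist.  Uses `Stmt_Sheets`, `Stmt_Arc`, `Stmt_LiftLen`.  PROOF.  (1) `z`, `z'` over `K f` in the same sheet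
(`y f z = y f z'`) have `dist z z' ≤ c`: lift the path of `len` from `z`; its end is `z'` by `joined` and `inj`.
(2) For a sheet `s` over `f` let `anc s` be the point over `anchor f` in it (`surj`); `anc (a s) = anc s` (`anchor_a`,
`y_a`, `inj`); for `f` over a non-defect chamber `q`: `dist (anc s) (anc (m s)) ≤ c / card F`: lift the path of `chord`
from `anc s` in `p ⁻¹' V q`; its end and `anc (m s)` lie over the same point and have the same sheet over `V q`
(`Stmt_Sheets` for `V q`; the sheets `s`, `r s`, ..., `m s` are joined over `V q` through a point over `centre q`, by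
`y_r`).  So `SameArc s s'` gives `dist (anc s) (anc s') ≤ c` (`Stmt_Arc`).  (3) `r`-moves: `anc (r s)` lies in `s` too
(`anchor_r`, `y_r`), so `dist (anc s) (anc (r s)) ≤ c` by (1). -/
def Stmt_Dist : Prop :=
  ∀ (Mo : Model) (M : ClosedRiemannianManifold) (c : ℝ≥0) (FC : MetricFlagCover Mo M c)
    (X : RiemannianUniversalCover M) (Y : XCov Mo FC.toFlagCover X.p) (k : ℕ) (f f' : Mo.F) (z z' : X.Pt),
    X.p z ∈ FC.K f → X.p z' ∈ FC.K f' → Y.C.Dle k (Y.y f z) (Y.y f' z') → dist z z' ≤ 3 * (k + 1) * c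

/-- the covering defined by a universal Riemannian covering is universal (from `Stmt_XSC`, `Stmt_Follow`,
`Cov.univ_of_sc`) -/
def Stmt_XUniv : Prop :=
  ∀ (Mo : Model) (M : ClosedRiemannianManifold) (c : ℝ≥0) (FC : MetricFlagCover Mo M c)
    (X : RiemannianUniversalCover M) (Y : XCov Mo FC.toFlagCover X.p), Y.C.Univ

end Pool.CX
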