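import Pool.Agent.Work.MP_727c87_cx.E2.Interface

set_option autoImplicit false

/-! # Part (E2), block Near: short chains between the flags over a near shape -/

namespace Pool.CX

namespace Near

variable {Mo : Model}

/-- a chain of `n` elementary moves -/
def Ch (C : Cov Mo) (n : ℕ) (v w : C.Y) : Prop :=
  ∃ u : ℕ → C.Y, u 0 = v ∧ u n = w ∧ ∀ i < n, C.Elem (u i) (u (i + 1))

theorem Ch.refl (C : Cov Mo) (v : C.Y) : Ch C 0 v v := ⟨fun _ => v, rfl, rfl, by simp⟩

theorem Ch.single {C : Cov Mo} {v w : C.Y} (h : C.Elem v w) : Ch C 1 v w := by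
  refine ⟨fun i => if i = 0 then v else w, by simp, by simp, fun i hi => ?_⟩
  have : i = 0 := by omega
  subst this
  simpa using h

theorem Ch.trans {C : Cov Mo} {n m : ℕ} {v w x : C.Y} (h1 : Ch C n v w) (h2 : Ch C m w x) :
    Ch C (n + m) v x := by
  obtain ⟨u, hu0, hun, hu⟩ := h1
  obtain ⟨u', hu0', hun', hu'⟩ := h2
  refine ⟨fun i => if i ≤ n then u i else u' (i - n), ?_, ?_, ?_⟩
  · simp [hu0]
  · by_cases hm : m = 0
    · subst hm
      simp [hun, ← hun', hu0']
    · show (if n + m ≤ n then u (n + m) else u' (n + m - n)) = x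
      rw [if_neg (by omega), Nat.add_sub_cancel_left, hun']
  · intro i hi
    by_cases h3 : i + 1 ≤ n
    · simp only [h3, if_true, if_pos (by omega : i ≤ n)]
      exact hu i (by omega)
    · by_cases h4 : i = n
      · subst h4
        simp only [le_refl, if_true, h3, if_false, hun]
        rw [Nat.add_sub_cancel_left, ← hu0']
        exact hu' 0 (by omega)
      · show C.Elem (if i ≤ n then u i else u' (i - n)) (if i + 1 ≤ n then u (i + 1) else u' (i + 1 - n))
        rw [if_neg (by omega), if_neg h3]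
        have : i + 1 - n = (i - n) + 1 := by omega
        rw [this]
        exact hu' (i - n) (by omega)

theorem Ch.symm {C : Cov Mo} {n : ℕ} {v w : C.Y} (h : Ch C n v w) : Ch C n w v := by
  obtain ⟨u, hu0, hun, hu⟩ := h
  refine ⟨fun i => u (n - i), by simp [hun], by simp [hu0], fun i hi => ?_⟩
  have h1 := hu (n - (i + 1)) (by omega)
  rw [show n - (i + 1) + 1 = n - i by omega] at h1
  exact Cov.Elem.symm h1

theorem ch_a (C : Cov Mo) (v : C.Y) : Ch C 1 v (C.a v) := Ch.single (Or.inl rfl)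
theorem ch_r (C : Cov Mo) (v : C.Y) : Ch C 1 v (C.r v) := Ch.single (Or.inr (Or.inl rfl))
theorem ch_rs (C : Cov Mo) (v : C.Y) : Ch C 1 v (C.r.symm v) := Ch.single (Or.inr (Or.inr rfl))
theorem ch_b (C : Cov Mo) (v : C.Y) : Ch C 3 v (C.b v) :=
  ((ch_r C v).trans (ch_a C (C.r v))).trans (ch_rs C (C.a (C.r v)))

theorem ch_rpow (C : Cov Mo) (n : ℕ) (v : C.Y) : Ch C n v ((C.r ^ n) v) := by
  induction n with
  | zero => simpa using Ch.refl C v
  | succ n ih =>
    rw [pow_succ', Equiv.Perm.mul_apply]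
    exact ih.trans (ch_r C _)

/-- at most `n` moves -/
def ChLe (C : Cov Mo) (n : ℕ) (v w : C.Y) : Prop := ∃ k ≤ n, Ch C k v w

theorem via {C : Cov Mo} {k l n : ℕ} {v w x : C.Y} (h1 : Ch C k v w) (h2 : Ch C l v x)
    (h : k + l ≤ n) : ChLe C n w x := ⟨k + l, h, h1.symm.trans h2⟩

end Near

open Near in
/-- BLOCK Near -/
theorem stmt_Near : Stmt_Near := by
  intro Mo C N y hN hy f hf g hg
  suffices h : ChLe C 12 (y f) (y g) by
    obtain ⟨n, hn, u, h1, h2, h3⟩ := h
    exact ⟨n, hn, u, h1, h2, h3⟩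
  obtain ⟨f₀, hN⟩ := hN
  -- it is enough to bound the distances from `y f₀`
  have key : ∀ D : ℕ, 2 * D ≤ 12 → (∀ g ∈ N, ∃ k ≤ D, Ch C k (y f₀) (y g)) →
      ChLe C 12 (y f) (y g) := by
    intro D hD h
    obtain ⟨k, hk, hk'⟩ := h f hf
    obtain ⟨l, hl, hl'⟩ := h g hg
    exact via hk' hl' (by omega)
  rcases hN with hN | hN | hN | hN | hN | hN | ⟨hD, hN⟩
  · subst hN
    rw [Set.mem_singleton_iff] at hf hg
    subst hf
    rw [hg]
    exact ⟨0, by omega, Ch.refl C _⟩
  · subst hN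
    have h0 : f₀ ∈ ({f₀, Mo.fr f₀} : Set Mo.F) := by simp
    have h1 := hy.y_r f₀ h0 (by simp)
    refine key 6 le_rfl fun g hg => ?_
    simp only [Set.mem_insert_iff, Set.mem_singleton_iff] at hg
    rcases hg with rfl | rfl
    · exact ⟨0, by omega, Ch.refl C _⟩
    · exact ⟨1, by omega, h1 ▸ ch_r C _⟩
  · subst hN
    have h1 := hy.y_a f₀ (by simp) (by simp)
    refine key 6 le_rfl fun g hg => ?_
    simp only [Set.mem_insert_iff, Set.mem_singleton_iff] at hg
    rcases hg with rfl | rfl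
    · exact ⟨0, by omega, Ch.refl C _⟩
    · exact ⟨1, by omega, h1 ▸ ch_a C _⟩
  · subst hN
    have h1 := hy.y_b f₀ (Or.inl rfl) (Or.inr rfl)
    refine key 6 le_rfl fun g hg => ?_
    rcases hg with hg | hg
    · rw [hg]; exact ⟨0, by omega, Ch.refl C _⟩
    · refine ⟨3, by omega, ?_⟩
      rw [show g = Mo.base.b f₀ from hg, h1]
      exact ch_b C _
  · subst hN
    have h1 := hy.y_b f₀ (Or.inl rfl) (Or.inr (Or.inr (Or.inl rfl)))
    have h2 := hy.y_r f₀ (Or.inl rfl) (Or.inr (Or.inl rfl))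
    have h3 := hy.y_a (Mo.fr f₀) (Or.inr (Or.inl rfl)) (Or.inr (Or.inr (Or.inr rfl)))
    refine key 6 le_rfl fun g hg => ?_
    rcases hg with hg | hg | hg | hg
    · rw [hg]; exact ⟨0, by omega, Ch.refl C _⟩
    · refine ⟨1, by omega, ?_⟩
      rw [hg, h2]
      exact ch_r C _
    · refine ⟨3, by omega, ?_⟩
      rw [show g = Mo.base.b f₀ from hg, h1]
      exact ch_b C _
    · refine ⟨2, by omega, ?_⟩
      rw [show g = Mo.fa (Mo.fr f₀) from hg, h3, h2]
      exact (ch_r C _).trans (ch_a C _)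
  · subst hN
    have h1 := hy.y_b f₀ (Or.inl rfl) (Or.inr (Or.inr (Or.inl rfl)))
    have h2 := hy.y_a f₀ (Or.inl rfl) (Or.inr (Or.inl rfl))
    have h3 := hy.y_a (Mo.base.b f₀) (Or.inr (Or.inr (Or.inl rfl))) (Or.inr (Or.inr (Or.inr rfl)))
    refine key 6 le_rfl fun g hg => ?_
    rcases hg with hg | hg | hg | hg
    · rw [hg]; exact ⟨0, by omega, Ch.refl C _⟩
    · refine ⟨1, by omega, ?_⟩
      rw [hg, h2]
      exact ch_a C _
    · refine ⟨3, by omega, ?_⟩
      rw [show g = Mo.base.b f₀ from hg, h1]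
      exact ch_b C _
    · refine ⟨4, by omega, ?_⟩
      rw [show g = Mo.fa (Mo.base.b f₀) from hg, h3, h1]
      exact (ch_b C _).trans (ch_a C _)
  · -- all flags of one chamber
    subst hN
    have hstep : ∀ (n : ℕ) (i : ZMod 12), y (f₀.1, i + n) = (C.r ^ n) (y (f₀.1, i)) := by
      intro n i
      induction n with
      | zero => simp
      | succ n ih =>
        rw [pow_succ', Equiv.Perm.mul_apply, ← ih]
        have h1 := hy.y_r (f₀.1, i + n) rfl rfl
        rw [← h1]
        congr 1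
        simp [Model.fr, add_assoc]
    have hf1 : f.1 = f₀.1 := hf
    have hg1 : g.1 = f₀.1 := hg
    obtain ⟨q, i⟩ := f
    obtain ⟨q', j⟩ := g
    simp only at hf1 hg1
    subst hf1
    rw [hg1]
    refine ⟨(j - i).val, (ZMod.val_lt (j - i)).le, ?_⟩
    have h2 := hstep (j - i).val i
    rw [ZMod.natCast_zmod_val, add_sub_cancel] at h2
    have h3 : (f₀.1, j) = (f₀.1, j) := rfl
    rw [h2]
    exact ch_rpow C _ _

end Pool.CX
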